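import Pool.Agent.P.MP_6e3a57_lc.PL

set_option autoImplicit false

/-!
Chains of cells and their Farey refinements.
-/

namespace Pool.Agent.P.MP_6e3a57_lc

variable {Λ Λ' : Type}

/-- A list of cells in which consecutive cells share a vertex value. -/
inductive Chain : Λ → List (Pt → Λ) → Λ → Prop
  | nil (a : Λ) : Chain a [] a
  | cons (f : Pt → Λ) (l : List (Pt → Λ)) (b : Λ) :
      Chain (f (0, 1)) l b → Chain (f (1, 0)) (f :: l) b

lemma chain_nil {a b : Λ} : Chain a [] b ↔ a = b :=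
  ⟨fun h => by cases h; rfl, fun h => h ▸ Chain.nil a⟩

lemma chain_cons {a b : Λ} {f : Pt → Λ} {l : List (Pt → Λ)} :
    Chain a (f :: l) b ↔ f (1, 0) = a ∧ Chain (f (0, 1)) l b :=
  ⟨fun h => by cases h with | cons _ _ _ h => exact ⟨rfl, h⟩, fun h => h.1 ▸ Chain.cons f l b h.2⟩

lemma chain_append {a b : Λ} {l l' : List (Pt → Λ)} :
    Chain a (l ++ l') b ↔ ∃ m, Chain a l m ∧ Chain m l' b := by
  induction l generalizing a with
  | nil => simp [chain_nil]
  | cons f l ih => simp only [List.cons_append, chain_cons, ih]; tauto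

lemma Chain.unique {a b b' : Λ} {l : List (Pt → Λ)} (h : Chain a l b) (h' : Chain a l b') :
    b = b' := by
  induction h with
  | nil a => exact chain_nil.mp h'
  | cons f l b _ ih => exact ih (chain_cons.mp h').2

lemma Chain.map (π : Λ → Λ') {a b : Λ} {l : List (Pt → Λ)} (h : Chain a l b) :
    Chain (π a) (l.map (π ∘ ·)) (π b) := by
  induction h with
  | nil a => exact Chain.nil _
  | cons f l b _ ih => exact Chain.cons (π ∘ f) _ _ ih

/-- Refinement of a list of cells. -/
inductive Refines : List (Pt → Λ) → List (Pt → Λ) → Prop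
  | nil : Refines [] []
  | keep (f : Pt → Λ) (c d : List (Pt → Λ)) : Refines c d → Refines (f :: c) (f :: d)
  | split (f : Pt → Λ) (c d : List (Pt → Λ)) :
      Refines (f ∘ cL :: f ∘ cR :: c) d → Refines (f :: c) d

lemma Refines.refl (c : List (Pt → Λ)) : Refines c c := by
  induction c with
  | nil => exact Refines.nil
  | cons f c ih => exact Refines.keep f c c ih

lemma Refines.eq_nil {c d : List (Pt → Λ)} (h : Refines c d) : c = [] ↔ d = [] := by
  induction h with
  | nil => rfl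
  | keep f c d _ _ => simp
  | split f c d _ ih => simpa using ih

lemma Refines.keep_aux {c d : List (Pt → Λ)} (h : Refines c d) :
    ∀ (f : Pt → Λ) (d0 e0 : List (Pt → Λ)), d = f :: d0 → (∀ c, Refines c d0 → Refines c e0) →
      Refines c (f :: e0) := by
  induction h with
  | nil => intro f d0 e0 h; simp at h
  | keep g c d h _ =>
    intro f d0 e0 e hh
    obtain ⟨rfl, rfl⟩ := List.cons.inj e
    exact Refines.keep _ _ _ (hh _ h)
  | split g c d _ ih =>
    intro f d0 e0 e hh
    exact Refines.split _ _ _ (ih f d0 e0 e hh)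

lemma Refines.split_aux {c d : List (Pt → Λ)} (h : Refines c d) :
    ∀ (f : Pt → Λ) (d0 : List (Pt → Λ)), d = f :: d0 → Refines c (f ∘ cL :: f ∘ cR :: d0) := by
  induction h with
  | nil => intro f d0 h; simp at h
  | keep g c d h _ =>
    intro f d0 e
    obtain ⟨rfl, rfl⟩ := List.cons.inj e
    exact Refines.split _ _ _ (Refines.keep _ _ _ (Refines.keep _ _ _ h))
  | split g c d _ ih =>
    intro f d0 e
    exact Refines.split _ _ _ (ih f d0 e)

lemma Refines.trans {c d e : List (Pt → Λ)} (h : Refines c d) (h' : Refines d e) :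
    Refines c e := by
  induction h' generalizing c with
  | nil => rw [h.eq_nil.mpr rfl]; exact Refines.nil
  | keep f d e _ ih => exact h.keep_aux f d e rfl (fun c hc => ih hc)
  | split f d e _ ih => exact ih (h.split_aux f d rfl)

lemma Refines.append {c d c' d' : List (Pt → Λ)} (h : Refines c d) (h' : Refines c' d') :
    Refines (c ++ c') (d ++ d') := by
  induction h with
  | nil => exact h'
  | keep f c d _ ih => exact Refines.keep _ _ _ ih
  | split f c d _ ih => exact Refines.split _ _ _ ih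

lemma Refines.map (π : Λ → Λ') {c d : List (Pt → Λ)} (h : Refines c d) :
    Refines (c.map (π ∘ ·)) (d.map (π ∘ ·)) := by
  induction h with
  | nil => exact Refines.nil
  | keep f c d _ ih => exact Refines.keep _ _ _ ih
  | split f c d _ ih => exact Refines.split _ _ _ ih

lemma Refines.lift (π : Λ' → Λ) {c d : List (Pt → Λ)} (h : Refines c d) :
    ∀ gs : List (Pt → Λ'), gs.map (π ∘ ·) = c → ∃ hs, Refines gs hs ∧ hs.map (π ∘ ·) = d := by
  induction h with
  | nil => intro gs e; exact ⟨gs, Refines.refl _, e⟩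
  | keep f c d _ ih =>
    intro gs e
    obtain ⟨g, gs, rfl, e1, e2⟩ := List.map_eq_cons_iff.mp e
    obtain ⟨hs, h1, h2⟩ := ih gs e2
    exact ⟨g :: hs, Refines.keep _ _ _ h1, by rw [List.map_cons, e1, h2]⟩
  | split f c d _ ih =>
    intro gs e
    obtain ⟨g, gs, rfl, e1, e2⟩ := List.map_eq_cons_iff.mp e
    obtain ⟨hs, h1, h2⟩ := ih (g ∘ cL :: g ∘ cR :: gs) (by rw [← e1, ← e2]; rfl)
    exact ⟨hs, Refines.split _ _ _ h1, h2⟩

lemma Refines.chain {c d : List (Pt → Λ)} (h : Refines c d) (a b : Λ) :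
    Chain a c b ↔ Chain a d b := by
  induction h generalizing a with
  | nil => rfl
  | keep f c d _ ih => simp only [chain_cons, ih]
  | split f c d _ ih =>
    rw [← ih]
    simp [chain_cons]

lemma Refines.points {c d : List (Pt → Λ)} (h : Refines c d) (P : Λ → Prop) :
    (∀ f ∈ c, ∀ z, P (f z)) ↔ (∀ f ∈ d, ∀ z, P (f z)) := by
  induction h with
  | nil => rfl
  | keep f c d _ ih => simp only [List.forall_mem_cons, ih]
  | split f c d _ ih =>
    rw [← ih]
    simp only [List.forall_mem_cons, ← and_assoc]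
    refine and_congr_left' ⟨fun h => ⟨fun z => h _, fun z => h _⟩, fun h z => ?_⟩
    rcases cover z with ⟨w, rfl⟩ | ⟨w, rfl⟩
    · exact h.1 w
    · exact h.2 w

variable [AddCommGroup Λ] [AddCommGroup Λ']

lemma Refines.pl {c d : List (Pt → Λ)} (h : Refines c d) :
    (∀ f ∈ c, PL f) ↔ (∀ f ∈ d, PL f) := by
  induction h with
  | nil => rfl
  | keep f c d _ ih => simp only [List.forall_mem_cons, ih]
  | split f c d _ ih =>
    rw [← ih]
    simp only [List.forall_mem_cons, ← and_assoc]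
    exact and_congr_left' ⟨fun h => ⟨h.left, h.right⟩, fun h => PL.split h.1 h.2⟩

lemma exists_glue {h1 h2 : Pt → Λ} (p1 : PL h1) (p2 : PL h2) (e : h2 (1, 0) = h1 (0, 1)) :
    ∃ g : Pt → Λ, g ∘ cL = h1 ∧ g ∘ cR = h2 := by
  refine ⟨fun z => if z.2 ≤ z.1 then h1 (z.1 - z.2, z.2) else h2 (z.1, z.2 - z.1), ?_, ?_⟩
  · funext w
    simp [cL]
  · funext w
    by_cases hw : w.2 = 0
    · have a1 := p1.homog w.1 (0, 1)
      have a2 := p2.homog w.1 (1, 0)
      simp only [mul_zero, mul_one] at a1 a2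
      have : w = (w.1, 0) := Prod.ext rfl hw
      rw [this]
      simp [cR, a1, a2, e]
    · have : ¬ (w.1 + w.2 ≤ w.1) := by omega
      simp [cR, this]

omit [AddCommGroup Λ] in
lemma Refines.descend (π : Λ' → Λ) {c d : List (Pt → Λ)} (h : Refines c d) :
    ∀ (hs : List (Pt → Λ')) (a b : Λ'), hs.map (π ∘ ·) = d → Chain a hs b → (∀ h ∈ hs, PL h) →
      ∃ gs, gs.map (π ∘ ·) = c ∧ Refines gs hs := by
  induction h with
  | nil => intro hs a b e _ _; exact ⟨hs, e, Refines.refl _⟩
  | keep f c d _ ih =>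
    intro hs a b e hc hp
    obtain ⟨g, hs, rfl, e1, e2⟩ := List.map_eq_cons_iff.mp e
    obtain ⟨gs, h1, h2⟩ := ih hs _ b e2 (chain_cons.mp hc).2
      (fun h hh => hp h (List.mem_cons_of_mem _ hh))
    exact ⟨g :: gs, by rw [List.map_cons, e1, h1], Refines.keep _ _ _ h2⟩
  | split f c d _ ih =>
    intro hs a b e hc hp
    obtain ⟨gs, h1, h2⟩ := ih hs a b e hc hp
    obtain ⟨g1, gs, rfl, e1, e2⟩ := List.map_eq_cons_iff.mp h1
    obtain ⟨g2, gs, rfl, e2, e3⟩ := List.map_eq_cons_iff.mp e2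
    have hc' := (h2.chain a b).mpr hc
    have hp' := h2.pl.mpr hp
    obtain ⟨g, rfl, rfl⟩ := exists_glue (hp' g1 (by simp)) (hp' g2 (by simp))
      (chain_cons.mp (chain_cons.mp hc').2).1
    refine ⟨g :: gs, ?_, Refines.split _ _ _ h2⟩
    rw [List.map_cons, e3]
    congr 1
    funext z
    rcases cover z with ⟨w, rfl⟩ | ⟨w, rfl⟩
    · exact congrFun e1 w
    · exact congrFun e2 w

/-- All cells are linear and satisfy P. -/
def AllLin (P : Λ → Λ → Prop) (c : List (Pt → Λ)) : Prop := ∀ g ∈ c, ∃ a b, g = lin a b ∧ P a b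

lemma allLin_cons {P : Λ → Λ → Prop} {f : Pt → Λ} {c : List (Pt → Λ)} :
    AllLin P (f :: c) ↔ (∃ a b, f = lin a b ∧ P a b) ∧ AllLin P c := List.forall_mem_cons

lemma allLin_append {P : Λ → Λ → Prop} {c d : List (Pt → Λ)} :
    AllLin P (c ++ d) ↔ AllLin P c ∧ AllLin P d := List.forall_mem_append

lemma PLP.refines {P : Λ → Λ → Prop} {f : Pt → Λ} (h : PLP P f) :
    ∃ d, Refines [f] d ∧ AllLin P d := by
  induction h with
  | lin a b hab =>
    exact ⟨_, Refines.refl _, allLin_cons.mpr ⟨⟨a, b, rfl, hab⟩, fun _ h => by simp at h⟩⟩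
  | split f _ _ i1 i2 =>
    obtain ⟨d1, h1, g1⟩ := i1
    obtain ⟨d2, h2, g2⟩ := i2
    exact ⟨d1 ++ d2, Refines.split _ _ _ (h1.append h2), allLin_append.mpr ⟨g1, g2⟩⟩

lemma refines_of_plp {P : Λ → Λ → Prop} {c : List (Pt → Λ)} (h : ∀ f ∈ c, PLP P f) :
    ∃ d, Refines c d ∧ AllLin P d := by
  induction c with
  | nil => exact ⟨[], Refines.nil, fun _ h => by simp at h⟩
  | cons f c ih =>
    obtain ⟨d1, h1, g1⟩ := (h f (by simp)).refines
    obtain ⟨d2, h2, g2⟩ := ih fun g hg => h g (List.mem_cons_of_mem _ hg)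
    exact ⟨d1 ++ d2, h1.append h2, allLin_append.mpr ⟨g1, g2⟩⟩

lemma Refines.allLin {P : Λ → Λ → Prop} (hP : Hered P) {c d : List (Pt → Λ)} (h : Refines c d)
    (hc : AllLin P c) : AllLin P d := by
  induction h with
  | nil => exact hc
  | keep f c d _ ih => exact allLin_cons.mpr ⟨(allLin_cons.mp hc).1, ih (allLin_cons.mp hc).2⟩
  | split f c d _ ih =>
    obtain ⟨⟨a, b, rfl, hab⟩, h2⟩ := allLin_cons.mp hc
    exact ih (allLin_cons.mpr ⟨⟨_, _, lin_cL a b, (hP a b hab).1⟩,
      allLin_cons.mpr ⟨⟨_, _, lin_cR a b, (hP a b hab).2⟩, h2⟩⟩)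

lemma refines_split (a b : Λ) : Refines [lin a b] [lin a (a + b), lin (a + b) b] := by
  refine Refines.split _ _ _ ?_
  rw [lin_cL, lin_cR]
  exact Refines.refl _

lemma exists_deep (p q : Λ) (K : ℕ) : ∃ (l1 l2 : List (Pt → Λ)) (α β α' β' : ℕ),
    Refines [lin p q] (l1 ++ lin (α • p + β • q) (α' • p + β' • q) :: l2) ∧
      K ≤ α ∧ K ≤ β ∧ K ≤ α' ∧ K ≤ β' ∧ K + 1 ≤ α + α' ∧ K + 1 ≤ β + β' := by
  induction K with
  | zero => exact ⟨[], [], 1, 0, 0, 1, by simpa using Refines.refl _, by omega⟩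
  | succ K ih =>
    obtain ⟨l1, l2, α, β, α', β', h, g⟩ := ih
    set p1 := α • p + β • q with hp1
    set q1 := α' • p + β' • q with hq1
    have h1 : Refines [lin p1 q1] [lin p1 (p1 + (p1 + q1)), lin (p1 + (p1 + q1)) (p1 + q1),
        lin (p1 + q1) q1] :=
      (refines_split p1 q1).trans ((refines_split p1 (p1 + q1)).append (Refines.refl [_]))
    refine ⟨l1 ++ [lin p1 (p1 + (p1 + q1))], lin (p1 + q1) q1 :: l2, α + (α + α'), β + (β + β'),
      α + α', β + β', ?_, by omega⟩
    have e1 : (α + (α + α')) • p + (β + (β + β')) • q = p1 + (p1 + q1) := by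
      simp only [hp1, hq1, add_smul]; abel
    have e2 : (α + α') • p + (β + β') • q = p1 + q1 := by
      simp only [hp1, hq1, add_smul]; abel
    rw [e1, e2]
    refine h.trans ?_
    have := (Refines.refl l1).append (h1.append (Refines.refl l2))
    simpa using this

end Pool.Agent.P.MP_6e3a57_lc
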