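import Mathlib

set_option autoImplicit false

/-!
The one-step extension lemma for integer vectors (the back-and-forth system for the ordered group
of integers).
-/

namespace Pool.Agent.P.MP_6e3a57_lc

/-- Equal, or both large of the same sign. -/
def Sim (N : ℕ) (p q : ℤ) : Prop := p = q ∨ ((N : ℤ) < p ∧ (N : ℤ) < q) ∨ (p < -N ∧ q < -N)

lemma Sim.symm {N : ℕ} {p q : ℤ} (h : Sim N p q) : Sim N q p := by
  unfold Sim at *; omega

lemma Sim.mono {N N' : ℕ} (hN : N ≤ N') {p q : ℤ} (h : Sim N' p q) : Sim N p q := by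
  unfold Sim at *; omega

/-- The modulus at level N. -/
def md (N : ℕ) : ℤ := 11 * (N.factorial : ℤ)

lemma md_pos (N : ℕ) : 0 < md N := by
  have := N.factorial_pos
  unfold md
  positivity

lemma md_dvd {N N' : ℕ} (h : N ≤ N') : md N ∣ md N' :=
  mul_dvd_mul_left _ (Int.natCast_dvd_natCast.mpr (Nat.factorial_dvd_factorial h))

lemma dvd_md (N : ℕ) : (11 : ℤ) ∣ md N := dvd_mul_right _ _

variable {ι : Type} [Fintype ι]

/-- The scalar product. -/
def dot (c v : ι → ℤ) : ℤ := ∑ i, c i * v i

/-- Height at most N. -/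
def Ht (N : ℕ) (c : ι → ℤ) : Prop := ∀ i, |c i| ≤ N

/-- Vectors that are similar at level N. -/
def Ap (N : ℕ) (v v' : ι → ℤ) : Prop :=
  (∀ i, v i ≡ v' i [ZMOD md N]) ∧ ∀ c, Ht N c → Sim N (dot c v) (dot c v')

lemma Ap.symm {N : ℕ} {v v' : ι → ℤ} (h : Ap N v v') : Ap N v' v :=
  ⟨fun i => (h.1 i).symm, fun c hc => (h.2 c hc).symm⟩

omit [Fintype ι] in
lemma Ht.mono {N N' : ℕ} (hN : N ≤ N') {c : ι → ℤ} (h : Ht N c) : Ht N' c :=
  fun i => (h i).trans (by exact_mod_cast hN)

lemma Ap.mono {N N' : ℕ} (hN : N ≤ N') {v v' : ι → ℤ} (h : Ap N' v v') : Ap N v v' :=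
  ⟨fun i => (h.1 i).of_dvd (md_dvd hN), fun c hc => (h.2 c (hc.mono hN)).mono hN⟩

lemma ht_finite (N : ℕ) : {c : ι → ℤ | Ht N c}.Finite := by
  refine (Set.Finite.pi' (fun _ : ι => Set.finite_Icc (-(N : ℤ)) N)).subset ?_
  intro c hc i
  exact abs_le.mp (hc i)

lemma dot_sub (c c' v : ι → ℤ) : dot (c - c') v = dot c v - dot c' v := by
  simp [dot, sub_mul, Finset.sum_sub_distrib]

lemma dot_smul (m : ℤ) (c v : ι → ℤ) : dot (m • c) v = m * dot c v := by
  simp [dot, Finset.mul_sum, mul_assoc]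

lemma dot_modEq {M : ℤ} (c : ι → ℤ) {v v' : ι → ℤ} (h : ∀ i, v i ≡ v' i [ZMOD M]) :
    dot c v ≡ dot c v' [ZMOD M] := by
  unfold dot
  apply Int.ModEq.sum
  intro i _
  exact (h i).mul_left _

lemma dot_option (c : Option ι → ℤ) (b : ℤ) (v : ι → ℤ) :
    dot c (fun o => o.elim b v) = c none * b + dot (fun i => c (some i)) v := by
  simp [dot, Fintype.sum_option]

/-- The next level. -/
def nxt (N : ℕ) : ℕ := 2 * N + 2 * (N.factorial * N) + N.factorial * (11 * N.factorial)

lemma le_nxt (N : ℕ) : N ≤ nxt N := by unfold nxt; omega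

lemma md_nxt (N : ℕ) : (N.factorial : ℤ) * md N ∣ md (nxt N) := by
  have h1 : N.factorial * N.factorial ∣ (nxt N).factorial :=
    (Nat.factorial_mul_factorial_dvd_factorial_add N N).trans
      (Nat.factorial_dvd_factorial (by unfold nxt; omega))
  have h2 : ((N.factorial : ℤ) * N.factorial) ∣ (nxt N).factorial := by exact_mod_cast h1
  unfold md
  rw [mul_left_comm]
  exact mul_dvd_mul_left _ h2

lemma exists_window (a β M : ℤ) (hM : 0 < M) : ∃ β', a < β' ∧ β' ≤ a + M ∧ β' ≡ β [ZMOD M] := by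
  refine ⟨a + 1 + (β - (a + 1)) % M, ?_, ?_, ?_⟩
  · have := Int.emod_nonneg (β - (a + 1)) hM.ne'
    omega
  · have := Int.emod_lt_of_pos (β - (a + 1)) hM
    omega
  · have := (Int.mod_modEq (β - (a + 1)) M).add_left (a + 1)
    simpa using this

lemma core_ext (T M : ℕ) (hM : 0 < M) {E : Type} [Finite E] (l l' : E → ℤ)
    (h1 : ∀ e, l e ≡ l' e [ZMOD M]) (h2 : ∀ e e', Sim (2 * T + M) (l e - l e') (l' e - l' e'))
    (β : ℤ) : ∃ β', β' ≡ β [ZMOD M] ∧ ∀ e, Sim T (β - l e) (β' - l' e) := by
  by_cases hc : ∃ e0, |β - l e0| ≤ T + M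
  · obtain ⟨e0, h0⟩ := hc
    refine ⟨l' e0 + (β - l e0), ?_, fun e => ?_⟩
    · have := (h1 e0).symm.add_right (β - l e0)
      simpa using this
    · have := h2 e0 e
      rw [abs_le] at h0
      unfold Sim at *
      push_cast at this
      omega
  · push Not at hc
    by_cases hne : ∃ e, l e < β
    · obtain ⟨e1, he1, hmax⟩ := Set.exists_max_image {e | l e < β} l' (Set.toFinite _) hne
      obtain ⟨β', g1, g2, g3⟩ := exists_window (l' e1 + T) β M (by exact_mod_cast hM)
      refine ⟨β', g3, fun e => ?_⟩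
      have a1 := hc e
      have a2 := hc e1
      have a3 := h2 e e1
      have a4 : l e1 < β := he1
      rw [lt_abs] at a1 a2
      unfold Sim at *
      push_cast at a3
      by_cases he : l e < β
      · have := hmax e he
        omega
      · omega
    · push Not at hne
      cases isEmpty_or_nonempty E with
      | inl h => exact ⟨β, Int.ModEq.refl _, fun e => h.elim e⟩
      | inr h =>
        obtain ⟨e1, hmin⟩ := Finite.exists_min l'
        obtain ⟨β', g1, g2, g3⟩ := exists_window (l' e1 - T - M - 1) β M (by exact_mod_cast hM)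
        refine ⟨β', g3, fun e => ?_⟩
        have a1 := hc e
        have a2 := hne e
        have a3 := hmin e
        rw [lt_abs] at a1
        unfold Sim
        omega

lemma Sim.neg {N : ℕ} {p q : ℤ} (h : Sim N p q) : Sim N (-p) (-q) := by
  unfold Sim at *; omega

lemma Sim.of_mul {N D : ℕ} {k p q : ℤ} (hk0 : 0 < k) (hk : k ≤ D)
    (h : Sim (D * N) (k * p) (k * q)) : Sim N p q := by
  have key : ∀ r : ℤ, ((D * N : ℕ) : ℤ) < k * r → (N : ℤ) < r := by
    intro r hr
    by_contra hcon
    push Not at hcon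
    push_cast at hr
    have : k * r ≤ k * N := mul_le_mul_of_nonneg_left hcon hk0.le
    have : k * N ≤ D * N := mul_le_mul_of_nonneg_right hk (Int.natCast_nonneg N)
    omega
  rcases h with h | ⟨h1, h2⟩ | ⟨h1, h2⟩
  · exact Or.inl (mul_left_cancel₀ hk0.ne' h)
  · exact Or.inr (Or.inl ⟨key p h1, key q h2⟩)
  · have g1 := key (-p) (by rw [mul_neg]; omega)
    have g2 := key (-q) (by rw [mul_neg]; omega)
    exact Or.inr (Or.inr ⟨by omega, by omega⟩)

theorem pres_ext (N : ℕ) {v v' : ι → ℤ} (h : Ap (nxt N) v v') (b : ℤ) :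
    ∃ b', Ap N (fun o : Option ι => o.elim b v) (fun o => o.elim b' v') := by
  set D := N.factorial with hD
  have hD0 : 0 < D := N.factorial_pos
  have : Finite {c : ι → ℤ // Ht (D * N) c} := (ht_finite (D * N)).to_subtype
  have hM : ((D * (11 * D) : ℕ) : ℤ) = D * md N := by
    unfold md; push_cast; rfl
  obtain ⟨β', g1, g2⟩ := core_ext (D * N) (D * (11 * D)) (by positivity)
    (fun e : {c : ι → ℤ // Ht (D * N) c} => dot e.1 v) (fun e => dot e.1 v')
    (fun e => by
      rw [hM]
      exact dot_modEq _ fun i => (h.1 i).of_dvd (md_nxt N))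
    (fun e e' => by
      rw [← dot_sub, ← dot_sub]
      refine (h.2 _ fun i => ?_).mono (by unfold nxt; rw [← hD]; omega)
      have a1 := e.2 i
      have a2 := e'.2 i
      have a3 : 2 * (D * N) ≤ nxt N := by unfold nxt; rw [← hD]; omega
      have a4 : ((2 * (D * N) : ℕ) : ℤ) ≤ nxt N := by exact_mod_cast a3
      rw [abs_le] at a1 a2 ⊢
      simp only [Pi.sub_apply]
      push_cast at a1 a2 a4 ⊢
      omega)
    (D * b)
  rw [hM] at g1
  obtain ⟨t, ht⟩ := g1.symm.dvd
  have hβ : β' = D * (b + md N * t) := by linear_combination ht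
  refine ⟨b + md N * t, fun o => ?_, fun c hc => ?_⟩
  · cases o with
    | none =>
      show b ≡ b + md N * t [ZMOD md N]
      exact (Int.modEq_iff_dvd).mpr ⟨t, by ring⟩
    | some i => exact (h.1 i).of_dvd (md_dvd (le_nxt N))
  · rw [dot_option, dot_option]
    have hc0 : Ht N (fun i => c (some i)) := fun i => hc (some i)
    have key : ∀ (d : ℤ) (c0 : ι → ℤ), 0 < d → d ≤ N → Ht N c0 →
        Sim N (d * b + dot c0 v) (d * (b + md N * t) + dot c0 v') := by
      intro d c0 hd0 hdN hc0
      obtain ⟨k, hk⟩ : d ∣ (D : ℤ) := by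
        obtain ⟨n, rfl⟩ : ∃ n : ℕ, d = n := ⟨d.toNat, by omega⟩
        exact Int.natCast_dvd_natCast.mpr
          (Nat.dvd_factorial (by exact_mod_cast hd0) (by exact_mod_cast hdN))
      have hDz : (0 : ℤ) < D := by exact_mod_cast hD0
      have hk0 : 0 < k := by
        by_contra hcon
        push Not at hcon
        nlinarith
      have hkD : k ≤ D := by nlinarith
      have he : Ht (D * N) ((-k) • c0) := by
        intro i
        have := hc0 i
        simp only [Pi.smul_apply, smul_eq_mul, abs_mul, abs_neg, abs_of_pos hk0]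
        push_cast
        exact mul_le_mul hkD this (abs_nonneg _) hDz.le
      have := g2 ⟨_, he⟩
      simp only [dot_smul] at this
      refine Sim.of_mul hk0 hkD ?_
      convert this using 1
      · rw [hk]; ring
      · rw [hβ, hk]; ring
    have hcn := abs_le.mp (hc none)
    rcases lt_trichotomy (c none) 0 with hd | hd | hd
    · have := (key (-c none) ((-1 : ℤ) • fun i => c (some i)) (by omega) (by omega)
        (fun i => by simpa using hc0 i)).neg
      simp only [dot_smul] at this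
      convert this using 1 <;> ring
    · rw [hd]
      simpa using (h.2 _ (hc0.mono (le_nxt N))).mono (le_nxt N)
    · exact key _ _ hd hcn.2 hc0

end Pool.Agent.P.MP_6e3a57_lc
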