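import Pool.Agent.P.MP_6e3a57_lc.Chains
import Pool.Agent.P.MP_6e3a57_lc.Pres

set_option autoImplicit false

/-!
Letters, labels and labelled chains for the back-and-forth game.
-/

namespace Pool.Agent.P.MP_6e3a57_lc

/-- Letters: a value of u and values of the elements chosen so far. -/
abbrev Let (ι : Type) : Type := ℤ × (ι → ℤ)

variable {ι : Type}

/-- Forget the last chosen element. -/
def pr : Let (Option ι) →+ Let ι where
  toFun a := (a.1, fun i => a.2 (some i))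
  map_zero' := rfl
  map_add' _ _ := rfl

/-- Congruence of letters. -/
def Cong (N : ℕ) (a a' : Let ι) : Prop :=
  a.1 ≡ a'.1 [ZMOD 11] ∧ ∀ i, a.2 i ≡ a'.2 i [ZMOD md N]

lemma Cong.refl (N : ℕ) (a : Let ι) : Cong N a a := ⟨Int.ModEq.refl _, fun _ => Int.ModEq.refl _⟩

lemma Cong.symm {N : ℕ} {a b : Let ι} (h : Cong N a b) : Cong N b a :=
  ⟨h.1.symm, fun i => (h.2 i).symm⟩

lemma Cong.trans {N : ℕ} {a b c : Let ι} (h : Cong N a b) (h' : Cong N b c) : Cong N a c :=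
  ⟨h.1.trans h'.1, fun i => (h.2 i).trans (h'.2 i)⟩

lemma Cong.mono {N N' : ℕ} (hN : N ≤ N') {a b : Let ι} (h : Cong N' a b) : Cong N a b :=
  ⟨h.1, fun i => (h.2 i).of_dvd (md_dvd hN)⟩

lemma Cong.add {N : ℕ} {a b c d : Let ι} (h : Cong N a b) (h' : Cong N c d) :
    Cong N (a + c) (b + d) := ⟨h.1.add h'.1, fun i => (h.2 i).add (h'.2 i)⟩

lemma Cong.zsmul {N : ℕ} {a b : Let ι} (h : Cong N a b) {m n : ℤ} (hm : m ≡ n [ZMOD md N]) :
    Cong N (m • a) (n • b) :=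
  ⟨(hm.of_dvd (dvd_md N)).mul h.1, fun i => hm.mul (h.2 i)⟩

/-- The determinant of two labels. -/
def det (σ τ : ℤ × ℤ) : ℤ := σ.1 * τ.2 - σ.2 * τ.1

/-- Congruence of labels. -/
def LC (N : ℕ) (σ τ : ℤ × ℤ) : Prop := σ.1 ≡ τ.1 [ZMOD md N] ∧ σ.2 ≡ τ.2 [ZMOD md N]

lemma LC.symm {N : ℕ} {σ τ : ℤ × ℤ} (h : LC N σ τ) : LC N τ σ := ⟨h.1.symm, h.2.symm⟩

lemma LC.refl (N : ℕ) (σ : ℤ × ℤ) : LC N σ σ := ⟨Int.ModEq.refl _, Int.ModEq.refl _⟩

lemma det_congr {N : ℕ} {σ σ' τ τ' : ℤ × ℤ} (h : LC N σ σ') (h' : LC N τ τ') :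
    det σ τ ≡ det σ' τ' [ZMOD md N] := (h.1.mul h'.2).sub (h.2.mul h'.1)

/-- The linear map given by two letters. -/
def ap (F : Let ι × Let ι) (σ : ℤ × ℤ) : Let ι := σ.1 • F.1 + σ.2 • F.2

lemma ap_congr {N : ℕ} (F : Let ι × Let ι) {σ τ : ℤ × ℤ} (h : LC N σ τ) :
    Cong N (ap F σ) (ap F τ) := ((Cong.refl N _).zsmul h.1).add ((Cong.refl N _).zsmul h.2)

lemma ap_comb (F : Let ι × Let ι) (m n : ℤ) (σ τ : ℤ × ℤ) :
    ap F (m • σ + n • τ) = m • ap F σ + n • ap F τ := by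
  simp only [ap, Prod.fst_add, Prod.snd_add, Prod.smul_fst, Prod.smul_snd, smul_eq_mul, add_smul,
    mul_smul, smul_add]
  abel

lemma lc_basis {N : ℕ} {σ τ : ℤ × ℤ} (h : det σ τ ≡ 1 [ZMOD md N]) (ρ : ℤ × ℤ) {m n : ℤ}
    (hm : m ≡ det ρ τ [ZMOD md N]) (hn : n ≡ det σ ρ [ZMOD md N]) : LC N (m • σ + n • τ) ρ := by
  constructor
  · have h1 := (hm.mul_right σ.1).add (hn.mul_right τ.1)
    have h2 := h.mul_right ρ.1
    rw [one_mul] at h2
    refine h1.trans ?_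
    convert h2 using 1
    unfold det; ring
  · have h1 := (hm.mul_right σ.2).add (hn.mul_right τ.2)
    have h2 := h.mul_right ρ.2
    rw [one_mul] at h2
    refine h1.trans ?_
    convert h2 using 1
    unfold det; ring

lemma exists_nat_rep (N : ℕ) (m : ℤ) : ∃ j : ℕ, (((j + 1 : ℕ) : ℤ)) ≡ m [ZMOD md N] := by
  have h := md_pos N
  refine ⟨((m - 1) % md N).toNat, ?_⟩
  push_cast
  rw [Int.toNat_of_nonneg (Int.emod_nonneg _ h.ne')]
  have := (Int.mod_modEq (m - 1) (md N)).add_right 1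
  simpa using this

variable [Fintype ι]

/-- The functional given by a coefficient vector. -/
def dotL (c : ι → ℤ) : Let ι →+ ℤ where
  toFun a := dot c a.2
  map_zero' := by simp [dot]
  map_add' a b := by simp [dot, mul_add, Finset.sum_add_distrib]

/-- Similar letters. -/
def ApL (N : ℕ) (a a' : Let ι) : Prop :=
  Cong N a a' ∧ ∀ c, Ht N c → Sim N (dotL c a) (dotL c a')

lemma ApL.symm {N : ℕ} {a a' : Let ι} (h : ApL N a a') : ApL N a' a :=
  ⟨h.1.symm, fun c hc => (h.2 c hc).symm⟩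

lemma ApL.mono {N N' : ℕ} (hN : N ≤ N') {a a' : Let ι} (h : ApL N' a a') : ApL N a a' :=
  ⟨h.1.mono hN, fun c hc => (h.2 c (hc.mono hN)).mono hN⟩

lemma ApL.ext {N : ℕ} {p : Let (Option ι)} {a' : Let ι} (h : ApL (nxt N) (pr p) a') :
    ∃ p', pr p' = a' ∧ ApL N p p' := by
  obtain ⟨b', hb'⟩ := pres_ext N (v := (pr p).2) (v' := a'.2) ⟨h.1.2, h.2⟩ (p.2 none)
  have e : (fun o : Option ι => o.elim (p.2 none) (pr p).2) = p.2 := by
    funext o; cases o <;> rfl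
  rw [e] at hb'
  exact ⟨(a'.1, fun o => o.elim b' a'.2), rfl, ⟨h.1.1, hb'.1⟩, hb'.2⟩

/-- No small functional changes sign on the cell. -/
def NC (N : ℕ) (a b : Let ι) : Prop := ∀ c, Ht N c → NoCh (dotL c) a b

lemma nc_hered (N : ℕ) : Hered (NC N : Let ι → Let ι → Prop) := fun a b h =>
  ⟨fun c hc => (noCh_hered _ a b (h c hc)).1, fun c hc => (noCh_hered _ a b (h c hc)).2⟩

lemma PL.nc {Λ : Type} [AddCommGroup Λ] (N : ℕ) (φ : Λ →+ Let ι) {f : Pt → Λ} (hf : PL f) :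
    PLP (fun a b => NC N (φ a) (φ b)) f := by
  refine (hf.noCh_finite ((ht_finite (ι := ι) N).image (fun c => (dotL c).comp φ))).mono ?_
  intro a b h c hc
  exact h _ ⟨c, hc, rfl⟩

lemma sim_comb {N : ℕ} {a b a' b' : ℤ} (h1 : Sim N a a') (h2 : Sim N b b')
    (h : (0 ≤ a ∧ 0 ≤ b) ∨ (a ≤ 0 ∧ b ≤ 0)) (m n : ℕ) :
    Sim N (m • a + n • b) (m • a' + n • b') := by
  have key : ∀ {a b a' b' : ℤ}, Sim N a a' → Sim N b b' → 0 ≤ a → 0 ≤ b →
      Sim N (m • a + n • b) (m • a' + n • b') := by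
    intro a b a' b' h1 h2 ha hb
    have one : ∀ {a a' : ℤ} (m : ℕ), Sim N a a' → 0 ≤ a →
        0 ≤ m • a ∧ 0 ≤ m • a' ∧ (m • a = m • a' ∨ ((N : ℤ) < m • a ∧ (N : ℤ) < m • a')) := by
      intro a a' m h ha
      have ha' : 0 ≤ a' := by unfold Sim at h; omega
      refine ⟨nsmul_nonneg ha m, nsmul_nonneg ha' m, ?_⟩
      rcases h with h | h | h
      · exact Or.inl (by rw [h])
      · rcases Nat.eq_zero_or_pos m with rfl | hm
        · exact Or.inl (by simp)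
        · right
          simp only [nsmul_eq_mul]
          have : (1 : ℤ) ≤ m := by exact_mod_cast hm
          constructor <;> nlinarith [h.1, h.2]
      · omega
    have g1 := one m h1 ha
    have g2 := one n h2 hb
    unfold Sim
    omega
  rcases h with h | h
  · exact key h1 h2 h.1 h.2
  · have := (key h1.neg h2.neg (by omega) (by omega)).neg
    simpa [add_comm] using this

lemma apL_lin {N : ℕ} {a b a' b' : Let ι} (h1 : ApL N a a') (h2 : ApL N b b') (h : NC N a b)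
    (z : Pt) : ApL N (lin a b z) (lin a' b' z) := by
  constructor
  · unfold lin
    rw [← natCast_zsmul, ← natCast_zsmul, ← natCast_zsmul, ← natCast_zsmul]
    exact (h1.1.zsmul (Int.ModEq.refl _)).add (h2.1.zsmul (Int.ModEq.refl _))
  · intro c hc
    simp only [lin, map_add, map_nsmul]
    exact sim_comb (h1.2 c hc) (h2.2 c hc) (h c hc) _ _

lemma NC.transfer {N : ℕ} {a b a' b' : Let ι} (h : NC N a b) (h1 : ApL N a a') (h2 : ApL N b b') :
    NC N a' b' := by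
  intro c hc
  have g := h c hc
  have g1 := h1.2 c hc
  have g2 := h2.2 c hc
  unfold NoCh Sim at *
  omega

/-- The letter has sign pattern s, with large values. -/
def Pat (N : ℕ) (s : (ι → ℤ) → ℤ) (a : Let ι) : Prop :=
  ∀ c, Ht N c → (s c = 0 ∧ dotL c a = 0) ∨ (s c = 1 ∧ (N : ℤ) < dotL c a) ∨
    (s c = -1 ∧ dotL c a < -N)

lemma Pat.add {N : ℕ} {s : (ι → ℤ) → ℤ} {a b : Let ι} (h : Pat N s a) (h' : Pat N s b) :
    Pat N s (a + b) := by
  intro c hc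
  have g := h c hc
  have g' := h' c hc
  rw [map_add]
  omega

lemma Pat.nsmul {N : ℕ} {s : (ι → ℤ) → ℤ} {a : Let ι} (h : Pat N s a) (j : ℕ) :
    Pat N s ((j + 1) • a) := by
  induction j with
  | zero => simpa using h
  | succ j ih => rw [succ_nsmul]; exact ih.add h

/-- The letter a has label σ. -/
def Lab (N : ℕ) (F : Let ι × Let ι) (s : (ι → ℤ) → ℤ) (σ : ℤ × ℤ) (a : Let ι) : Prop :=
  Cong N a (ap F σ) ∧ Pat N s a

variable {N : ℕ} {F : Let ι × Let ι} {s : (ι → ℤ) → ℤ}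

lemma Lab.apL {σ : ℤ × ℤ} {a a' : Let ι} (h : Lab N F s σ a) (h' : Lab N F s σ a') :
    ApL N a a' := by
  refine ⟨h.1.trans h'.1.symm, fun c hc => ?_⟩
  have g := h.2 c hc
  have g' := h'.2 c hc
  unfold Sim
  omega

lemma Lab.transfer {σ : ℤ × ℤ} {a a' : Let ι} (h : Lab N F s σ a) (h' : ApL N a a') :
    Lab N F s σ a' := by
  refine ⟨h'.1.symm.trans h.1, fun c hc => ?_⟩
  have g := h.2 c hc
  have g' := h'.2 c hc
  unfold Sim at g'
  omega

lemma Lab.relabel {σ τ : ℤ × ℤ} {a : Let ι} (h : Lab N F s σ a) (h' : LC N σ τ) :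
    Lab N F s τ a := ⟨h.1.trans (ap_congr F h'), h.2⟩

lemma Lab.add {σ τ : ℤ × ℤ} {a b : Let ι} (h : Lab N F s σ a) (h' : Lab N F s τ b) :
    Lab N F s (σ + τ) (a + b) := by
  refine ⟨?_, h.2.add h'.2⟩
  have := ap_comb F 1 1 σ τ
  simp only [one_smul] at this
  rw [this]
  exact h.1.add h'.1

lemma Lab.mono {N' : ℕ} (hN : N ≤ N') {σ : ℤ × ℤ} {a : Let ι} (h : Lab N' F s σ a) :
    Lab N F s σ a := by
  refine ⟨h.1.mono hN, fun c hc => ?_⟩
  have g := h.2 c (hc.mono hN)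
  omega

/-- Labelled chains of linear cells. -/
inductive DCh (N : ℕ) (F : Let ι × Let ι) (s : (ι → ℤ) → ℤ) :
    ℤ × ℤ → Let ι → List (Pt → Let ι) → Let ι → ℤ × ℤ → Prop
  | nil (σ : ℤ × ℤ) (a : Let ι) : Lab N F s σ a → DCh N F s σ a [] a σ
  | cons (σ : ℤ × ℤ) (a : Let ι) (τ : ℤ × ℤ) (b : Let ι) (l : List (Pt → Let ι)) (e : Let ι)
      (ρ : ℤ × ℤ) : Lab N F s σ a → det σ τ ≡ 1 [ZMOD md N] → DCh N F s τ b l e ρ →
      DCh N F s σ a (lin a b :: l) e ρ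

lemma DCh.lab_start {σ ρ : ℤ × ℤ} {a e : Let ι} {l : List (Pt → Let ι)}
    (h : DCh N F s σ a l e ρ) : Lab N F s σ a := by
  cases h <;> assumption

lemma DCh.lab_end {σ ρ : ℤ × ℤ} {a e : Let ι} {l : List (Pt → Let ι)}
    (h : DCh N F s σ a l e ρ) : Lab N F s ρ e := by
  induction h <;> assumption

lemma DCh.chain {σ ρ : ℤ × ℤ} {a e : Let ι} {l : List (Pt → Let ι)}
    (h : DCh N F s σ a l e ρ) : Chain a l e := by
  induction h with
  | nil σ a _ => exact Chain.nil a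
  | cons σ a τ b l e ρ _ _ _ ih => exact chain_cons.mpr ⟨by simp, by simpa using ih⟩

lemma DCh.pl {σ ρ : ℤ × ℤ} {a e : Let ι} {l : List (Pt → Let ι)}
    (h : DCh N F s σ a l e ρ) : ∀ f ∈ l, PL f := by
  induction h with
  | nil σ a _ => simp
  | cons σ a τ b l e ρ _ _ _ ih => exact List.forall_mem_cons.mpr ⟨PL.lin a b, ih⟩

lemma DCh.mono {N' : ℕ} (hN : N ≤ N') {σ ρ : ℤ × ℤ} {a e : Let ι} {l : List (Pt → Let ι)}
    (h : DCh N' F s σ a l e ρ) : DCh N F s σ a l e ρ := by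
  induction h with
  | nil σ a h => exact DCh.nil σ a (h.mono hN)
  | cons σ a τ b l e ρ h1 h2 _ ih =>
    exact DCh.cons σ a τ b l e ρ (h1.mono hN) (h2.of_dvd (md_dvd hN)) ih

lemma DCh.cons_inv {σ ρ : ℤ × ℤ} {a e : Let ι} {f : Pt → Let ι} {l : List (Pt → Let ι)}
    (h : DCh N F s σ a (f :: l) e ρ) :
    ∃ τ b, f = lin a b ∧ det σ τ ≡ 1 [ZMOD md N] ∧ DCh N F s τ b l e ρ := by
  generalize hl : f :: l = l' at h
  cases h with
  | nil => simp at hl
  | cons _ _ τ b l _ _ h1 h2 h3 =>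
    obtain ⟨rfl, rfl⟩ := List.cons.inj hl
    exact ⟨τ, b, rfl, h2, h3⟩

lemma DCh.nil_inv {σ ρ : ℤ × ℤ} {a e : Let ι} (h : DCh N F s σ a [] e ρ) : a = e ∧ σ = ρ := by
  cases h
  exact ⟨rfl, rfl⟩

lemma DCh.append {σ τ ρ : ℤ × ℤ} {a b e : Let ι} {l l' : List (Pt → Let ι)}
    (h : DCh N F s σ a l b τ) (h' : DCh N F s τ b l' e ρ) : DCh N F s σ a (l ++ l') e ρ := by
  induction h with
  | nil σ a _ => exact h'
  | cons σ a τ b l e ρ h1 h2 _ ih => exact DCh.cons _ _ _ _ _ _ _ h1 h2 (ih h')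

lemma DCh.append_inv {σ ρ : ℤ × ℤ} {a e : Let ι} {l l' : List (Pt → Let ι)}
    (h : DCh N F s σ a (l ++ l') e ρ) : ∃ τ b, DCh N F s σ a l b τ ∧ DCh N F s τ b l' e ρ := by
  induction l generalizing σ a with
  | nil => exact ⟨σ, a, DCh.nil σ a h.lab_start, h⟩
  | cons f l ih =>
    obtain ⟨τ, b, rfl, h1, h2⟩ := DCh.cons_inv h
    obtain ⟨τ', b', g1, g2⟩ := ih h2
    exact ⟨τ', b', DCh.cons _ _ _ _ _ _ _ h.lab_start h1 g1, g2⟩

lemma DCh.refine {c d : List (Pt → Let ι)} (hr : Refines c d) {σ ρ : ℤ × ℤ} {a e : Let ι}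
    (h : DCh N F s σ a c e ρ) : DCh N F s σ a d e ρ := by
  induction hr generalizing σ a with
  | nil => exact h
  | keep f c d _ ih =>
    obtain ⟨τ, b, rfl, h1, h2⟩ := h.cons_inv
    exact DCh.cons _ _ _ _ _ _ _ h.lab_start h1 (ih h2)
  | split f c d _ ih =>
    obtain ⟨τ, b, rfl, h1, h2⟩ := h.cons_inv
    apply ih
    rw [lin_cL, lin_cR]
    refine DCh.cons σ a (σ + τ) _ _ _ _ h.lab_start ?_
      (DCh.cons _ _ τ b _ _ _ (h.lab_start.add h2.lab_start) ?_ h2)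
    · convert h1 using 1
      simp only [det, Prod.fst_add, Prod.snd_add]; ring
    · convert h1 using 1
      simp only [det, Prod.fst_add, Prod.snd_add]; ring

lemma DCh.relabel_start {σ σ' ρ : ℤ × ℤ} {a e : Let ι} {l : List (Pt → Let ι)}
    (h : DCh N F s σ a l e ρ) (hl : l ≠ []) (h' : LC N σ σ') : DCh N F s σ' a l e ρ := by
  cases h with
  | nil => exact absurd rfl hl
  | cons _ _ τ b l _ _ h1 h2 h3 =>
    exact DCh.cons _ _ τ b l _ _ (h1.relabel h') ((det_congr h'.symm (LC.refl N τ)).trans h2) h3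

lemma DCh.relabel_end {σ ρ ρ' : ℤ × ℤ} {a e : Let ι} {l : List (Pt → Let ι)}
    (h : DCh N F s σ a l e ρ) (hl : l ≠ []) (h' : LC N ρ ρ') : DCh N F s σ a l e ρ' := by
  induction h with
  | nil => exact absurd rfl hl
  | cons σ a τ b l e ρ h1 h2 h3 ih =>
    by_cases h0 : l = []
    · subst h0
      obtain ⟨rfl, rfl⟩ := h3.nil_inv
      exact DCh.cons _ _ ρ' b [] _ _ h1 ((det_congr (LC.refl N σ) h'.symm).trans h2)
        (DCh.nil _ _ (h3.lab_start.relabel h'))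
    · exact DCh.cons _ _ τ b l _ _ h1 h2 (ih h0 h')

lemma fan_left {σ τ : ℤ × ℤ} {a b : Let ι} (ha : Lab N F s σ a) (hb : Lab N F s τ b)
    (hd : det σ τ ≡ 1 [ZMOD md N]) (j : ℕ) :
    ∃ m l, Refines [lin a b] (lin a m :: l) ∧ l ≠ [] ∧
      DCh N F s (((j + 1 : ℕ) : ℤ) • σ + τ) m l b τ := by
  induction j with
  | zero =>
    refine ⟨a + b, [lin (a + b) b], refines_split a b, by simp, ?_⟩
    refine DCh.cons _ _ τ b _ _ _ (by simpa using ha.add hb) ?_ (DCh.nil _ _ hb)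
    convert hd using 1
    simp only [det, Prod.fst_add, Prod.snd_add, Prod.smul_fst, Prod.smul_snd, smul_eq_mul]
    push_cast; ring
  | succ j ih =>
    obtain ⟨m, l, h1, -, h3⟩ := ih
    refine ⟨a + m, lin (a + m) m :: l, h1.trans ((refines_split a m).append (Refines.refl l)),
      by simp, ?_⟩
    have e : ((j + 1 + 1 : ℕ) : ℤ) • σ + τ = σ + (((j + 1 : ℕ) : ℤ) • σ + τ) := by
      push_cast
      simp only [add_smul, one_smul]; abel
    rw [e]
    refine DCh.cons _ _ _ m _ _ _ (ha.add h3.lab_start) ?_ h3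
    convert hd using 1
    simp only [det, Prod.fst_add, Prod.snd_add, Prod.smul_fst, Prod.smul_snd, smul_eq_mul]
    ring

lemma fan_right {σ τ : ℤ × ℤ} {a b : Let ι} (ha : Lab N F s σ a) (hb : Lab N F s τ b)
    (hd : det σ τ ≡ 1 [ZMOD md N]) (j : ℕ) :
    ∃ m l, Refines [lin a b] (l ++ [lin m b]) ∧ l ≠ [] ∧
      DCh N F s σ a l m (σ + ((j + 1 : ℕ) : ℤ) • τ) := by
  induction j with
  | zero =>
    refine ⟨a + b, [lin a (a + b)], refines_split a b, by simp, ?_⟩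
    refine DCh.cons _ _ _ (a + b) _ _ _ ha ?_ (DCh.nil _ _ (by simpa using ha.add hb))
    convert hd using 1
    simp only [det, Prod.fst_add, Prod.snd_add, Prod.smul_fst, Prod.smul_snd, smul_eq_mul]
    push_cast; ring
  | succ j ih =>
    obtain ⟨m, l, h1, -, h3⟩ := ih
    refine ⟨m + b, l ++ [lin m (m + b)], h1.trans ?_, by simp, ?_⟩
    · have := (Refines.refl l).append (refines_split m b)
      simpa using this
    have e : σ + ((j + 1 + 1 : ℕ) : ℤ) • τ = (σ + ((j + 1 : ℕ) : ℤ) • τ) + τ := by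
      push_cast
      simp only [add_smul, one_smul]; abel
    rw [e]
    refine h3.append (DCh.cons _ _ _ (m + b) _ _ _ h3.lab_end ?_
      (DCh.nil _ _ (h3.lab_end.add hb)))
    convert hd using 1
    simp only [det, Prod.fst_add, Prod.snd_add, Prod.smul_fst, Prod.smul_snd, smul_eq_mul]
    ring

lemma DCh.first {σ τ ρ : ℤ × ℤ} {a b : Let ι} {c : List (Pt → Let ι)} (h : DCh N F s σ a c b τ)
    (hc : c ≠ []) (hρ : det σ ρ ≡ 1 [ZMOD md N]) :
    ∃ m c0, Refines c (lin a m :: c0) ∧ c0 ≠ [] ∧ DCh N F s ρ m c0 b τ := by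
  cases h with
  | nil => exact absurd rfl hc
  | cons _ _ τ0 b0 l _ _ h1 h2 h3 =>
    obtain ⟨j, hj⟩ := exists_nat_rep N (det ρ τ0)
    obtain ⟨m, l1, g1, g2, g3⟩ := fan_left h1 h3.lab_start h2 j
    have hl := lc_basis h2 ρ hj hρ.symm
    rw [one_smul] at hl
    exact ⟨m, l1 ++ l, g1.append (Refines.refl l), by simp [g2],
      (g3.relabel_start g2 hl).append h3⟩

lemma DCh.last {σ τ ρ : ℤ × ℤ} {a b : Let ι} {c : List (Pt → Let ι)} (h : DCh N F s σ a c b τ)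
    (hc : c ≠ []) (hρ : det ρ τ ≡ 1 [ZMOD md N]) :
    ∃ m c0, Refines c (c0 ++ [lin m b]) ∧ c0 ≠ [] ∧ DCh N F s σ a c0 m ρ := by
  induction h with
  | nil => exact absurd rfl hc
  | cons σ a τ0 b0 l e τ h1 h2 h3 ih =>
    by_cases h0 : l = []
    · subst h0
      obtain ⟨rfl, rfl⟩ := h3.nil_inv
      obtain ⟨j, hj⟩ := exists_nat_rep N (det σ ρ)
      obtain ⟨m, l1, g1, g2, g3⟩ := fan_right h1 h3.lab_start h2 j
      have hl := lc_basis h2 ρ hρ.symm hj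
      rw [one_smul] at hl
      exact ⟨m, l1, g1, g2, g3.relabel_end g2 hl⟩
    · obtain ⟨m, c0, g1, -, g3⟩ := ih h0 hρ
      exact ⟨m, lin a b0 :: c0, Refines.keep _ _ _ g1, by simp, DCh.cons _ _ _ _ _ _ _ h1 h2 g3⟩

/-- Parallel chains of linear cells with similar vertices. -/
inductive Par (N : ℕ) :
    Let ι → List (Pt → Let ι) → Let ι → Let ι → List (Pt → Let ι) → Let ι → Prop
  | nil (a a' : Let ι) : Par N a [] a a' [] a'
  | cons (a b e a' b' e' : Let ι) (l l' : List (Pt → Let ι)) : ApL N b b' →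
      Par N b l e b' l' e' → Par N a (lin a b :: l) e a' (lin a' b' :: l') e'

lemma copy_left {σ σ1 τ : ℤ × ℤ} {a a1 a' b' : Let ι} {d c' : List (Pt → Let ι)}
    (h : DCh N F s σ a d a1 σ1) (h' : DCh N F s σ a' c' b' τ) (hc : c' ≠ []) :
    ∃ e a1' c1, Refines c' (e ++ c1) ∧ c1 ≠ [] ∧ DCh N F s σ1 a1' c1 b' τ ∧
      Par N a d a1 a' e a1' := by
  induction h generalizing a' c' with
  | nil σ a _ => exact ⟨[], a', c', Refines.refl _, hc, h', Par.nil _ _⟩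
  | cons σ a τ0 b0 l e ρ h1 h2 h3 ih =>
    obtain ⟨m, c0, g1, g2, g3⟩ := h'.first hc h2
    obtain ⟨e1, a1', c1, k1, k2, k3, k4⟩ := ih g3 g2
    exact ⟨lin a' m :: e1, a1', c1, g1.trans (Refines.keep _ _ _ k1), k2, k3,
      Par.cons _ _ _ _ _ _ _ _ (h3.lab_start.apL g3.lab_start) k4⟩

lemma copy_right {σ τ1 τ : ℤ × ℤ} {b1 b a' b' : Let ι} {d c' : List (Pt → Let ι)}
    (h : DCh N F s τ1 b1 d b τ) (h' : DCh N F s σ a' c' b' τ) (hc : c' ≠ []) :
    ∃ e b1' c1, Refines c' (c1 ++ e) ∧ c1 ≠ [] ∧ DCh N F s σ a' c1 b1' τ1 ∧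
      Par N b1 d b b1' e b' := by
  induction h with
  | nil σ a _ => exact ⟨[], b', c', by simpa using Refines.refl _, hc, h', Par.nil _ _⟩
  | cons τ1 b1 τ0 b0 l e ρ h1 h2 h3 ih =>
    obtain ⟨e1, b2', c1, k1, k2, k3, k4⟩ := ih h'
    obtain ⟨m, c0, g1, g2, g3⟩ := k3.last k2 h2
    refine ⟨lin m b2' :: e1, m, c0, k1.trans ?_, g2, g3,
      Par.cons _ _ _ _ _ _ _ _ (h3.lab_start.apL k3.lab_end) k4⟩
    have := g1.append (Refines.refl e1)
    simpa using this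

end Pool.Agent.P.MP_6e3a57_lc
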