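import Pool.Agent.P.MP_6e3a57_lc.Game1

set_option autoImplicit false

/-!
The back-and-forth relation on chains of cells and its extension property.
-/

namespace Pool.Agent.P.MP_6e3a57_lc

variable {ι : Type} [Fintype ι] {N : ℕ}

/-- The relation. -/
inductive Rel (N : ℕ) :
    Let ι → List (Pt → Let ι) → Let ι → Let ι → List (Pt → Let ι) → Let ι → Prop
  | app (a b e a' b' e' : Let ι) (c d c' d' : List (Pt → Let ι)) :
      Rel N a c b a' c' b' → Rel N b d e b' d' e' → Rel N a (c ++ d) e a' (c' ++ d') e'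
  | refine (a b a' b' : Let ι) (c d c' d' : List (Pt → Let ι)) :
      Refines c d → Refines c' d' → Rel N a d b a' d' b' → Rel N a c b a' c' b'
  | good (a b a' b' : Let ι) : ApL N a a' → ApL N b b' → NC N a b →
      Rel N a [lin a b] b a' [lin a' b'] b'
  | defect (F : Let ι × Let ι) (s : (ι → ℤ) → ℤ) (σ τ : ℤ × ℤ) (a b a' b' : Let ι)
      (c c' : List (Pt → Let ι)) : DCh N F s σ a c b τ → DCh N F s σ a' c' b' τ → c ≠ [] →
      c' ≠ [] → Rel N a c b a' c' b'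

lemma Rel.symm {a b a' b' : Let ι} {c c' : List (Pt → Let ι)} (h : Rel N a c b a' c' b') :
    Rel N a' c' b' a c b := by
  induction h with
  | app a b e a' b' e' c d c' d' _ _ i1 i2 => exact Rel.app _ _ _ _ _ _ _ _ _ _ i1 i2
  | refine a b a' b' c d c' d' h1 h2 _ ih => exact Rel.refine _ _ _ _ _ _ _ _ h2 h1 ih
  | good a b a' b' h1 h2 h3 => exact Rel.good _ _ _ _ h1.symm h2.symm (h3.transfer h1 h2)
  | defect F s σ τ a b a' b' c c' h1 h2 h3 h4 => exact Rel.defect F s σ τ _ _ _ _ _ _ h2 h1 h4 h3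

lemma Rel.mono {N' : ℕ} (hN : N ≤ N') {a b a' b' : Let ι} {c c' : List (Pt → Let ι)}
    (h : Rel N' a c b a' c' b') : Rel N a c b a' c' b' := by
  induction h with
  | app a b e a' b' e' c d c' d' _ _ i1 i2 => exact Rel.app _ _ _ _ _ _ _ _ _ _ i1 i2
  | refine a b a' b' c d c' d' h1 h2 _ ih => exact Rel.refine _ _ _ _ _ _ _ _ h1 h2 ih
  | good a b a' b' h1 h2 h3 =>
    exact Rel.good _ _ _ _ (h1.mono hN) (h2.mono hN) (fun c hc => h3 c (hc.mono hN))
  | defect F s σ τ a b a' b' c c' h1 h2 h3 h4 =>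
    exact Rel.defect F s σ τ _ _ _ _ _ _ (h1.mono hN) (h2.mono hN) h3 h4

lemma Rel.basic {a b a' b' : Let ι} {c c' : List (Pt → Let ι)} (h : Rel N a c b a' c' b') :
    Chain a c b ∧ (∀ f ∈ c, PL f) ∧ ApL N a a' ∧ ApL N b b' := by
  induction h with
  | app a b e a' b' e' c d c' d' _ _ i1 i2 =>
    exact ⟨chain_append.mpr ⟨b, i1.1, i2.1⟩, List.forall_mem_append.mpr ⟨i1.2.1, i2.2.1⟩,
      i1.2.2.1, i2.2.2.2⟩
  | refine a b a' b' c d c' d' h1 h2 _ ih =>
    exact ⟨(h1.chain a b).mpr ih.1, h1.pl.mpr ih.2.1, ih.2.2⟩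
  | good a b a' b' h1 h2 h3 =>
    exact ⟨chain_cons.mpr ⟨by simp, by simpa using Chain.nil b⟩, by simpa using PL.lin a b, h1, h2⟩
  | defect F s σ τ a b a' b' c c' h1 h2 h3 h4 =>
    exact ⟨h1.chain, h1.pl, h1.lab_start.apL h2.lab_start, h1.lab_end.apL h2.lab_end⟩

lemma DCh.points {F : Let ι × Let ι} {s : (ι → ℤ) → ℤ} {σ ρ : ℤ × ℤ} {a e : Let ι}
    {l : List (Pt → Let ι)} (h : DCh N F s σ a l e ρ) (P : Let ι → Prop) (h0 : P 0)
    (hadd : ∀ a b, P a → P b → P (a + b)) (hP : ∀ τ b, Lab N F s τ b → P b) :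
    ∀ f ∈ l, ∀ z, P (f z) := by
  have hn : ∀ (n : ℕ) (a : Let ι), P a → P (n • a) := by
    intro n a ha
    induction n with
    | zero => simpa using h0
    | succ n ih => rw [succ_nsmul]; exact hadd _ _ ih ha
  induction h with
  | nil σ a _ => simp
  | cons σ a τ b l e ρ h1 h2 h3 ih =>
    refine List.forall_mem_cons.mpr ⟨fun z => ?_, ih⟩
    exact hadd _ _ (hn _ _ (hP _ _ h1)) (hn _ _ (hP _ _ h3.lab_start))

lemma Rel.nonneg {a b a' b' : Let ι} {c c' : List (Pt → Let ι)} (h : Rel N a c b a' c' b')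
    {v : ι → ℤ} (hv : Ht N v) (hc : ∀ f ∈ c, ∀ z, 0 ≤ dotL v (f z)) :
    ∀ f ∈ c', ∀ z, 0 ≤ dotL v (f z) := by
  induction h with
  | app a b e a' b' e' c d c' d' _ _ i1 i2 =>
    rw [List.forall_mem_append] at hc ⊢
    exact ⟨i1 hc.1, i2 hc.2⟩
  | refine a b a' b' c d c' d' h1 h2 _ ih =>
    exact (h2.points fun x => 0 ≤ dotL v x).mpr (ih ((h1.points fun x => 0 ≤ dotL v x).mp hc))
  | good a b a' b' h1 h2 h3 =>
    intro f hf z
    rw [List.mem_singleton.mp hf]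
    have g1 := hc _ (List.mem_singleton_self _) z
    have g2 := (apL_lin h1 h2 h3 z).2 v hv
    unfold Sim at g2
    omega
  | defect F s σ τ a b a' b' c c' h1 h2 h3 h4 =>
    have ha : 0 ≤ dotL v a := by
      cases h1 with
      | nil => exact absurd rfl h3
      | cons _ _ τ0 b0 l _ _ _ _ _ => simpa using hc (lin a b0) (by simp) (1, 0)
    refine h2.points (fun x => 0 ≤ dotL v x) (by simp)
      (fun a b ha hb => by rw [map_add]; exact add_nonneg ha hb) fun τ b hb => ?_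
    have g1 := h1.lab_start.2 v hv
    have g2 := hb.2 v hv
    omega

lemma Rel.cong {a b a' b' : Let ι} {c c' : List (Pt → Let ι)} (h : Rel N a c b a' c' b')
    (i : ι) (m : ℤ) (hc : ∀ f ∈ c, ∀ z, (f z).2 i ≡ m * (f z).1 [ZMOD 11]) :
    ∀ f ∈ c', ∀ z, (f z).2 i ≡ m * (f z).1 [ZMOD 11] := by
  have tr : ∀ {x y : Let ι}, Cong N x y → x.2 i ≡ m * x.1 [ZMOD 11] →
      y.2 i ≡ m * y.1 [ZMOD 11] := fun {x y} h1 h2 =>
    ((h1.2 i).of_dvd (dvd_md N)).symm.trans (h2.trans (h1.1.mul_left m))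
  have cb : ∀ (x y : Let ι) (k l : ℤ), x.2 i ≡ m * x.1 [ZMOD 11] → y.2 i ≡ m * y.1 [ZMOD 11] →
      (k • x + l • y).2 i ≡ m * (k • x + l • y).1 [ZMOD 11] := by
    intro x y k l h1 h2
    have := (h1.mul_left k).add (h2.mul_left l)
    have e : m * (k • x + l • y).1 = k * (m * x.1) + l * (m * y.1) := by
      simp only [Prod.fst_add, Prod.smul_fst, smul_eq_mul]
      ring
    rw [e]
    exact this
  induction h with
  | app a b e a' b' e' c d c' d' _ _ i1 i2 =>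
    rw [List.forall_mem_append] at hc ⊢
    exact ⟨i1 hc.1, i2 hc.2⟩
  | refine a b a' b' c d c' d' h1 h2 _ ih =>
    exact (h2.points fun x => x.2 i ≡ m * x.1 [ZMOD 11]).mpr
      (ih ((h1.points fun x => x.2 i ≡ m * x.1 [ZMOD 11]).mp hc))
  | good a b a' b' h1 h2 h3 =>
    intro f hf z
    rw [List.mem_singleton.mp hf]
    exact tr (apL_lin h1 h2 h3 z).1 (hc _ (List.mem_singleton_self _) z)
  | defect F s σ τ a b a' b' c c' h1 h2 h3 h4 =>
    cases h1 with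
    | nil => exact absurd rfl h3
    | cons _ _ τ0 b0 l _ _ k1 k2 k3 =>
      have ha := tr k1.1 (by simpa using hc (lin a b0) (by simp) (1, 0))
      have hb := tr k3.lab_start.1 (by simpa using hc (lin a b0) (by simp) (0, 1))
      refine h2.points (fun x => x.2 i ≡ m * x.1 [ZMOD 11]) (by simp)
        (fun a b ha hb => by simpa using cb a b 1 1 ha hb) fun ρ x hx => ?_
      refine tr hx.1.symm (tr (ap_congr F (lc_basis k2 ρ (Int.ModEq.refl _) (Int.ModEq.refl _))) ?_)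
      rw [ap_comb]
      exact cb _ _ _ _ ha hb

/-- Chains of good cells, possibly empty. -/
inductive GCh (N : ℕ) :
    Let ι → List (Pt → Let ι) → Let ι → Let ι → List (Pt → Let ι) → Let ι → Prop
  | nil (a a' : Let ι) : GCh N a [] a a' [] a'
  | cons (a b e a' b' e' : Let ι) (l l' : List (Pt → Let ι)) : ApL N a a' → ApL N b b' →
      NC N a b → GCh N b l e b' l' e' → GCh N a (lin a b :: l) e a' (lin a' b' :: l') e'

lemma GCh.app_rel {a b e a' b' e' : Let ι} {c d c' d' : List (Pt → Let ι)}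
    (h : GCh N a c b a' c' b') (h' : Rel N b d e b' d' e') : Rel N a (c ++ d) e a' (c' ++ d') e' := by
  induction h with
  | nil a a' => exact h'
  | cons a b e a' b' e' l l' h1 h2 h3 _ ih =>
    exact Rel.app _ _ _ _ _ _ [_] _ [_] _ (Rel.good _ _ _ _ h1 h2 h3) (ih h')

lemma GCh.rel_app {a b e a' b' e' : Let ι} {c d c' d' : List (Pt → Let ι)}
    (h : GCh N b d e b' d' e') (h' : Rel N a c b a' c' b') : Rel N a (c ++ d) e a' (c' ++ d') e' := by
  induction h generalizing c c' with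
  | nil a a' => simpa using h'
  | cons b m e b' m' e' l l' h1 h2 h3 _ ih =>
    have := ih (Rel.app _ _ _ _ _ _ _ _ _ _ h' (Rel.good _ _ _ _ h1 h2 h3))
    simpa using this

lemma GCh.rel {a b a' b' : Let ι} {c c' : List (Pt → Let ι)} (h : GCh N a c b a' c' b')
    (hc : c ≠ []) : Rel N a c b a' c' b' := by
  cases h with
  | nil => exact absurd rfl hc
  | cons _ m _ _ m' _ l l' h1 h2 h3 h4 => exact h4.rel_app (Rel.good _ _ _ _ h1 h2 h3)

lemma Par.nil_inv {a b a' b' : Let ι} {e : List (Pt → Let ι)} (h : Par N a [] b a' e b') :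
    a = b ∧ e = [] ∧ a' = b' := by
  cases h
  exact ⟨rfl, rfl, rfl⟩

lemma ext_par {a b a' b' : Let ι} {d e : List (Pt → Let ι)} (h : Par (nxt N) a d b a' e b') :
    ∀ (hs : List (Pt → Let (Option ι))) (p q p' q' : Let (Option ι)), hs.map (pr ∘ ·) = d →
      AllLin (NC N) hs → Chain p hs q → pr p' = a' → pr q' = b' → ApL N p p' → ApL N q q' →
      (d = [] → p' = q') → ∃ hs', hs'.map (pr ∘ ·) = e ∧ GCh N p hs q p' hs' q' := by
  induction h with
  | nil a a' =>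
    intro hs p q p' q' e _ hc _ _ _ _ h0
    obtain rfl : hs = [] := List.map_eq_nil_iff.mp e
    obtain rfl := chain_nil.mp hc
    obtain rfl := h0 rfl
    exact ⟨[], rfl, GCh.nil _ _⟩
  | cons a b e a' b' e' l l' h1 h2 ih =>
    intro hs p q p' q' e0 hl hc ep eq hp hq _
    obtain ⟨g, hs, rfl, e1, e2⟩ := List.map_eq_cons_iff.mp e0
    obtain ⟨⟨p0, m, rfl, hm⟩, hl'⟩ := allLin_cons.mp hl
    obtain ⟨c1, c2⟩ := chain_cons.mp hc
    simp only [lin_e1, lin_e2] at c1 c2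
    subst c1
    rw [map_lin] at e1
    obtain ⟨-, e3⟩ := lin_inj e1
    obtain ⟨m', g1, g2, g3⟩ : ∃ m', pr m' = b' ∧ ApL N m m' ∧ (l = [] → m' = q') := by
      by_cases h0 : l = []
      · subst h0
        obtain rfl : hs = [] := List.map_eq_nil_iff.mp e2
        obtain rfl := chain_nil.mp c2
        exact ⟨q', eq.trans h2.nil_inv.2.2.symm, hq, fun _ => rfl⟩
      · obtain ⟨m', k1, k2⟩ := ApL.ext (N := N) (p := m) (a' := b') (e3 ▸ h1)
        exact ⟨m', k1, k2, fun h => absurd h h0⟩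
    obtain ⟨hs', k1, k2⟩ := ih hs m q m' q' e2 hl' c2 g1 eq g2 hq g3
    refine ⟨lin p' m' :: hs', ?_, GCh.cons _ _ _ _ _ _ _ _ hp g2 hm k2⟩
    rw [List.map_cons, map_lin, ep, g1, k1]

lemma par_of_pairs (ks : List (Pt → Let (Option ι) × Let ι)) :
    ∀ x y : Let (Option ι) × Let ι, Chain x ks y → AllLin (fun _ _ => True) ks →
      (∀ k ∈ ks, ∀ z, ApL N (pr (k z).1) (k z).2) →
      Par N (pr x.1) ((ks.map (Prod.fst ∘ ·)).map (pr ∘ ·)) (pr y.1) x.2
        (ks.map (Prod.snd ∘ ·)) y.2 := by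
  induction ks with
  | nil =>
    intro x y hc _ _
    obtain rfl := chain_nil.mp hc
    exact Par.nil _ _
  | cons k ks ih =>
    intro x y hc hl hp
    obtain ⟨⟨x0, m, rfl, -⟩, hl'⟩ := allLin_cons.mp hl
    obtain ⟨c1, c2⟩ := chain_cons.mp hc
    simp only [lin_e1, lin_e2] at c1 c2
    subst c1
    have e1 : (Prod.fst ∘ lin x0 m) = lin x0.1 m.1 := map_lin (AddMonoidHom.fst _ _) x0 m
    have e2 : (Prod.snd ∘ lin x0 m) = lin x0.2 m.2 := map_lin (AddMonoidHom.snd _ _) x0 m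
    rw [List.map_cons, List.map_cons, List.map_cons, e1, e2, map_lin]
    refine Par.cons _ _ _ _ _ _ _ _ ?_ (ih m y c2 hl' fun k hk => hp k (List.mem_cons_of_mem _ hk))
    simpa using hp (lin x0 m) (by simp) (0, 1)

lemma ext_mid {N' : ℕ} (hN : N ≤ N') {F : Let ι × Let ι} {s : (ι → ℤ) → ℤ}
    {F1 : Let (Option ι) × Let (Option ι)} {s1 : (Option ι → ℤ) → ℤ}
    (hV : ∀ ρ v', Lab N' F s ρ v' → ∃ w, pr w = v' ∧ Lab N F1 s1 ρ w)
    {ρ ρ' : ℤ × ℤ} {v' v'' : Let ι} {c : List (Pt → Let ι)} (h : DCh N' F s ρ v' c v'' ρ') :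
    ∀ p' q', pr p' = v' → pr q' = v'' → Lab N F1 s1 ρ p' → Lab N F1 s1 ρ' q' →
      (c = [] → p' = q') → ∃ hs', hs'.map (pr ∘ ·) = c ∧ DCh N F1 s1 ρ p' hs' q' ρ' := by
  induction h with
  | nil σ a _ =>
    intro p' q' _ _ h1 _ h0
    obtain rfl := h0 rfl
    exact ⟨[], rfl, DCh.nil _ _ h1⟩
  | cons σ a τ b l e ρ h1 h2 h3 ih =>
    intro p' q' ep eq g1 g2 _
    obtain ⟨m', k1, k2, k3⟩ : ∃ m', pr m' = b ∧ Lab N F1 s1 τ m' ∧ (l = [] → m' = q') := by
      by_cases h0 : l = []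
      · subst h0
        obtain ⟨rfl, rfl⟩ := h3.nil_inv
        exact ⟨q', eq, g2, fun _ => rfl⟩
      · obtain ⟨w, w1, w2⟩ := hV τ b h3.lab_start
        exact ⟨w, w1, w2, fun h => absurd h h0⟩
    obtain ⟨hs', j1, j2⟩ := ih m' q' k1 eq k2 g2 k3
    refine ⟨lin p' m' :: hs', ?_, DCh.cons _ _ τ _ _ _ _ g1 (h2.of_dvd (md_dvd hN)) j2⟩
    rw [List.map_cons, map_lin, ep, k1, j1]

lemma exists_pat {p q : Let ι} (h : NC N p q) : ∃ s : (ι → ℤ) → ℤ, ∀ α β : ℕ, N + 1 ≤ α →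
    N + 1 ≤ β → Pat N s (α • p + β • q) := by
  refine ⟨fun c => Int.sign (dotL c p + dotL c q), fun α β hα hβ c hc => ?_⟩
  have g := h c hc
  have hα' : (N : ℤ) + 1 ≤ α := by exact_mod_cast hα
  have hβ' : (N : ℤ) + 1 ≤ β := by exact_mod_cast hβ
  have hN := Int.natCast_nonneg N
  rw [map_add, map_nsmul, map_nsmul, nsmul_eq_mul, nsmul_eq_mul]
  unfold NoCh at g
  beta_reduce
  generalize dotL c p = A at *
  generalize dotL c q = B at *
  rcases lt_trichotomy (A + B) 0 with h0 | h0 | h0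
  · right; right
    refine ⟨Int.sign_eq_neg_one_of_neg h0, ?_⟩
    have hA : A ≤ 0 := by omega
    have hB : B ≤ 0 := by omega
    nlinarith
  · left
    have hA : A = 0 := by omega
    have hB : B = 0 := by omega
    simp [hA, hB]
  · right; left
    refine ⟨Int.sign_eq_one_of_pos h0, ?_⟩
    have hA : 0 ≤ A := by omega
    have hB : 0 ≤ B := by omega
    nlinarith

lemma ext_defect {F : Let ι × Let ι} {s : (ι → ℤ) → ℤ} {σ τ : ℤ × ℤ} {a b a' b' : Let ι}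
    {c c' : List (Pt → Let ι)} (h1 : DCh (nxt N) F s σ a c b τ) (h2 : DCh (nxt N) F s σ a' c' b' τ)
    (hc : c ≠ []) (hc' : c' ≠ []) (gs : List (Pt → Let (Option ι))) (p q p' q' : Let (Option ι))
    (e : gs.map (pr ∘ ·) = c) (hpl : ∀ g ∈ gs, PL g) (hch : Chain p gs q)
    (ep : pr p' = a') (eq : pr q' = b') (hp : ApL N p p') (hq : ApL N q q') :
    ∃ gs', gs'.map (pr ∘ ·) = c' ∧ Rel N p gs q p' gs' q' := by
  obtain ⟨hs0, r0, l0⟩ := refines_of_plp (P := NC N)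
    (fun g hg => (hpl g hg).nc N (AddMonoidHom.id _))
  obtain ⟨g0, rest, rfl⟩ : ∃ g0 rest, hs0 = g0 :: rest := by
    apply List.exists_cons_of_ne_nil
    intro h0
    apply hc
    rw [← e, r0.eq_nil.mpr h0]
    rfl
  obtain ⟨⟨p0, q0, rfl, hnc⟩, -⟩ := allLin_cons.mp l0
  obtain ⟨hL, l2, α, β, α', β', r1, b1, b2, b3, b4, -, -⟩ := exists_deep p0 q0 (N + 1)
  obtain ⟨s1, hs1⟩ := exists_pat hnc
  have pp := hs1 α β b1 b2
  have pq := hs1 α' β' b3 b4
  generalize α • p0 + β • q0 = p1 at r1 pp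
  generalize α' • p0 + β' • q0 = q1 at r1 pq
  have r1' : Refines (lin p0 q0 :: rest) (hL ++ lin p1 q1 :: (l2 ++ rest)) := by
    simpa using r1.append (Refines.refl rest)
  generalize l2 ++ rest = hR at r1'
  have r2 := r0.trans r1'
  have l1 := r1'.allLin (nc_hered N) l0
  obtain ⟨lL, l3⟩ := allLin_append.mp l1
  obtain ⟨-, lR⟩ := allLin_cons.mp l3
  obtain ⟨m, cL', c3⟩ := chain_append.mp ((r2.chain p q).mp hch)
  obtain ⟨c4, cR'⟩ := chain_cons.mp c3
  simp only [lin_e1, lin_e2] at c4 cR'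
  subst c4
  have r3 := r2.map pr
  rw [e, List.map_append, List.map_cons, map_lin] at r3
  obtain ⟨σ1, a1, dL, d2⟩ := (h1.refine r3).append_inv
  obtain ⟨τ1, b1', e1, hdet, dR⟩ := d2.cons_inv
  obtain ⟨rfl, rfl⟩ := lin_inj e1
  obtain ⟨eL, a1', c1, k1, k2, k3, parL⟩ := copy_left dL h2 hc'
  obtain ⟨eR, b1', c2, k4, k5, k6, parR⟩ := copy_right dR k3 k2
  obtain ⟨p1', u1, u2, u3⟩ : ∃ p1', pr p1' = a1' ∧ ApL N p1 p1' ∧
      (hL.map (pr ∘ ·) = [] → p' = p1') := by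
    by_cases h0 : hL.map (pr ∘ ·) = []
    · rw [h0] at parL
      obtain rfl : hL = [] := List.map_eq_nil_iff.mp h0
      obtain rfl := chain_nil.mp cL'
      exact ⟨p', ep.trans parL.nil_inv.2.2, hp, fun _ => rfl⟩
    · obtain ⟨w, w1, w2⟩ := ApL.ext (d2.lab_start.apL k3.lab_start)
      exact ⟨w, w1, w2, fun h => absurd h h0⟩
  obtain ⟨q1', v1, v2, v3⟩ : ∃ q1', pr q1' = b1' ∧ ApL N q1 q1' ∧
      (hR.map (pr ∘ ·) = [] → q1' = q') := by
    by_cases h0 : hR.map (pr ∘ ·) = []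
    · rw [h0] at parR
      obtain rfl : hR = [] := List.map_eq_nil_iff.mp h0
      obtain rfl := chain_nil.mp cR'
      exact ⟨q', eq.trans parR.nil_inv.2.2.symm, hq, fun _ => rfl⟩
    · obtain ⟨w, w1, w2⟩ := ApL.ext (dR.lab_start.apL k6.lab_end)
      exact ⟨w, w1, w2, fun h => absurd h h0⟩
  obtain ⟨hL', x1, gL⟩ := ext_par parL hL p p1 p' p1' rfl lL cL' ep u1 hp u2 u3
  obtain ⟨hR', y1, gR⟩ := ext_par parR hR q1 q q1' q' rfl lR cR' v1 eq v2 hq v3
  let F1 : Let (Option ι) × Let (Option ι) :=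
    (τ1.2 • p1 + (-σ1.2) • q1, (-τ1.1) • p1 + σ1.1 • q1)
  have hF1 : ∀ ρ, ap F1 ρ = det ρ τ1 • p1 + det σ1 ρ • q1 := by
    intro ρ
    simp only [ap, F1, det, smul_add, smul_smul, sub_smul, neg_smul, smul_neg,
      mul_comm σ1.1, mul_comm σ1.2]
    abel
  have hdet' : det σ1 τ1 ≡ 1 [ZMOD md N] := hdet.of_dvd (md_dvd (le_nxt N))
  have labp : Lab N F1 s1 σ1 p1 := by
    refine ⟨?_, pp⟩
    rw [hF1, show det σ1 σ1 = 0 by unfold det; ring, zero_smul, add_zero]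
    simpa using (Cong.refl N p1).zsmul hdet'.symm
  have labq : Lab N F1 s1 τ1 q1 := by
    refine ⟨?_, pq⟩
    rw [hF1, show det τ1 τ1 = 0 by unfold det; ring, zero_smul, zero_add]
    simpa using (Cong.refl N q1).zsmul hdet'.symm
  have hV : ∀ ρ v', Lab (nxt N) F s ρ v' → ∃ w, pr w = v' ∧ Lab N F1 s1 ρ w := by
    intro ρ v' hv'
    obtain ⟨j, hj⟩ := exists_nat_rep (nxt N) (det ρ τ1)
    obtain ⟨j', hj'⟩ := exists_nat_rep (nxt N) (det σ1 ρ)
    have L1 : Lab (nxt N) F s ρ (pr ((j + 1) • p1 + (j' + 1) • q1)) := by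
      rw [map_add, map_nsmul, map_nsmul]
      refine ⟨?_, (d2.lab_start.2.nsmul j).add (dR.lab_start.2.nsmul j')⟩
      refine Cong.trans ?_ (ap_congr F (lc_basis hdet ρ hj hj'))
      rw [ap_comb, ← natCast_zsmul, ← natCast_zsmul]
      exact (d2.lab_start.1.zsmul (Int.ModEq.refl _)).add (dR.lab_start.1.zsmul (Int.ModEq.refl _))
    have L2 : Lab N F1 s1 ρ ((j + 1) • p1 + (j' + 1) • q1) := by
      refine ⟨?_, (pp.nsmul j).add (pq.nsmul j')⟩
      rw [hF1, ← natCast_zsmul, ← natCast_zsmul]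
      exact ((Cong.refl N p1).zsmul (hj.of_dvd (md_dvd (le_nxt N)))).add
        ((Cong.refl N q1).zsmul (hj'.of_dvd (md_dvd (le_nxt N))))
    obtain ⟨w, w1, w2⟩ := ApL.ext (L1.apL hv')
    exact ⟨w, w1, L2.transfer w2⟩
  obtain ⟨hM', z1, dM⟩ := ext_mid (le_nxt N) hV k6 p1' q1' u1 v1 (labp.transfer u2)
    (labq.transfer v2) (fun h => absurd h k5)
  have relM : Rel N p1 [lin p1 q1] q1 p1' hM' q1' :=
    Rel.defect F1 s1 σ1 τ1 _ _ _ _ _ _
      (DCh.cons _ _ τ1 _ _ _ _ labp hdet' (DCh.nil _ _ labq)) dM (by simp)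
      (by intro h0; apply k5; rw [← z1, h0]; rfl)
  have relA := gL.app_rel (gR.rel_app relM)
  have r4 : Refines c' (eL ++ (c2 ++ eR)) := k1.trans ((Refines.refl eL).append k4)
  obtain ⟨gs', w1, w2⟩ := r4.descend pr (hL' ++ (hM' ++ hR')) p' q'
    (by rw [List.map_append, List.map_append, x1, y1, z1]) relA.symm.basic.1 relA.symm.basic.2.1
  exact ⟨gs', w1, Rel.refine _ _ _ _ _ _ _ _ r2 w2 relA⟩

theorem Rel.ext {a b a' b' : Let ι} {c c' : List (Pt → Let ι)}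
    (h : Rel (nxt N) a c b a' c' b') :
    ∀ (gs : List (Pt → Let (Option ι))) (p q p' q' : Let (Option ι)), gs.map (pr ∘ ·) = c →
      (∀ g ∈ gs, PL g) → Chain p gs q → pr p = a → pr p' = a' → pr q' = b' → ApL N p p' →
      ApL N q q' → ∃ gs', gs'.map (pr ∘ ·) = c' ∧ Rel N p gs q p' gs' q' := by
  induction h with
  | app a b e a' b' e' c d c' d' h1 h2 i1 i2 =>
    intro gs p q p' q' e0 hpl hch e1 ep eq hp hq
    obtain ⟨g1, g2, rfl, f1, f2⟩ := List.map_eq_append_iff.mp e0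
    obtain ⟨m, c1, c2⟩ := chain_append.mp hch
    obtain ⟨pl1, pl2⟩ := List.forall_mem_append.mp hpl
    have em : pr m = b := by
      have := c1.map pr
      rw [f1, e1] at this
      exact this.unique h1.basic.1
    obtain ⟨m', k1, k2⟩ := ApL.ext (N := N) (p := m) (a' := b') (em ▸ h1.basic.2.2.2)
    obtain ⟨g1', j1, j2⟩ := i1 g1 p m p' m' f1 pl1 c1 e1 ep k1 hp k2
    obtain ⟨g2', j3, j4⟩ := i2 g2 m q m' q' f2 pl2 c2 em k1 eq k2 hq
    exact ⟨g1' ++ g2', by rw [List.map_append, j1, j3], Rel.app _ _ _ _ _ _ _ _ _ _ j2 j4⟩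
  | refine a b a' b' c d c' d' h1 h2 _ ih =>
    intro gs p q p' q' e0 hpl hch e1 ep eq hp hq
    obtain ⟨hs, r1, f1⟩ := h1.lift pr gs e0
    obtain ⟨hs', j1, j2⟩ := ih hs p q p' q' f1 (r1.pl.mp hpl) ((r1.chain p q).mp hch) e1 ep eq hp hq
    obtain ⟨gs', w1, w2⟩ := h2.descend pr hs' p' q' j1 j2.symm.basic.1 j2.symm.basic.2.1
    exact ⟨gs', w1, Rel.refine _ _ _ _ _ _ _ _ r1 w2 j2⟩
  | good a b a' b' h1 h2 h3 =>
    intro gs p q p' q' e0 hpl hch e1 ep eq hp hq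
    obtain ⟨g, gs, rfl, f1, f2⟩ := List.map_eq_cons_iff.mp e0
    obtain rfl : gs = [] := List.map_eq_nil_iff.mp f2
    have hg : PL g := hpl g (by simp)
    obtain ⟨c1, c2⟩ := chain_cons.mp hch
    have c3 := chain_nil.mp c2
    obtain ⟨ks, r1, l1⟩ := ((hg.pair (PL.lin a' b')).nc N (AddMonoidHom.fst _ _)).refines
    have hch' : Chain (p, a') ks (q, b') :=
      (r1.chain _ _).mp (chain_cons.mpr ⟨by simp [c1], by simp [c3, chain_nil]⟩)
    have hpt : ∀ k ∈ ks, ∀ z, ApL (nxt N) (pr (k z).1) (k z).2 := by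
      refine (r1.points fun x => ApL (nxt N) (pr x.1) x.2).mp ?_
      intro f hf z
      rw [List.mem_singleton.mp hf]
      have : pr (g z) = lin a b z := congrFun f1 z
      simp only [this]
      exact apL_lin h1 h2 h3 z
    have par := par_of_pairs ks _ _ hch'
      (fun k hk => by obtain ⟨x, y, e, -⟩ := l1 k hk; exact ⟨x, y, e, trivial⟩) hpt
    have r2 : Refines [g] (ks.map (Prod.fst ∘ ·)) := r1.map Prod.fst
    have r3 : Refines [lin a' b'] (ks.map (Prod.snd ∘ ·)) := r1.map Prod.snd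
    have hne : ks.map (Prod.fst ∘ ·) ≠ [] := fun h0 => by simpa using r2.eq_nil.mpr h0
    have l2 : AllLin (NC N) (ks.map (Prod.fst ∘ ·)) := by
      intro k hk
      obtain ⟨k', hk', rfl⟩ := List.mem_map.mp hk
      obtain ⟨x, y, rfl, hxy⟩ := l1 k' hk'
      exact ⟨x.1, y.1, map_lin (AddMonoidHom.fst _ _) x y, hxy⟩
    obtain ⟨hs', j1, j2⟩ := ext_par par _ p q p' q' rfl l2 ((r2.chain p q).mp hch) ep eq hp hq
      (fun h0 => absurd (List.map_eq_nil_iff.mp h0) hne)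
    have relA := j2.rel hne
    obtain ⟨gs', w1, w2⟩ := r3.descend pr hs' p' q' j1 relA.symm.basic.1 relA.symm.basic.2.1
    exact ⟨gs', w1, Rel.refine _ _ _ _ _ _ _ _ r2 w2 relA⟩
  | defect F s σ τ a b a' b' c c' h1 h2 h3 h4 =>
    intro gs p q p' q' e0 hpl hch _ ep eq hp hq
    exact ext_defect h1 h2 h3 h4 gs p q p' q' e0 hpl hch ep eq hp hq

end Pool.Agent.P.MP_6e3a57_lc
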