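import Pool.Agent.P.MP_6e3a57_lc.Univ

set_option autoImplicit false

/-!
The lattice-ordered groups G u: lexicographic central extensions of the group A of piecewise linear
functions by the ordered group BS(1,12).
-/

namespace Pool.Agent.P.MP_6e3a57_lc

/-- q lies in Z[1/12] and f is congruent mod 11 to (the residue of q) times u. -/
def Ok (u : A) (q : ℚ) (f : A) : Prop :=
  ∃ (j : ℕ) (m : ℤ), 12 ^ j * q = m ∧ ∀ z, f.1 z ≡ m * u.1 z [ZMOD 11]

lemma pow12 (j : ℕ) : (12 : ℤ) ^ j ≡ 1 [ZMOD 11] := by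
  have : (12 : ℤ) ≡ 1 [ZMOD 11] := by decide
  simpa using this.pow j

lemma res_unique {q : ℚ} {j j' : ℕ} {m m' : ℤ} (h : 12 ^ j * q = m) (h' : 12 ^ j' * q = m') :
    m ≡ m' [ZMOD 11] := by
  have h1 : ((12 : ℤ) ^ j' * m : ℤ) = 12 ^ j * m' := by
    have : ((12 : ℚ) ^ j' * m) = 12 ^ j * m' := by rw [← h, ← h']; ring
    exact_mod_cast this
  have h2 := (pow12 j').mul_right m
  have h3 := (pow12 j).mul_right m'
  rw [one_mul] at h2 h3
  exact h2.symm.trans (h1 ▸ h3)

lemma Ok.congr {u : A} {q : ℚ} {f : A} (h : Ok u q f) {j : ℕ} {m : ℤ} (hm : 12 ^ j * q = m)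
    (z : Pt) : f.1 z ≡ m * u.1 z [ZMOD 11] := by
  obtain ⟨j', m', h1, h2⟩ := h
  exact (h2 z).trans ((res_unique h1 hm).mul_right _)

lemma Ok.add {u : A} {q q' : ℚ} {f f' : A} (h : Ok u q f) (h' : Ok u q' f') :
    Ok u (q + q') (f + f') := by
  obtain ⟨j, m, h1, h2⟩ := h
  obtain ⟨j', m', h1', h2'⟩ := h'
  refine ⟨j + j', 12 ^ j' * m + 12 ^ j * m', ?_, fun z => ?_⟩
  · push_cast
    rw [← h1, ← h1']; ring
  · have h3 := ((pow12 j').mul_right m).add ((pow12 j).mul_right m')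
    rw [one_mul, one_mul] at h3
    have h4 := (h2 z).add (h2' z)
    rw [← add_mul] at h4
    exact h4.trans (h3.symm.mul_right _)

lemma Ok.neg {u : A} {q : ℚ} {f : A} (h : Ok u q f) : Ok u (-q) (-f) := by
  obtain ⟨j, m, h1, h2⟩ := h
  refine ⟨j, -m, ?_, fun z => ?_⟩
  · push_cast
    rw [← h1]; ring
  · have := (h2 z).neg
    rw [neg_mul]
    exact this

lemma Ok.zero (u : A) : Ok u 0 0 := ⟨0, 0, by simp, fun z => by simp⟩

lemma Ok.mul12 {u : A} {q : ℚ} {f : A} (h : Ok u q f) : Ok u (12 * q) f := by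
  obtain ⟨j, m, h1, h2⟩ := h
  refine ⟨j, 12 * m, ?_, fun z => ?_⟩
  · push_cast
    rw [← h1]; ring
  · have h3 : m ≡ 12 * m [ZMOD 11] := by
      have := (pow12 1).mul_right m
      rw [one_mul, pow_one] at this
      exact this.symm
    exact (h2 z).trans (h3.mul_right _)

lemma Ok.div12 {u : A} {q : ℚ} {f : A} (h : Ok u q f) : Ok u (12⁻¹ * q) f := by
  obtain ⟨j, m, h1, h2⟩ := h
  refine ⟨j + 1, m, ?_, h2⟩
  rw [← h1]; ring

lemma Ok.zpow {u : A} {q : ℚ} {f : A} (h : Ok u q f) (k : ℤ) : Ok u (12 ^ k * q) f := by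
  induction k using Int.induction_on with
  | zero => simpa using h
  | succ n ih =>
    have := ih.mul12
    rwa [← mul_assoc, ← zpow_one_add₀ (by norm_num), add_comm] at this
  | pred n ih =>
    have := ih.div12
    rwa [← mul_assoc, mul_comm (12⁻¹ : ℚ), ← zpow_sub_one₀ (by norm_num)] at this

lemma Ok.sup {u : A} {q : ℚ} {f f' : A} (h : Ok u q f) (h' : Ok u q f') : Ok u q (f ⊔ f') := by
  obtain ⟨j, m, h1, h2⟩ := h
  refine ⟨j, m, h1, fun z => ?_⟩
  show max (f.1 z) (f'.1 z) ≡ _ [ZMOD 11]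
  rcases max_choice (f.1 z) (f'.1 z) with e | e <;> rw [e]
  · exact h2 z
  · exact h'.congr h1 z

lemma Ok.inf {u : A} {q : ℚ} {f f' : A} (h : Ok u q f) (h' : Ok u q f') : Ok u q (f ⊓ f') := by
  obtain ⟨j, m, h1, h2⟩ := h
  refine ⟨j, m, h1, fun z => ?_⟩
  show min (f.1 z) (f'.1 z) ≡ _ [ZMOD 11]
  rcases min_choice (f.1 z) (f'.1 z) with e | e <;> rw [e]
  · exact h2 z
  · exact h'.congr h1 z

/-- The group G u. -/
@[ext] structure G (u : A) : Type where
  k : ℤ
  q : ℚ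
  f : A
  ok : Ok u q f

namespace G

variable {u : A}

instance : Mul (G u) :=
  ⟨fun g h => ⟨g.k + h.k, g.q + 12 ^ g.k * h.q, g.f + h.f, g.ok.add (h.ok.zpow _)⟩⟩

instance : One (G u) := ⟨⟨0, 0, 0, Ok.zero u⟩⟩

instance : Inv (G u) := ⟨fun g => ⟨-g.k, 12 ^ (-g.k) * (-g.q), -g.f, g.ok.neg.zpow _⟩⟩

@[simp] lemma mul_k (g h : G u) : (g * h).k = g.k + h.k := rfl
@[simp] lemma mul_q (g h : G u) : (g * h).q = g.q + 12 ^ g.k * h.q := rfl
@[simp] lemma mul_f (g h : G u) : (g * h).f = g.f + h.f := rfl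
@[simp] lemma one_k : (1 : G u).k = 0 := rfl
@[simp] lemma one_q : (1 : G u).q = 0 := rfl
@[simp] lemma one_f : (1 : G u).f = 0 := rfl
@[simp] lemma inv_k (g : G u) : (g⁻¹).k = -g.k := rfl
@[simp] lemma inv_q (g : G u) : (g⁻¹).q = 12 ^ (-g.k) * (-g.q) := rfl
@[simp] lemma inv_f (g : G u) : (g⁻¹).f = -g.f := rfl

instance : Group (G u) := Group.ofLeftAxioms
  (fun a b c => by
    refine G.ext ?_ ?_ ?_
    · simp [add_assoc]
    · simp only [mul_q, mul_k, zpow_add₀ (show (12 : ℚ) ≠ 0 by norm_num)]; ring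
    · simp [add_assoc])
  (fun a => by refine G.ext ?_ ?_ ?_ <;> simp)
  (fun a => by refine G.ext ?_ ?_ ?_ <;> simp)

/-- The strict order on the BS(1,12) part. -/
def Lt (g h : G u) : Prop := g.k < h.k ∨ (g.k = h.k ∧ g.q < h.q)

/-- Equality of the BS(1,12) part. -/
def Sm (g h : G u) : Prop := g.k = h.k ∧ g.q = h.q

lemma tri (g h : G u) : Lt g h ∨ Sm g h ∨ Lt h g := by
  unfold Lt Sm
  rcases lt_trichotomy g.k h.k with a | a | a
  · exact Or.inl (Or.inl a)
  · rcases lt_trichotomy g.q h.q with b | b | b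
    · exact Or.inl (Or.inr ⟨a, b⟩)
    · exact Or.inr (Or.inl ⟨a, b⟩)
    · exact Or.inr (Or.inr (Or.inr ⟨a.symm, b⟩))
  · exact Or.inr (Or.inr (Or.inl a))

lemma Lt.trans {a b c : G u} (h : Lt a b) (h' : Lt b c) : Lt a c := by
  unfold Lt at *
  rcases h with h | ⟨h, g⟩ <;> rcases h' with h' | ⟨h', g'⟩
  · left; omega
  · left; omega
  · left; omega
  · right; exact ⟨by omega, g.trans g'⟩

lemma Lt.trans_sm {a b c : G u} (h : Lt a b) (h' : Sm b c) : Lt a c := by
  unfold Lt Sm at *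
  rw [← h'.1, ← h'.2]; exact h

lemma Sm.trans_lt {a b c : G u} (h : Sm a b) (h' : Lt b c) : Lt a c := by
  unfold Lt Sm at *
  rw [h.1, h.2]; exact h'

lemma Sm.trans {a b c : G u} (h : Sm a b) (h' : Sm b c) : Sm a c :=
  ⟨h.1.trans h'.1, h.2.trans h'.2⟩

lemma Sm.symm {a b : G u} (h : Sm a b) : Sm b a := ⟨h.1.symm, h.2.symm⟩

lemma Sm.refl (a : G u) : Sm a a := ⟨rfl, rfl⟩

lemma Lt.irrefl (a : G u) : ¬ Lt a a := by
  unfold Lt
  simp

lemma Lt.not_sm {a b : G u} (h : Lt a b) : ¬ Sm a b := fun h' => Lt.irrefl a (h.trans_sm h'.symm)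

lemma Lt.asymm {a b : G u} (h : Lt a b) : ¬ Lt b a := fun h' => Lt.irrefl a (h.trans h')

instance : PartialOrder (G u) where
  le g h := Lt g h ∨ (Sm g h ∧ g.f ≤ h.f)
  le_refl g := Or.inr ⟨Sm.refl g, le_rfl⟩
  le_trans a b c h h' := by
    rcases h with h | ⟨h, g⟩ <;> rcases h' with h' | ⟨h', g'⟩
    · exact Or.inl (h.trans h')
    · exact Or.inl (h.trans_sm h')
    · exact Or.inl (h.trans_lt h')
    · exact Or.inr ⟨h.trans h', g.trans g'⟩
  le_antisymm a b h h' := by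
    rcases h with h | ⟨h, g⟩ <;> rcases h' with h' | ⟨h', g'⟩
    · exact absurd h' h.asymm
    · exact absurd h'.symm h.not_sm
    · exact absurd h.symm h'.not_sm
    · exact G.ext h.1 h.2 (le_antisymm g g')

lemma le_def (g h : G u) : g ≤ h ↔ Lt g h ∨ (Sm g h ∧ g.f ≤ h.f) := Iff.rfl

open Classical in
/-- The join. -/
noncomputable def sup' (g h : G u) : G u :=
  if e : Sm g h then ⟨g.k, g.q, g.f ⊔ h.f, g.ok.sup (e.2 ▸ h.ok)⟩ else if Lt g h then h else g

open Classical in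
/-- The meet. -/
noncomputable def inf' (g h : G u) : G u :=
  if e : Sm g h then ⟨g.k, g.q, g.f ⊓ h.f, g.ok.inf (e.2 ▸ h.ok)⟩ else if Lt g h then g else h

noncomputable instance : Lattice (G u) where
  sup := sup'
  inf := inf'
  le_sup_left a b := by
    unfold sup'
    split_ifs with h1 h2
    · exact Or.inr ⟨Sm.refl a, le_sup_left⟩
    · exact Or.inl h2
    · exact le_rfl
  le_sup_right a b := by
    unfold sup'
    split_ifs with h1 h2
    · exact Or.inr ⟨h1.symm, le_sup_right⟩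
    · exact le_rfl
    · rcases tri a b with h | h | h
      · exact absurd h h2
      · exact absurd h h1
      · exact Or.inl h
  sup_le a b c h h' := by
    unfold sup'
    split_ifs with h1 h2
    · rcases h with h | ⟨h, g⟩
      · exact Or.inl h
      · rcases h' with h' | ⟨h', g'⟩
        · exact absurd (h1.symm.trans h) h'.not_sm
        · exact Or.inr ⟨h, sup_le g g'⟩
    · exact h'
    · exact h
  inf_le_left a b := by
    unfold inf'
    split_ifs with h1 h2
    · exact Or.inr ⟨Sm.refl a, inf_le_left⟩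
    · exact le_rfl
    · rcases tri a b with h | h | h
      · exact absurd h h2
      · exact absurd h h1
      · exact Or.inl h
  inf_le_right a b := by
    unfold inf'
    split_ifs with h1 h2
    · exact Or.inr ⟨h1, inf_le_right⟩
    · exact Or.inl h2
    · exact le_rfl
  le_inf a b c h h' := by
    unfold inf'
    split_ifs with h1 h2
    · rcases h with h | ⟨h, g⟩
      · exact Or.inl h
      · rcases h' with h' | ⟨h', g'⟩
        · exact absurd (h.trans h1) h'.not_sm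
        · exact Or.inr ⟨h, le_inf g g'⟩
    · exact h
    · exact h'

lemma sup_of_sm {g h : G u} (e : Sm g h) :
    g ⊔ h = ⟨g.k, g.q, g.f ⊔ h.f, g.ok.sup (e.2 ▸ h.ok)⟩ := by
  show sup' g h = _
  unfold sup'
  rw [dif_pos e]

instance : MulLeftMono (G u) :=
  ⟨fun c g h hle => by
    have hp : (0 : ℚ) < 12 ^ c.k := zpow_pos (by norm_num) _
    rcases hle with h1 | ⟨h1, h2⟩
    · left
      rcases h1 with h1 | ⟨h1, h2⟩
      · left; simp only [mul_k]; omega
      · right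
        simp only [mul_k, mul_q]
        exact ⟨by omega, by nlinarith⟩
    · right
      refine ⟨⟨?_, ?_⟩, ?_⟩
      · simp only [mul_k, h1.1]
      · simp only [mul_q, h1.2]
      · simp only [mul_f]; exact add_le_add_right h2 _⟩

instance : MulRightMono (G u) :=
  ⟨fun c g h hle => by
    rcases hle with h1 | ⟨h1, h2⟩
    · left
      rcases h1 with h1 | ⟨h1, h2⟩
      · left; simp only [Function.swap, mul_k]; omega
      · right
        simp only [Function.swap, mul_k, mul_q, h1]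
        exact ⟨trivial, by linarith⟩
    · right
      refine ⟨⟨?_, ?_⟩, ?_⟩
      · simp only [Function.swap, mul_k, h1.1]
      · simp only [Function.swap, mul_q, h1.1, h1.2]
      · simp only [Function.swap, mul_f]; exact add_le_add_left h2 _⟩

end G

lemma ok_iota (u f : A) : Ok u 0 ((11 : ℤ) • f) :=
  ⟨0, 0, by simp, fun z => by
    simp only [AddSubgroupClass.coe_zsmul, Pi.smul_apply, smul_eq_mul, zero_mul]
    exact (Int.modEq_zero_iff_dvd).mpr (dvd_mul_right _ _)⟩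

/-- The central copy of A. -/
def iota (u f : A) : G u := ⟨0, 0, (11 : ℤ) • f, ok_iota u f⟩

/-- The generator t. -/
def tG (u : A) : G u := ⟨1, 0, 0, Ok.zero u⟩

/-- The generator a. -/
def aG (u : A) : G u := ⟨0, 1, u, ⟨0, 1, by simp, fun z => by simp⟩⟩

@[simp] lemma iota_k (u f : A) : (iota u f).k = 0 := rfl
@[simp] lemma iota_q (u f : A) : (iota u f).q = 0 := rfl
@[simp] lemma iota_f (u f : A) : (iota u f).f = (11 : ℤ) • f := rfl
@[simp] lemma tG_k (u : A) : (tG u).k = 1 := rfl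
@[simp] lemma tG_q (u : A) : (tG u).q = 0 := rfl
@[simp] lemma tG_f (u : A) : (tG u).f = 0 := rfl
@[simp] lemma aG_k (u : A) : (aG u).k = 0 := rfl
@[simp] lemma aG_q (u : A) : (aG u).q = 1 := rfl
@[simp] lemma aG_f (u : A) : (aG u).f = u := rfl

lemma iota_add (u f g : A) : iota u (f + g) = iota u f * iota u g := by
  refine G.ext ?_ ?_ ?_ <;> simp

lemma iota_comm (u f : A) (g : G u) : iota u f * g = g * iota u f := by
  refine G.ext ?_ ?_ ?_ <;> simp [add_comm]

lemma smul11_le {f g : A} : (11 : ℤ) • f ≤ (11 : ℤ) • g ↔ f ≤ g := by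
  simp only [A.le_def, AddSubgroupClass.coe_zsmul, Pi.smul_apply, smul_eq_mul]
  exact forall_congr' fun z => by omega

lemma iota_le (u f g : A) : iota u f ≤ iota u g ↔ f ≤ g := by
  rw [G.le_def]
  constructor
  · rintro (h | ⟨_, h⟩)
    · exact absurd (⟨rfl, rfl⟩ : G.Sm (iota u f) (iota u g)) h.not_sm
    · exact smul11_le.mp h
  · intro h
    exact Or.inr ⟨⟨rfl, rfl⟩, smul11_le.mpr h⟩

lemma iota_inj (u : A) {f g : A} (h : iota u f = iota u g) : f = g :=
  le_antisymm ((iota_le u f g).mp h.le) ((iota_le u g f).mp h.ge)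

lemma smul11_sup (f g : A) : (11 : ℤ) • (f ⊔ g) = (11 : ℤ) • f ⊔ (11 : ℤ) • g := by
  apply Subtype.ext
  funext z
  simp only [AddSubgroupClass.coe_zsmul, A.coe_sup, Pi.smul_apply, Pi.sup_apply, smul_eq_mul]
  omega

lemma iota_sup (u f g : A) : iota u (f ⊔ g) = iota u f ⊔ iota u g := by
  rw [G.sup_of_sm (⟨rfl, rfl⟩ : G.Sm (iota u f) (iota u g))]
  exact G.ext rfl rfl (smul11_sup f g)

lemma exists_div11 (f : A) (h : ∀ z, (11 : ℤ) ∣ f.1 z) : ∃ g : A, f = (11 : ℤ) • g := by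
  refine ⟨⟨fun z => f.1 z / 11, PL.div f.2 11 h⟩, ?_⟩
  apply Subtype.ext
  funext z
  simp only [AddSubgroupClass.coe_zsmul, Pi.smul_apply, smul_eq_mul]
  exact (Int.mul_ediv_cancel' (h z)).symm

lemma exists_iota {u : A} (g : G u) (hk : g.k = 0) (hq : g.q = 0) : ∃ f, g = iota u f := by
  obtain ⟨f, hf⟩ := exists_div11 g.f fun z => by
    have := g.ok.congr (j := 0) (m := 0) (by simp [hq]) z
    rw [zero_mul] at this
    exact (Int.modEq_zero_iff_dvd).mp this
  exact ⟨f, G.ext hk hq hf⟩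

lemma aG_zpow (u : A) (m : ℤ) :
    (aG u ^ m).k = 0 ∧ (aG u ^ m).q = m ∧ (aG u ^ m).f = m • u := by
  induction m using Int.induction_on with
  | zero => simp
  | succ n ih =>
    rw [zpow_add_one]
    simp only [G.mul_k, G.mul_q, G.mul_f, ih.1, ih.2.1, ih.2.2]
    simp [add_smul]
  | pred n ih =>
    rw [zpow_sub_one]
    simp only [G.mul_k, G.mul_q, G.mul_f, ih.1, ih.2.1, ih.2.2, G.inv_k, G.inv_q, G.inv_f]
    simp [sub_eq_add_neg, add_smul]

lemma tG_zpow (u : A) (m : ℤ) :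
    (tG u ^ m).k = m ∧ (tG u ^ m).q = 0 ∧ (tG u ^ m).f = 0 := by
  induction m using Int.induction_on with
  | zero => simp
  | succ n ih =>
    rw [zpow_add_one]
    simp only [G.mul_k, G.mul_q, G.mul_f, ih.1, ih.2.1, ih.2.2]
    simp
  | pred n ih =>
    rw [zpow_sub_one]
    simp only [G.mul_k, G.mul_q, G.mul_f, ih.1, ih.2.1, ih.2.2, G.inv_k, G.inv_q, G.inv_f]
    simp [sub_eq_add_neg]

/-- The defining relation. -/
lemma rel_ta (u : A) : tG u * aG u * (tG u)⁻¹ * iota u u = aG u ^ 12 := by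
  have h := aG_zpow u 12
  have e : aG u ^ (12 : ℤ) = aG u ^ 12 := by norm_cast
  rw [e] at h
  refine G.ext ?_ ?_ ?_
  · simp [h.1]
  · simp [h.2.1]
  · rw [h.2.2]
    simp only [G.mul_f, tG_f, aG_f, G.inv_f, iota_f]
    abel

/-- Normal form of the elements of G u. -/
lemma normal_form {u : A} (g : G u) {j : ℕ} {m : ℤ} (hm : 12 ^ j * g.q = m) :
    ∃ h : A, g.f = m • u + (11 : ℤ) • h ∧
      g = tG u ^ (-(j : ℤ)) * aG u ^ m * tG u ^ (j : ℤ) * iota u h * tG u ^ g.k := by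
  obtain ⟨h, hh⟩ := exists_div11 (g.f - m • u) fun z => by
    have := (g.ok.congr hm z).symm.dvd
    simpa using this
  have e : g.f = m • u + (11 : ℤ) • h := by rw [← hh]; abel
  refine ⟨h, e, G.ext ?_ ?_ ?_⟩
  · simp only [G.mul_k, (tG_zpow u _).1, (aG_zpow u _).1, iota_k]
    omega
  · simp only [G.mul_q, G.mul_k, (tG_zpow u _).1, (tG_zpow u _).2.1, (aG_zpow u _).2.1, iota_q]
    rw [← hm, zpow_neg, zpow_natCast]
    field_simp
    ring
  · simp only [G.mul_f, (tG_zpow u _).2.2, (aG_zpow u _).2.2, iota_f, e]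
    abel

end Pool.Agent.P.MP_6e3a57_lc
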