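import Pool.Agent.P.MP_6e3a57_lc.PL

set_option autoImplicit false

/-!
An invariant of piecewise linear functions mod 11 (a modular symbol of level 11 summed over the
cells), and its invariance under piecewise linear bijections of the quadrant.
-/

namespace Pool.Agent.P.MP_6e3a57_lc

/-- Values of the symbol on the points (1 : c) of the projective line. -/
def tbl : ZMod 11 → ℤ := (![0, 0, 2, 1, -1, -2, -2, -1, 1, 2, 0] : Fin 11 → ℤ)

/-- The symbol. -/
def ww (a b : ZMod 11) : ℤ := tbl (b * a ^ 9)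

lemma ww_farey : ∀ a b : ZMod 11, ww a b = ww a (a + b) + ww (a + b) b := by decide +kernel

lemma ww_anti : ∀ a b : ZMod 11, ww b a = -ww a b := by decide +kernel

lemma ww_smul : ∀ c a b : ZMod 11, c ≠ 0 → ww (c * a) (c * b) = ww a b := by decide +kernel

/-- The sum of the symbol over the cells. -/
inductive HasW : (Pt → ZMod 11) → ℤ → Prop
  | lin (a b : ZMod 11) : HasW (lin a b) (ww a b)
  | split (f : Pt → ZMod 11) (k l : ℤ) : HasW (f ∘ cL) k → HasW (f ∘ cR) l → HasW f (k + l)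

lemma HasW.lin_unique {f : Pt → ZMod 11} {k : ℤ} (h : HasW f k) :
    ∀ a b, f = MP_6e3a57_lc.lin a b → k = ww a b := by
  induction h with
  | lin c d =>
    intro a b h
    obtain ⟨rfl, rfl⟩ := lin_inj h
    rfl
  | split f k l _ _ i1 i2 =>
    intro a b h
    subst h
    rw [i1 a (a + b) (lin_cL a b), i2 (a + b) b (lin_cR a b), ← ww_farey]

lemma HasW.split_inv {f : Pt → ZMod 11} {k : ℤ} (h : HasW f k) :
    ∃ k1 k2, HasW (f ∘ cL) k1 ∧ HasW (f ∘ cR) k2 ∧ k = k1 + k2 := by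
  cases h with
  | lin a b =>
    exact ⟨_, _, by rw [lin_cL]; exact HasW.lin _ _, by rw [lin_cR]; exact HasW.lin _ _,
      ww_farey a b⟩
  | split _ k l h1 h2 => exact ⟨k, l, h1, h2, rfl⟩

lemma HasW.unique {f : Pt → ZMod 11} {k l : ℤ} (h : HasW f k) (h' : HasW f l) : k = l := by
  induction h generalizing l with
  | lin a b => exact (h'.lin_unique a b rfl).symm
  | split f k1 k2 _ _ i1 i2 =>
    obtain ⟨l1, l2, g1, g2, rfl⟩ := h'.split_inv
    rw [i1 g1, i2 g2]

lemma HasW.smul {f : Pt → ZMod 11} {k : ℤ} (h : HasW f k) {c : ZMod 11} (hc : c ≠ 0) :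
    HasW (fun z => c * f z) k := by
  induction h with
  | lin a b =>
    have : (fun z => c * MP_6e3a57_lc.lin a b z) = MP_6e3a57_lc.lin (c * a) (c * b) := by
      funext z
      simp only [MP_6e3a57_lc.lin, nsmul_eq_mul]
      ring
    rw [this, ← ww_smul c a b hc]
    exact HasW.lin _ _
  | split f k l _ _ i1 i2 => exact HasW.split _ _ _ i1 i2

lemma HasW.swap {f : Pt → ZMod 11} {k : ℤ} (h : HasW f k) : HasW (f ∘ Prod.swap) (-k) := by
  induction h with
  | lin a b =>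
    have : MP_6e3a57_lc.lin a b ∘ Prod.swap = MP_6e3a57_lc.lin b a := by
      funext z
      simp [MP_6e3a57_lc.lin, add_comm]
    rw [this, ← ww_anti]
    exact HasW.lin _ _
  | split f k l _ _ i1 i2 =>
    rw [neg_add, add_comm]
    refine HasW.split _ _ _ ?_ ?_
    · convert i2 using 1
      funext z
      simp [cL, cR, add_comm]
    · convert i1 using 1
      funext z
      simp [cL, cR, add_comm]

open Classical in
/-- The invariant as a function. -/
noncomputable def W (f : Pt → ZMod 11) : ℤ := if h : ∃ k, HasW f k then h.choose else 0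

lemma HasW.eq_W {f : Pt → ZMod 11} {k : ℤ} (h : HasW f k) : W f = k := by
  have h' : ∃ k, HasW f k := ⟨k, h⟩
  unfold W
  rw [dif_pos h']
  exact h'.choose_spec.unique h

lemma HasW.W_split {f : Pt → ZMod 11} {k : ℤ} (h : HasW f k) : W f = W (f ∘ cL) + W (f ∘ cR) := by
  obtain ⟨k1, k2, h1, h2, rfl⟩ := h.split_inv
  rw [h.eq_W, h1.eq_W, h2.eq_W]

/-- The potential. -/
noncomputable def Pot (f : Pt → ZMod 11) (s : Pt) : ℤ :=
  if s.2 = 0 then 0 else if s.1 = 0 then W f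
  else if s.2 ≤ s.1 then Pot (f ∘ cL) (s.1 - s.2, s.2)
  else W (f ∘ cL) + Pot (f ∘ cR) (s.1, s.2 - s.1)
termination_by s.1 + s.2
decreasing_by all_goals omega

lemma Pot_e1 (f : Pt → ZMod 11) {s : Pt} (h : s.2 = 0) : Pot f s = 0 := by
  rw [Pot, if_pos h]

lemma Pot_e2 (f : Pt → ZMod 11) {s : Pt} (h : s.2 ≠ 0) (h' : s.1 = 0) : Pot f s = W f := by
  rw [Pot, if_neg h, if_pos h']

lemma Pot_cL (f : Pt → ZMod 11) (w : Pt) : Pot f (cL w) = Pot (f ∘ cL) w := by
  by_cases h : w.2 = 0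
  · rw [Pot_e1 _ h, Pot_e1 _ (show (cL w).2 = 0 from h)]
  · rw [Pot, if_neg (show ¬ (cL w).2 = 0 from h), if_neg (by simp [cL]; omega),
      if_pos (by simp [cL])]
    simp [cL]

lemma Pot_cR {f : Pt → ZMod 11} {k : ℤ} (hf : HasW f k) (w : Pt) (hw : w.1 + w.2 ≠ 0) :
    Pot f (cR w) = W (f ∘ cL) + Pot (f ∘ cR) w := by
  by_cases h : w.1 = 0
  · rw [Pot_e2 f (show (cR w).2 ≠ 0 from hw) (show (cR w).1 = 0 from h), hf.W_split,
      Pot_e2 _ (by omega) h]
  · by_cases h' : w.2 = 0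
    · rw [Pot, if_neg (show ¬ (cR w).2 = 0 from hw), if_neg (show ¬ (cR w).1 = 0 from h),
        if_pos (by simp [cR, h']), Pot_e1 _ h',
        Pot_e2 _ (s := ((cR w).1 - (cR w).2, (cR w).2)) hw (by simp [cR, h']), add_zero]
    · rw [Pot, if_neg (show ¬ (cR w).2 = 0 from hw), if_neg (show ¬ (cR w).1 = 0 from h),
        if_neg (by simp [cR]; omega)]
      simp [cR]

/-- The linear map with columns p and q. -/
def cm (p q : Pt) (z : Pt) : Pt := (z.1 * p.1 + z.2 * q.1, z.1 * p.2 + z.2 * q.2)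

lemma hasW_cell (p q : Pt) (hd : p.1 * q.2 = p.2 * q.1 + 1) {f : Pt → ZMod 11} {k : ℤ}
    (hf : HasW f k) : HasW (f ∘ cm p q) (Pot f q - Pot f p) := by
  obtain ⟨n, hn⟩ : ∃ n, p.1 + p.2 + q.1 + q.2 = n := ⟨_, rfl⟩
  induction n using Nat.strong_induction_on generalizing p q f k with
  | _ n ih =>
    obtain ⟨k1, k2, h1, h2, -⟩ := hf.split_inv
    have hp1 : p.1 ≠ 0 := by intro h; rw [h] at hd; omega
    have hq2 : q.2 ≠ 0 := by intro h; rw [h] at hd; omega
    by_cases hl : p.2 ≤ p.1 ∧ q.2 ≤ q.1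
    · obtain ⟨a, ha⟩ := Nat.exists_eq_add_of_le hl.1
      obtain ⟨b, hb⟩ := Nat.exists_eq_add_of_le hl.2
      have e1 : p = cL (a, p.2) := Prod.ext (by simp [cL]; omega) rfl
      have e2 : q = cL (b, q.2) := Prod.ext (by simp [cL]; omega) rfl
      have := ih _ (by simp only; omega) (a, p.2) (b, q.2) (by simp only; nlinarith) h1 rfl
      rw [← Pot_cL, ← Pot_cL, ← e1, ← e2] at this
      convert this using 1
      funext z
      simp only [Function.comp, cm, cL, ha, hb]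
      congr 2
      ring
    · by_cases hr : p.1 ≤ p.2 ∧ q.1 ≤ q.2
      · obtain ⟨a, ha⟩ := Nat.exists_eq_add_of_le hr.1
        obtain ⟨b, hb⟩ := Nat.exists_eq_add_of_le hr.2
        have e1 : p = cR (p.1, a) := Prod.ext rfl (by simp [cR]; omega)
        have e2 : q = cR (q.1, b) := Prod.ext rfl (by simp [cR]; omega)
        have := ih _ (by simp only; omega) (p.1, a) (q.1, b) (by simp only; nlinarith) h2 rfl
        have g1 := Pot_cR hf (p.1, a) (by simp only; omega)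
        have g2 := Pot_cR hf (q.1, b) (by simp only; omega)
        rw [← e1] at g1
        rw [← e2] at g2
        rw [g1, g2]
        convert this using 1
        · funext z
          simp only [Function.comp, cm, cR, ha, hb]
          congr 2
          ring
        · ring
      · have hA : p.2 < p.1 ∧ q.1 < q.2 := by
          by_contra hcon
          have : p.1 < p.2 ∧ q.2 < q.1 := by omega
          nlinarith [this.1, this.2]
        have h3 : p.2 = 0 ∧ q.1 = 0 := by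
          constructor <;> nlinarith [hA.1, hA.2]
        have h4 : p.1 * q.2 = 1 := by rw [hd, h3.1]; simp
        have h5 : p.1 = 1 := Nat.eq_one_of_mul_eq_one_right h4
        have h6 : q.2 = 1 := Nat.eq_one_of_mul_eq_one_left h4
        have e : cm p q = id := by
          funext z
          simp [cm, h3.1, h3.2, h5, h6]
        rw [e, Pot_e1 _ h3.1, Pot_e2 _ hq2 h3.2, hf.eq_W, sub_zero]
        exact hf

/-- The embedding of the quadrant in the plane. -/
def cst (z : Pt) : ℤ × ℤ := (z.1, z.2)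

lemma cst_inj {z w : Pt} (h : cst z = cst w) : z = w := by
  simp only [cst, Prod.mk.injEq, Nat.cast_inj] at h
  exact Prod.ext h.1 h.2

lemma PL.pieces {Λ : Type} [AddCommGroup Λ] {g : Pt → Λ} (hg : PL g) :
    ∃ S : Set (Λ × Λ), S.Finite ∧ ∀ z : Pt, ∃ L ∈ S, g z = (z.1 : ℤ) • L.1 + (z.2 : ℤ) • L.2 := by
  refine PL.ind (M := fun g => ∃ S : Set (Λ × Λ), S.Finite ∧ ∀ z : Pt, ∃ L ∈ S,
    g z = (z.1 : ℤ) • L.1 + (z.2 : ℤ) • L.2) ?_ ?_ hg
  · intro a b
    exact ⟨{(a, b)}, Set.finite_singleton _, fun z => ⟨(a, b), rfl, by simp [MP_6e3a57_lc.lin]⟩⟩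
  · rintro g _ _ ⟨S1, f1, h1⟩ ⟨S2, f2, h2⟩
    refine ⟨(fun L => (L.1, L.2 - L.1)) '' S1 ∪ (fun L => (L.1 - L.2, L.2)) '' S2,
      (f1.image _).union (f2.image _), fun z => ?_⟩
    rcases cover z with ⟨w, rfl⟩ | ⟨w, rfl⟩
    · obtain ⟨L, hL, e⟩ := h1 w
      refine ⟨_, Or.inl ⟨L, hL, rfl⟩, e.trans ?_⟩
      simp only [cL, Nat.cast_add, add_smul, smul_sub]
      abel
    · obtain ⟨L, hL, e⟩ := h2 w
      refine ⟨_, Or.inr ⟨L, hL, rfl⟩, e.trans ?_⟩
      simp only [cR, Nat.cast_add, add_smul, smul_sub]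
      abel

lemma unimod {ψ : Pt → Pt} (hψ : PL (cst ∘ ψ)) (P Q p q : Pt) (hd : p.1 * q.2 = p.2 * q.1 + 1)
    (h : ∀ z, ψ (cm P Q z) = cm p q z) :
    P.1 * Q.2 = P.2 * Q.1 + 1 ∨ Q.1 * P.2 = Q.2 * P.1 + 1 := by
  obtain ⟨S, hS, hz⟩ := hψ.pieces
  choose L hL hL' using fun n : ℕ => hz (cm P Q (1, n))
  obtain ⟨n, -, m, -, hnm, e⟩ := Set.infinite_univ.exists_ne_map_eq_of_mapsTo (f := L)
    (fun n _ => hL n) hS
  have h1 := hL' n
  have h2 := hL' m
  rw [← e] at h2
  simp only [Function.comp, h] at h1 h2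
  generalize L n = M at h1 h2
  simp only [cst, cm, Prod.ext_iff, Prod.fst_add, Prod.snd_add, Prod.smul_fst, Prod.smul_snd,
    smul_eq_mul] at h1 h2
  push_cast at h1 h2
  have hne : (n : ℤ) - m ≠ 0 := sub_ne_zero.mpr (by exact_mod_cast hnm)
  have q1 : (q.1 : ℤ) = Q.1 * M.1.1 + Q.2 * M.2.1 :=
    mul_left_cancel₀ hne (by linear_combination h1.1 - h2.1)
  have q2 : (q.2 : ℤ) = Q.1 * M.1.2 + Q.2 * M.2.2 :=
    mul_left_cancel₀ hne (by linear_combination h1.2 - h2.2)
  have p1 : (p.1 : ℤ) = P.1 * M.1.1 + P.2 * M.2.1 := by linear_combination h1.1 - n * q1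
  have p2 : (p.2 : ℤ) = P.1 * M.1.2 + P.2 * M.2.2 := by linear_combination h1.2 - n * q2
  have hd' : (p.1 : ℤ) * q.2 = p.2 * q.1 + 1 := by exact_mod_cast hd
  have key : ((P.1 : ℤ) * Q.2 - P.2 * Q.1) * (M.1.1 * M.2.2 - M.1.2 * M.2.1) = 1 := by
    rw [p1, p2, q1, q2] at hd'
    linear_combination hd'
  rcases Int.eq_one_or_neg_one_of_mul_eq_one key with e | e
  · left
    have : (P.1 : ℤ) * Q.2 = P.2 * Q.1 + 1 := by linear_combination e
    exact_mod_cast this
  · right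
    have : (Q.1 : ℤ) * P.2 = Q.2 * P.1 + 1 := by linear_combination -e
    exact_mod_cast this

lemma hasW_comp {ψ : Pt → Pt} (hψ : PL (cst ∘ ψ)) {f : Pt → ZMod 11} {k : ℤ} (hf : HasW f k)
    {g : Pt → ℤ × ℤ} (hg : PL g) : ∀ (φ : Pt → Pt) (p q : Pt), g = cst ∘ φ →
      p.1 * q.2 = p.2 * q.1 + 1 → (∀ z, ψ (φ z) = cm p q z) →
      HasW (f ∘ φ) (Pot f (φ (0, 1)) - Pot f (φ (1, 0))) := by
  refine PL.ind (M := fun g => ∀ (φ : Pt → Pt) (p q : Pt), g = cst ∘ φ →
      p.1 * q.2 = p.2 * q.1 + 1 → (∀ z, ψ (φ z) = cm p q z) →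
      HasW (f ∘ φ) (Pot f (φ (0, 1)) - Pot f (φ (1, 0)))) ?_ ?_ hg
  · intro a b φ p q e hd h
    have ea : a = cst (φ (1, 0)) := by simpa using congrFun e (1, 0)
    have eb : b = cst (φ (0, 1)) := by simpa using congrFun e (0, 1)
    generalize φ (1, 0) = P at ea ⊢
    generalize φ (0, 1) = Q at eb ⊢
    have e' : φ = cm P Q := by
      funext z
      apply cst_inj
      have := congrFun e z
      rw [Function.comp_apply] at this
      rw [← this, ea, eb]
      simp [lin, cst, cm]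
    subst e'
    rcases unimod hψ P Q p q hd h with h1 | h1
    · exact hasW_cell P Q h1 hf
    · have := (hasW_cell Q P h1 hf).swap
      convert this using 1
      · funext z
        simp [cm, add_comm]
      · ring
  · intro g _ _ i1 i2 φ p q e hd h
    have h1 := i1 (φ ∘ cL) p (p + q) (by rw [e]; rfl)
      (by simp only [Prod.fst_add, Prod.snd_add]; linarith)
      (fun z => by
        rw [Function.comp, h]
        simp only [cm, cL, Prod.fst_add, Prod.snd_add]
        congr 1 <;> ring)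
    have h2 := i2 (φ ∘ cR) (p + q) q (by rw [e]; rfl)
      (by simp only [Prod.fst_add, Prod.snd_add]; linarith)
      (fun z => by
        rw [Function.comp, h]
        simp only [cm, cR, Prod.fst_add, Prod.snd_add]
        congr 1 <;> ring)
    convert HasW.split (f ∘ φ) _ _ h1 h2 using 1
    simp

lemma PL.eventually {Λ : Type} [AddCommGroup Λ] {g : Pt → Λ} (hg : PL g) (s : Pt) (v : ℤ × ℤ) :
    ∃ (n0 : ℕ) (c : Λ), ∀ n : ℕ, n0 ≤ n → ∀ z : Pt, (z.1 : ℤ) = n * s.1 + v.1 →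
      (z.2 : ℤ) = n * s.2 + v.2 → g z = n • g s + c := by
  refine PL.ind (M := fun g => ∀ (s : Pt) (v : ℤ × ℤ), ∃ (n0 : ℕ) (c : Λ), ∀ n : ℕ, n0 ≤ n →
    ∀ z : Pt, (z.1 : ℤ) = n * s.1 + v.1 → (z.2 : ℤ) = n * s.2 + v.2 → g z = n • g s + c)
    ?_ ?_ hg s v
  · intro a b s v
    refine ⟨0, v.1 • a + v.2 • b, fun n _ z h1 h2 => ?_⟩
    simp only [MP_6e3a57_lc.lin]
    rw [← natCast_zsmul a z.1, ← natCast_zsmul b z.2, h1, h2]
    simp only [add_smul, mul_smul, natCast_zsmul, smul_add]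
    abel
  · intro g _ _ i1 i2 s v
    by_cases hc : s.2 < s.1 ∨ (s.1 = s.2 ∧ v.2 ≤ v.1)
    · obtain ⟨a, ha⟩ := Nat.exists_eq_add_of_le (show s.2 ≤ s.1 by omega)
      obtain ⟨n0, c, h⟩ := i1 (a, s.2) (v.1 - v.2, v.2)
      refine ⟨n0 + (v.2 - v.1).toNat, c, fun n hn z h1 h2 => ?_⟩
      have ha' : (s.1 : ℤ) = s.2 + a := by exact_mod_cast ha
      have hz : z.2 ≤ z.1 := by
        have : (z.2 : ℤ) ≤ z.1 := by
          rw [h1, h2, ha']
          rcases hc with hc | hc
          · have a1 : (1 : ℤ) ≤ a := by omega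
            have a2 : v.2 - v.1 ≤ n := by omega
            nlinarith [Int.natCast_nonneg n]
          · have a1 : (a : ℤ) = 0 := by omega
            rw [a1, add_zero]; omega
        exact_mod_cast this
      obtain ⟨b, hb⟩ := Nat.exists_eq_add_of_le hz
      have hb' : (z.1 : ℤ) = z.2 + b := by exact_mod_cast hb
      have := h n (by omega) (b, z.2) (by simp only; rw [ha'] at h1; linarith) h2
      have e1 : cL (b, z.2) = z := Prod.ext (by simp [cL]; omega) rfl
      have e2 : cL (a, s.2) = s := Prod.ext (by simp [cL]; omega) rfl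
      rwa [Function.comp, Function.comp, e1, e2] at this
    · obtain ⟨a, ha⟩ := Nat.exists_eq_add_of_le (show s.1 ≤ s.2 by omega)
      obtain ⟨n0, c, h⟩ := i2 (s.1, a) (v.1, v.2 - v.1)
      refine ⟨n0 + (v.1 - v.2).toNat, c, fun n hn z h1 h2 => ?_⟩
      have ha' : (s.2 : ℤ) = s.1 + a := by exact_mod_cast ha
      have hz : z.1 ≤ z.2 := by
        have : (z.1 : ℤ) ≤ z.2 := by
          rw [h1, h2, ha']
          by_cases h0 : a = 0
          · have a1 : (a : ℤ) = 0 := by omega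
            rw [a1, add_zero]; omega
          · have a1 : (1 : ℤ) ≤ a := by omega
            have a2 : v.1 - v.2 ≤ n := by omega
            nlinarith [Int.natCast_nonneg n]
        exact_mod_cast this
      obtain ⟨b, hb⟩ := Nat.exists_eq_add_of_le hz
      have hb' : (z.2 : ℤ) = z.1 + b := by exact_mod_cast hb
      have := h n (by omega) (z.1, b) h1 (by simp only; rw [ha'] at h2; linarith)
      have e1 : cR (z.1, b) = z := Prod.ext rfl (by simp [cR]; omega)
      have e2 : cR (s.1, a) = s := Prod.ext rfl (by simp [cR]; omega)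
      rwa [Function.comp, Function.comp, e1, e2] at this

lemma boundary {ψ : Pt → Pt} (hψ : PL (cst ∘ ψ)) (hinj : Function.Injective ψ) (s : Pt)
    (hs : ψ s = (1, 0)) : s.1 = 0 ∨ s.2 = 0 := by
  by_contra hcon
  push Not at hcon
  have hom : ∀ (n : ℕ) (z : Pt), ψ (n * z.1, n * z.2) = (n * (ψ z).1, n * (ψ z).2) := by
    intro n z
    apply cst_inj
    have := hψ.homog n z
    simp only [Function.comp] at this
    rw [this]
    simp [cst]
  have side : ∀ v : Pt, v.1 * s.2 ≠ v.2 * s.1 → ∃ n0 a b : ℕ, b ≠ 0 ∧ ∀ t,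
      ψ ((n0 + t) * s.1 + v.1, (n0 + t) * s.2 + v.2) = (a + t, b) := by
    intro v hv
    obtain ⟨n0, c, h⟩ := hψ.eventually s (cst v)
    have h1 : ∀ t : ℕ, cst (ψ ((n0 + t) * s.1 + v.1, (n0 + t) * s.2 + v.2)) =
        (((n0 + t : ℕ) : ℤ) + c.1, c.2) := by
      intro t
      have := h (n0 + t) (by omega) ((n0 + t) * s.1 + v.1, (n0 + t) * s.2 + v.2)
        (by simp [cst]) (by simp [cst])
      simp only [Function.comp, hs] at this
      rw [this]
      refine Prod.ext ?_ ?_ <;> simp [cst]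
    have h0 := h1 0
    generalize hP : ψ ((n0 + 0) * s.1 + v.1, (n0 + 0) * s.2 + v.2) = P at h0
    simp only [cst, Prod.mk.injEq] at h0
    refine ⟨n0, P.1, P.2, fun hb => ?_, fun t => cst_inj ?_⟩
    · have e := hom P.1 s
      rw [hs] at e
      have e2 : ψ (P.1 * s.1, P.1 * s.2) = P := e.trans (Prod.ext (by simp) (by simp [hb]))
      have e3 := hinj (hP.trans e2.symm)
      simp only [Prod.mk.injEq] at e3
      apply hv
      nlinarith [e3.1, e3.2]
    · rw [h1 t]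
      simp only [cst, Prod.mk.injEq]
      push_cast at h0 ⊢
      constructor <;> linarith [h0.1, h0.2]
  obtain ⟨n1, a1, b1, hb1, h1⟩ := side (0, 1) (by simpa using hcon.1.symm)
  obtain ⟨n2, a2, b2, hb2, h2⟩ := side (1, 0) (by simpa using hcon.2)
  obtain ⟨t1, ht1⟩ := Nat.exists_eq_add_of_le
    (show a1 ≤ b1 * (a1 + a2) by nlinarith [Nat.pos_of_ne_zero hb1])
  obtain ⟨t2, ht2⟩ := Nat.exists_eq_add_of_le
    (show a2 ≤ b2 * (a1 + a2) by nlinarith [Nat.pos_of_ne_zero hb2])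
  have e1 := hom b2 ((n1 + t1) * s.1 + 0, (n1 + t1) * s.2 + 1)
  have e2 := hom b1 ((n2 + t2) * s.1 + 1, (n2 + t2) * s.2 + 0)
  rw [h1 t1, ← ht1] at e1
  rw [h2 t2, ← ht2] at e2
  have e3 := hinj (e1.trans ((Prod.ext (by simp only; ring) (by simp only; ring)).trans e2.symm))
  simp only [Prod.mk.injEq] at e3
  have p1 := Nat.pos_of_ne_zero hb1
  have p2 := Nat.pos_of_ne_zero hb2
  have p3 := Nat.pos_of_ne_zero hcon.1
  have p4 := Nat.pos_of_ne_zero hcon.2
  have e4 : b2 * s.1 + b1 * s.2 = 0 := by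
    have g1 := congrArg (· * s.2) e3.1
    have g2 := congrArg (· * s.1) e3.2
    nlinarith
  nlinarith [Nat.mul_pos p2 p3]

theorem hasW_zero {φ ψ : Pt → Pt} (hφ : PL (cst ∘ φ)) (hψ : PL (cst ∘ ψ))
    (h1 : ∀ z, ψ (φ z) = z) (h2 : ∀ z, φ (ψ z) = z) {f : Pt → ZMod 11} (hf : HasW f 0) :
    HasW (f ∘ φ) 0 := by
  have hinj : Function.Injective ψ := Function.LeftInverse.injective h2
  have h := hasW_comp hψ hf hφ φ (1, 0) (0, 1) rfl rfl (fun z => by rw [h1]; simp [cm])
  have hb : ∀ s : Pt, s.1 = 0 ∨ s.2 = 0 → Pot f s = 0 := by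
    intro s hs
    by_cases h0 : s.2 = 0
    · exact Pot_e1 f h0
    · rw [Pot_e2 f h0 (by omega), hf.eq_W]
  have b1 := boundary hψ hinj _ (h1 (1, 0))
  have b2 := boundary (ψ := Prod.swap ∘ ψ)
    (hψ.map (AddEquiv.prodComm : ℤ × ℤ ≃+ ℤ × ℤ).toAddMonoidHom)
    (Prod.swap_injective.comp hinj) (φ (0, 1)) (by simp [h1])
  rwa [hb _ b1, hb _ b2, sub_zero] at h

end Pool.Agent.P.MP_6e3a57_lc
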