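import Pool.Agent.P.MP_6e3a57_lc.Grp

set_option autoImplicit false

/-!
The universal property of G u among all lattice-ordered groups.
-/

namespace Pool.Agent.P.MP_6e3a57_lc

variable {K : Type} [Group K] [Lattice K] [MulLeftMono K] [MulRightMono K]

/-- Homomorphisms of lattice-ordered groups from A, written multiplicatively in the target. -/
structure IsHom (η : A → K) : Prop where
  add : ∀ f g, η (f + g) = η f * η g
  sup : ∀ f g, η (f ⊔ g) = η f ⊔ η g

omit [MulLeftMono K] [MulRightMono K] in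
lemma IsHom.zero {η : A → K} (h : IsHom η) : η 0 = 1 := by
  have := h.add 0 0
  rw [add_zero] at this
  exact left_eq_mul.mp this

omit [MulLeftMono K] [MulRightMono K] in
lemma IsHom.neg {η : A → K} (h : IsHom η) (f : A) : η (-f) = (η f)⁻¹ := by
  have := h.add (-f) f
  rw [neg_add_cancel, h.zero] at this
  exact eq_inv_of_mul_eq_one_left this.symm

omit [MulLeftMono K] [MulRightMono K] in
lemma IsHom.zsmul {η : A → K} (h : IsHom η) (m : ℤ) (f : A) : η (m • f) = η f ^ m := by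
  induction m using Int.induction_on with
  | zero => simp [h.zero]
  | succ n ih => rw [add_smul, one_smul, h.add, ih, zpow_add_one]
  | pred n ih => rw [sub_smul, one_smul, sub_eq_add_neg, h.add, ih, h.neg, zpow_sub_one]

omit [MulLeftMono K] [MulRightMono K] in
lemma IsHom.mono {η : A → K} (h : IsHom η) {f g : A} (hfg : f ≤ g) : η f ≤ η g := by
  have := h.sup f g
  rw [sup_eq_right.mpr hfg] at this
  rw [this]
  exact le_sup_left

lemma inf_eq_inv_sup (a b : K) : a ⊓ b = (a⁻¹ ⊔ b⁻¹)⁻¹ := by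
  rw [inv_sup, inv_inv, inv_inv]

lemma IsHom.inf {η : A → K} (h : IsHom η) (f g : A) : η (f ⊓ g) = η f ⊓ η g := by
  have : f ⊓ g = -(-f ⊔ -g) := by rw [neg_sup, neg_neg, neg_neg]
  rw [this, h.neg, h.sup, h.neg, h.neg, inf_eq_inv_sup]

lemma commute_sup {c a b : K} (ha : c * a = a * c) (hb : c * b = b * c) :
    c * (a ⊔ b) = (a ⊔ b) * c := by
  rw [mul_sup, sup_mul, ha, hb]

lemma commute_inf {c a b : K} (ha : c * a = a * c) (hb : c * b = b * c) :
    c * (a ⊓ b) = (a ⊓ b) * c := by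
  rw [mul_inf, inf_mul, ha, hb]

/-- The centre of the centraliser of S. -/
def Cen (S : Set K) : Subgroup K :=
  Subgroup.centralizer S ⊓ Subgroup.centralizer (Subgroup.centralizer S : Set K)

lemma Cen.sup_mem {S : Set K} {a b : K} (ha : a ∈ Cen S) (hb : b ∈ Cen S) : a ⊔ b ∈ Cen S :=
  ⟨fun c hc => commute_sup (ha.1 c hc) (hb.1 c hc), fun c hc => commute_sup (ha.2 c hc) (hb.2 c hc)⟩

lemma Cen.inf_mem {S : Set K} {a b : K} (ha : a ∈ Cen S) (hb : b ∈ Cen S) : a ⊓ b ∈ Cen S :=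
  ⟨fun c hc => commute_inf (ha.1 c hc) (hb.1 c hc), fun c hc => commute_inf (ha.2 c hc) (hb.2 c hc)⟩

/-- The centre of the centraliser of S, written additively. -/
def CenT (S : Set K) : Type := {x : K // x ∈ Cen S}

instance (S : Set K) : Lattice (CenT S) :=
  Subtype.lattice (fun _ _ => Cen.sup_mem) (fun _ _ => Cen.inf_mem)

instance (S : Set K) : Add (CenT S) := ⟨fun a b => ⟨a.1 * b.1, (Cen S).mul_mem a.2 b.2⟩⟩
instance (S : Set K) : Zero (CenT S) := ⟨⟨1, (Cen S).one_mem⟩⟩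
instance (S : Set K) : Neg (CenT S) := ⟨fun a => ⟨a.1⁻¹, (Cen S).inv_mem a.2⟩⟩

instance (S : Set K) : AddGroup (CenT S) := AddGroup.ofLeftAxioms
  (fun a b c => Subtype.ext (mul_assoc a.1 b.1 c.1))
  (fun a => Subtype.ext (one_mul a.1))
  (fun a => Subtype.ext (inv_mul_cancel a.1))

instance (S : Set K) : AddCommGroup (CenT S) where
  add_comm a b := Subtype.ext (b.2.2 a.1 a.2.1)

instance (S : Set K) : AddLeftMono (CenT S) :=
  ⟨fun c a b h => show c.1 * a.1 ≤ c.1 * b.1 from mul_le_mul_right (show a.1 ≤ b.1 from h) _⟩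

theorem exists_eta (S : Set K) (X Y : K) (hXS : X ∈ S) (hYS : Y ∈ S)
    (hX : ∀ s ∈ S, s * X = X * s) (hY : ∀ s ∈ S, s * Y = Y * s) (hX1 : 1 ≤ X) (hY1 : 1 ≤ Y) :
    ∃ η : A → K, IsHom η ∧ η xA = X ∧ η yA = Y ∧ ∀ f, ∀ s ∈ S, s * η f = η f * s := by
  let X' : CenT S := ⟨X, hX, fun c hc => (hc X hXS).symm⟩
  let Y' : CenT S := ⟨Y, hY, fun c hc => (hc Y hYS).symm⟩
  obtain ⟨θ, h1, h2, h3⟩ := exists_hom X' Y' hX1 hY1
  refine ⟨fun f => (θ f).1, ⟨fun f g => ?_, fun f g => ?_⟩, ?_, ?_, fun f s hs => (θ f).2.1 s hs⟩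
  · rw [map_add]; rfl
  · rw [h1]; rfl
  · show (θ xA).1 = X
    rw [h2]
  · show (θ yA).1 = Y
    rw [h3]

/-- The data needed to define a homomorphism on G u. -/
structure Dat (u : A) (K : Type) [Group K] [Lattice K] where
  η : A → K
  T : K
  a : K
  hom : IsHom η
  cT : ∀ f, T * η f = η f * T
  ca : ∀ f, a * η f = η f * a
  rel : T * a * T⁻¹ * η u = a ^ 12
  le1 : η u ≤ a
  le2 : a ≤ T

namespace Dat

variable {u : A} (D : Dat u K)

/-- Conjugates of a. -/
def b (j : ℤ) : K := D.T ^ (-j) * D.a * D.T ^ j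

omit [MulLeftMono K] [MulRightMono K] in
lemma cTz (f : A) (j : ℤ) : Commute (D.T ^ j) (D.η f) := (show Commute D.T (D.η f) from D.cT f).zpow_left j

omit [MulLeftMono K] [MulRightMono K] in
lemma cb (f : A) (j : ℤ) : Commute (D.b j) (D.η f) :=
  ((D.cTz f (-j)).mul_left (show Commute D.a (D.η f) from D.ca f)).mul_left (D.cTz f j)

omit [MulLeftMono K] [MulRightMono K] in
lemma b_succ (j : ℤ) : D.b (j + 1) ^ 12 = D.b j * D.η u := by
  have h1 : D.b (j + 1) ^ 12 = D.T ^ (-(j + 1)) * D.a ^ 12 * D.T ^ (j + 1) := by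
    have := conj_pow (a := D.T ^ (-(j + 1))) (b := D.a) (i := 12)
    rw [← zpow_neg, neg_neg] at this
    exact this
  rw [h1, ← D.rel, b, ← mul_assoc, mul_assoc _ (D.η u), ← (D.cTz u (j + 1)).eq]
  group

omit [MulLeftMono K] [MulRightMono K] in
lemma conj_b (j : ℤ) : D.T * D.b (j + 1) * D.T⁻¹ = D.b j := by
  unfold b
  group

/-- Representations of a pair (q, f). -/
def Rp (u : A) (q : ℚ) (f : A) (j : ℕ) (m : ℤ) (h : A) : Prop :=
  12 ^ j * q = m ∧ f = m • u + (11 : ℤ) • h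

/-- The value attached to a representation. -/
def ν (j : ℕ) (m : ℤ) (h : A) : K := D.b j ^ m * D.η h

lemma Rp.step {q : ℚ} {f : A} {j : ℕ} {m : ℤ} {h : A} (r : Rp u q f j m h) :
    Rp u q f (j + 1) (12 * m) (h - m • u) := by
  refine ⟨?_, ?_⟩
  · push_cast
    rw [← r.1]; ring
  · rw [r.2, mul_smul]
    abel

omit [MulLeftMono K] [MulRightMono K] in
lemma ν_step (j : ℕ) (m : ℤ) (h : A) : D.ν j m h = D.ν (j + 1) (12 * m) (h - m • u) := by
  unfold ν
  rw [zpow_mul, show ((j + 1 : ℕ) : ℤ) = j + 1 by push_cast; rfl,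
    show D.b (j + 1) ^ (12 : ℤ) = D.b (j + 1) ^ 12 by norm_cast, D.b_succ, (D.cb u j).mul_zpow,
    ← D.hom.zsmul, mul_assoc, ← D.hom.add]
  congr 2
  abel

omit [MulLeftMono K] [MulRightMono K] in
lemma up {q : ℚ} {f : A} {j : ℕ} {m : ℤ} {h : A} (r : Rp u q f j m h) (i : ℕ) :
    ∃ m' h', Rp u q f (j + i) m' h' ∧ D.ν j m h = D.ν (j + i) m' h' := by
  induction i with
  | zero => exact ⟨m, h, r, rfl⟩
  | succ i ih =>
    obtain ⟨m', h', r', e⟩ := ih
    exact ⟨_, _, r'.step, e.trans (D.ν_step _ _ _)⟩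

lemma Rp.unique {q : ℚ} {f : A} {j : ℕ} {m m' : ℤ} {h h' : A} (r : Rp u q f j m h)
    (r' : Rp u q f j m' h') : m = m' ∧ h = h' := by
  have e : m = m' := by exact_mod_cast r.1.symm.trans r'.1
  subst e
  have e2 : (11 : ℤ) • h = (11 : ℤ) • h' := add_left_cancel (r.2.symm.trans r'.2)
  exact ⟨rfl, le_antisymm (smul11_le.mp e2.le) (smul11_le.mp e2.ge)⟩

/-- The graph of the map on the abelian normal subgroup. -/
def Val (q : ℚ) (f : A) (v : K) : Prop := ∃ j m h, Rp u q f j m h ∧ v = D.ν j m h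

variable {D}

omit [MulLeftMono K] [MulRightMono K] in
lemma Val.common {q q' : ℚ} {f f' : A} {v v' : K} (h : D.Val q f v) (h' : D.Val q' f' v') :
    ∃ j m h m' h', Rp u q f j m h ∧ v = D.ν j m h ∧ Rp u q' f' j m' h' ∧ v' = D.ν j m' h' := by
  obtain ⟨j, m, h, r, rfl⟩ := h
  obtain ⟨j', m', h', r', rfl⟩ := h'
  obtain ⟨m1, h1, r1, e1⟩ := D.up r j'
  obtain ⟨m2, h2, r2, e2⟩ := D.up r' j
  rw [add_comm j' j] at r2 e2
  exact ⟨_, _, _, _, _, r1, e1, r2, e2⟩

omit [MulLeftMono K] [MulRightMono K] in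
lemma Val.unique {q : ℚ} {f : A} {v v' : K} (h : D.Val q f v) (h' : D.Val q f v') : v = v' := by
  obtain ⟨j, m, h, m', h', r, rfl, r', rfl⟩ := h.common h'
  obtain ⟨rfl, rfl⟩ := r.unique r'
  rfl

omit [MulLeftMono K] [MulRightMono K] in
lemma Val.add {q q' : ℚ} {f f' : A} {v v' : K} (hv : D.Val q f v) (hv' : D.Val q' f' v') :
    D.Val (q + q') (f + f') (v * v') := by
  obtain ⟨j, m, h, m', g, r, rfl, r', rfl⟩ := hv.common hv'
  refine ⟨j, m + m', h + g, ⟨?_, ?_⟩, ?_⟩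
  · push_cast
    rw [← r.1, ← r'.1]; ring
  · rw [r.2, r'.2, add_smul, smul_add]; abel
  · unfold ν
    rw [zpow_add, D.hom.add, mul_assoc, mul_assoc, ← mul_assoc (D.η h),
      ← ((D.cb h j).zpow_left m').eq, mul_assoc]

omit [MulLeftMono K] [MulRightMono K] in
lemma Val.neg {q : ℚ} {f : A} {v : K} (h : D.Val q f v) : D.Val (-q) (-f) v⁻¹ := by
  obtain ⟨j, m, h, r, rfl⟩ := h
  refine ⟨j, -m, -h, ⟨?_, ?_⟩, ?_⟩
  · push_cast
    rw [← r.1]; ring
  · rw [r.2, neg_smul, smul_neg]; abel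
  · unfold ν
    rw [zpow_neg, D.hom.neg, ((D.cb h j).zpow_left m).eq, mul_inv_rev]

omit [MulLeftMono K] [MulRightMono K] in
lemma conj_ν (j : ℕ) (m : ℤ) (h : A) : D.T * D.ν (j + 1) m h * D.T⁻¹ = D.ν j m h := by
  unfold ν
  rw [← D.conj_b j, conj_zpow, show ((j + 1 : ℕ) : ℤ) = j + 1 by push_cast; rfl]
  have : D.η h * D.T⁻¹ = D.T⁻¹ * D.η h := ((show Commute D.T (D.η h) from D.cT h).inv_left).eq.symm
  rw [mul_assoc, mul_assoc, this, mul_assoc, mul_assoc]

omit [MulLeftMono K] [MulRightMono K] in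
lemma Val.mul12 {q : ℚ} {f : A} {v : K} (h : D.Val q f v) :
    D.Val (12 * q) f (D.T * v * D.T⁻¹) := by
  obtain ⟨j, m, h, r, rfl⟩ := h
  obtain ⟨m', h', r', e⟩ := D.up r 1
  refine ⟨j, m', h', ⟨?_, r'.2⟩, ?_⟩
  · rw [← r'.1]; ring
  · rw [e, conj_ν]

omit [MulLeftMono K] [MulRightMono K] in
lemma Val.div12 {q : ℚ} {f : A} {v : K} (h : D.Val q f v) :
    D.Val (12⁻¹ * q) f (D.T⁻¹ * v * D.T) := by
  obtain ⟨j, m, h, r, rfl⟩ := h
  refine ⟨j + 1, m, h, ⟨?_, r.2⟩, ?_⟩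
  · rw [← r.1]; ring
  · rw [← conj_ν]; group

omit [MulLeftMono K] [MulRightMono K] in
lemma Val.zpow {q : ℚ} {f : A} {v : K} (h : D.Val q f v) (k : ℤ) :
    D.Val (12 ^ k * q) f (D.T ^ k * v * D.T ^ (-k)) := by
  induction k using Int.induction_on with
  | zero => simpa using h
  | succ n ih =>
    have := ih.mul12
    rw [← mul_assoc, ← zpow_one_add₀ (by norm_num), add_comm] at this
    convert this using 1
    group
  | pred n ih =>
    have := ih.div12
    rw [← mul_assoc, mul_comm (12⁻¹ : ℚ), ← zpow_sub_one₀ (by norm_num)] at this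
    convert this using 1
    group

omit [MulLeftMono K] [MulRightMono K] in
lemma val_eta (h : A) : D.Val 0 ((11 : ℤ) • h) (D.η h) :=
  ⟨0, 0, h, ⟨by simp, by simp⟩, by simp [ν]⟩

omit [MulLeftMono K] [MulRightMono K] in
lemma val_a : D.Val 1 u D.a :=
  ⟨0, 1, 0, ⟨by simp, by simp⟩, by simp [ν, b, D.hom.zero]⟩

omit [MulLeftMono K] [MulRightMono K] in
lemma exists_val (g : G u) : ∃ v, D.Val g.q g.f v := by
  obtain ⟨j, m, hm, -⟩ := g.ok
  obtain ⟨h, e, -⟩ := normal_form g hm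
  exact ⟨_, j, m, h, ⟨hm, e⟩, rfl⟩

/-- u dominates x + y. -/
def Strong (u : A) : Prop := ∀ z : Pt, (z.1 : ℤ) + z.2 ≤ u.1 z

lemma conj_le {f : A} (h : D.η f ≤ D.a) (j : ℤ) : D.η f ≤ D.b j := by
  have h1 : D.T ^ (-j) * D.η f * D.T ^ j ≤ D.b j :=
    mul_le_mul_left (mul_le_mul_right h _) _
  rwa [(D.cTz f (-j)).eq, mul_assoc, ← zpow_add, neg_add_cancel, zpow_zero, mul_one] at h1

lemma mul_le_mul_both {a b c d : K} (h1 : a ≤ b) (h2 : c ≤ d) : a * c ≤ b * d :=
  (mul_le_mul_left h1 c).trans (mul_le_mul_right h2 b)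

lemma pow_le_pow_both {a b : K} (h : a ≤ b) (n : ℕ) : a ^ n ≤ b ^ n := by
  induction n with
  | zero => simp
  | succ n ih => rw [pow_succ, pow_succ]; exact mul_le_mul_both ih h

lemma eta_le_a (hu : Strong u) (f : A) : D.η f ≤ D.a := by
  have hu0 : ∀ z, 0 ≤ u.1 z := fun z => le_trans (by positivity) (hu z)
  have h1 : ∀ n : ℕ, D.η (((n : ℤ) + 1) • u) ≤ D.a := by
    intro n
    induction n with
    | zero => simpa using D.le1
    | succ n ih =>
      have h2 := pow_le_pow_both (conj_le ih (0 + 1)) 12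
      rw [D.b_succ, ← zpow_natCast, ← D.hom.zsmul] at h2
      have h3 : D.b 0 = D.a := by simp [b]
      rw [h3] at h2
      have h4 : D.η (((12 : ℕ) : ℤ) • (((n : ℤ) + 1) • u) + -u) ≤ D.a := by
        rw [D.hom.add, D.hom.neg]
        exact mul_inv_le_iff_le_mul.mpr h2
      refine (D.hom.mono ?_).trans h4
      intro z
      simp only [AddSubgroupClass.coe_zsmul, Pi.smul_apply, smul_eq_mul, AddSubgroup.coe_add,
        Pi.add_apply, NegMemClass.coe_neg, Pi.neg_apply]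
      push_cast
      nlinarith [hu0 z, Int.natCast_nonneg n]
  obtain ⟨C, hC⟩ := PL.bound f.2
  refine (D.hom.mono ?_).trans (h1 C)
  intro z
  simp only [AddSubgroupClass.coe_zsmul, Pi.smul_apply, smul_eq_mul]
  nlinarith [hC z, hu z, hu0 z, Int.natCast_nonneg C]

lemma one_le_b (hu : Strong u) (j : ℤ) : 1 ≤ D.b j := by
  have := conj_le (eta_le_a (D := D) hu 0) j
  rwa [D.hom.zero] at this

lemma Val.pos (hu : Strong u) {q : ℚ} {f : A} {v : K} (h : D.Val q f v) (hq : 0 < q) : 1 ≤ v := by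
  obtain ⟨j, m, h, r, rfl⟩ := h
  have hm : 0 < m := by
    have : (0 : ℚ) < m := by rw [← r.1]; positivity
    exact_mod_cast this
  obtain ⟨n, rfl⟩ : ∃ n : ℕ, m = n + 1 := ⟨(m - 1).toNat, by omega⟩
  unfold ν
  rw [zpow_add_one, zpow_natCast, mul_assoc]
  have h1 : 1 ≤ D.b j ^ n := by simpa using pow_le_pow_both (one_le_b (D := D) hu j) n
  have h2 : 1 ≤ D.b j * D.η h := by
    have := conj_le (eta_le_a (D := D) hu (-h)) j
    rw [D.hom.neg] at this
    exact inv_le_iff_one_le_mul.mp this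
  simpa using mul_le_mul_both h1 h2

lemma Val.le_T (hu : Strong u) {q : ℚ} {f : A} {v : K} (h : D.Val q f v) : v ≤ D.T := by
  obtain ⟨j, hj⟩ := pow_unbounded_of_one_lt q (show (1 : ℚ) < 12 by norm_num)
  have h1 := (val_a (D := D)).zpow j
  have h2 := (h1.add h.neg).pos hu (by rw [zpow_natCast]; linarith)
  have h3 : D.T ^ (j : ℤ) * D.a * D.T ^ (-(j : ℤ)) ≤ D.T ^ (j : ℤ) * D.T * D.T ^ (-(j : ℤ)) :=
    mul_le_mul_left (mul_le_mul_right D.le2 _) _
  have h4 : D.T ^ (j : ℤ) * D.T * D.T ^ (-(j : ℤ)) = D.T := by group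
  rw [h4] at h3
  refine le_trans ?_ h3
  simpa using le_mul_inv_iff_mul_le.mp h2

theorem exists_lift (hu : Strong u) (D : Dat u K) :
    ∃ φ : G u →* K, (∀ a b, φ (a ⊔ b) = φ a ⊔ φ b) ∧ φ (tG u) = D.T ∧ φ (aG u) = D.a ∧
      ∀ f, φ (iota u f) = D.η f := by
  choose nu hnu using exists_val (D := D)
  have hmul : ∀ g h : G u, nu (g * h) * D.T ^ (g * h).k = nu g * D.T ^ g.k * (nu h * D.T ^ h.k) := by
    intro g h
    rw [(hnu (g * h)).unique ((hnu g).add ((hnu h).zpow g.k)), G.mul_k]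
    group
  let φ : G u →* K := MonoidHom.mk' (fun g => nu g * D.T ^ g.k) hmul
  have hφ : ∀ g, φ g = nu g * D.T ^ g.k := fun _ => rfl
  have hι : ∀ f, φ (iota u f) = D.η f := by
    intro f
    rw [hφ, (hnu (iota u f)).unique (val_eta f)]
    simp
  have hT1 : 1 ≤ D.T := by
    have := (val_eta (D := D) 0).le_T hu
    rwa [D.hom.zero] at this
  have hpos : ∀ g : G u, 1 ≤ g → 1 ≤ φ g := by
    intro g hg
    rcases hg with (hg | ⟨h1, h2⟩) | ⟨h1, h2⟩
    · obtain ⟨n, hn⟩ : ∃ n : ℕ, g.k = 1 + n := ⟨(g.k - 1).toNat, by simp at hg; omega⟩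
      rw [hφ, hn, zpow_one_add, zpow_natCast, ← mul_assoc]
      have h1 : 1 ≤ nu g * D.T := inv_le_iff_one_le_mul'.mp ((hnu g).neg.le_T hu)
      have h2 : 1 ≤ D.T ^ n := by simpa using pow_le_pow_both hT1 n
      simpa using mul_le_mul_both h1 h2
    · rw [hφ, ← h1]
      simpa using (hnu g).pos hu h2
    · obtain ⟨f, rfl⟩ := exists_iota g h1.1.symm h1.2.symm
      rw [hι, ← D.hom.zero]
      apply D.hom.mono
      rw [← smul11_le, smul_zero]
      exact h2
  have hmono : ∀ g h : G u, g ≤ h → φ g ≤ φ h := by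
    intro g h hgh
    have := hpos (g⁻¹ * h) (le_inv_mul_iff_le.mpr hgh)
    rw [map_mul, map_inv] at this
    exact le_inv_mul_iff_le.mp this
  refine ⟨φ, fun g h => ?_, ?_, ?_, hι⟩
  · rcases G.tri g h with e | e | e
    · have : g ≤ h := Or.inl e
      rw [sup_eq_right.mpr this, sup_eq_right.mpr (hmono _ _ this)]
    · obtain ⟨d, hd⟩ := exists_iota (g⁻¹ * h) (by simp [e.1]) (by simp [e.2])
      have e1 : h = g * iota u d := by rw [← hd]; group
      have e0 : g = g * iota u 0 := by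
        refine G.ext ?_ ?_ ?_ <;> simp
      have e2 : g ⊔ h = g * iota u (0 ⊔ d) := by
        rw [iota_sup, mul_sup, ← e0, ← e1]
      rw [e2, map_mul, hι, D.hom.sup, mul_sup, D.hom.zero, mul_one, ← hι, ← map_mul, ← e1]
    · have : h ≤ g := Or.inl e
      rw [sup_eq_left.mpr this, sup_eq_left.mpr (hmono _ _ this)]
  · have h0 := (hnu (tG u)).unique (by simpa using val_eta (D := D) 0)
    rw [hφ, h0, D.hom.zero]
    simp
  · rw [hφ, (hnu (aG u)).unique val_a]
    simp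

end Dat

lemma isHom_iota (u : A) : IsHom (iota u) := ⟨iota_add u, iota_sup u⟩

omit [MulLeftMono K] [MulRightMono K] in
lemma isHom_comp {u : A} (φ : G u →* K) (h : ∀ a b, φ (a ⊔ b) = φ a ⊔ φ b) :
    IsHom (fun f => φ (iota u f)) :=
  ⟨fun f g => by rw [iota_add, map_mul], fun f g => by rw [iota_sup, h]⟩

lemma IsHom.ext {η η' : A → K} (h : IsHom η) (h' : IsHom η') (hx : η xA = η' xA)
    (hy : η yA = η' yA) (f : A) : η f = η' f := by
  let S : AddSubgroup A :=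
    { carrier := {f | η f = η' f}
      add_mem' := fun {a b} ha hb => by
        show η (a + b) = η' (a + b)
        rw [h.add, h'.add, show η a = η' a from ha, show η b = η' b from hb]
      zero_mem' := by
        show η 0 = η' 0
        rw [h.zero, h'.zero]
      neg_mem' := fun {a} ha => by
        show η (-a) = η' (-a)
        rw [h.neg, h'.neg, show η a = η' a from ha] }
  refine gen_A S (fun a ha b hb => ?_) hx hy f
  show η (a ⊓ b) = η' (a ⊓ b)
  rw [h.inf, h'.inf, show η a = η' a from ha, show η b = η' b from hb]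

theorem lift_unique {u : A} (φ ψ : G u →* K) (hφ : ∀ a b, φ (a ⊔ b) = φ a ⊔ φ b)
    (hψ : ∀ a b, ψ (a ⊔ b) = ψ a ⊔ ψ b) (ht : φ (tG u) = ψ (tG u)) (ha : φ (aG u) = ψ (aG u))
    (hx : φ (iota u xA) = ψ (iota u xA)) (hy : φ (iota u yA) = ψ (iota u yA)) : φ = ψ := by
  ext g
  obtain ⟨j, m, hm, -⟩ := g.ok
  obtain ⟨h, -, e⟩ := normal_form g hm
  have hi : φ (iota u h) = ψ (iota u h) := (isHom_comp φ hφ).ext (isHom_comp ψ hψ) hx hy h
  rw [e]
  simp only [map_mul, map_zpow, ht, ha, hi]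

end Pool.Agent.P.MP_6e3a57_lc
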