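import Mathlib

set_option autoImplicit false

/-!
Piecewise linear functions on the quadrant, for Farey subdivisions.
-/

namespace Pool.Agent.P.MP_6e3a57_lc

abbrev Pt : Type := ℕ × ℕ

/-- The left half of the quadrant. -/
def cL (z : Pt) : Pt := (z.1 + z.2, z.2)

/-- The right half of the quadrant. -/
def cR (z : Pt) : Pt := (z.1, z.1 + z.2)

lemma cover (z : Pt) : (∃ w, z = cL w) ∨ (∃ w, z = cR w) := by
  rcases le_total z.2 z.1 with h | h
  · left
    refine ⟨(z.1 - z.2, z.2), ?_⟩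
    ext
    · simp [cL]; omega
    · simp [cL]
  · right
    refine ⟨(z.1, z.2 - z.1), ?_⟩
    ext
    · simp [cR]
    · simp [cR]; omega

section general

variable {Λ Λ' : Type} [AddCommGroup Λ] [AddCommGroup Λ']

/-- The linear function with values a at (1,0) and b at (0,1). -/
def lin (a b : Λ) : Pt → Λ := fun z => z.1 • a + z.2 • b

@[simp] lemma lin_e1 (a b : Λ) : lin a b (1, 0) = a := by simp [lin]
@[simp] lemma lin_e2 (a b : Λ) : lin a b (0, 1) = b := by simp [lin]
@[simp] lemma lin_mid (a b : Λ) : lin a b (1, 1) = a + b := by simp [lin]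

@[simp] lemma lin_cL (a b : Λ) : lin a b ∘ cL = lin a (a + b) := by
  funext z
  simp only [lin, cL, Function.comp, add_smul, smul_add]
  abel

@[simp] lemma lin_cR (a b : Λ) : lin a b ∘ cR = lin (a + b) b := by
  funext z
  simp only [lin, cR, Function.comp, add_smul, smul_add]
  abel

lemma lin_inj {a b a' b' : Λ} (h : lin a b = lin a' b') : a = a' ∧ b = b' := by
  have h1 := congrFun h (1, 0)
  have h2 := congrFun h (0, 1)
  simp at h1 h2
  exact ⟨h1, h2⟩

lemma map_lin (φ : Λ →+ Λ') (a b : Λ) : φ ∘ lin a b = lin (φ a) (φ b) := by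
  funext z
  simp [lin]

@[simp] lemma cL_e1 : cL (1, 0) = (1, 0) := rfl
@[simp] lemma cL_e2 : cL (0, 1) = (1, 1) := rfl
@[simp] lemma cR_e1 : cR (1, 0) = (1, 1) := rfl
@[simp] lemma cR_e2 : cR (0, 1) = (0, 1) := rfl

/-- Piecewise linear functions all of whose linear pieces satisfy P. -/
inductive PLP (P : Λ → Λ → Prop) : (Pt → Λ) → Prop
  | lin (a b : Λ) : P a b → PLP P (lin a b)
  | split (f : Pt → Λ) : PLP P (f ∘ cL) → PLP P (f ∘ cR) → PLP P f

/-- Piecewise linear functions. -/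
def PL (f : Pt → Λ) : Prop := PLP (fun _ _ => True) f

lemma PL.lin (a b : Λ) : PL (lin a b) := PLP.lin a b trivial

lemma PL.split {f : Pt → Λ} (h1 : PL (f ∘ cL)) (h2 : PL (f ∘ cR)) : PL f := PLP.split f h1 h2

lemma PL.ind {M : (Pt → Λ) → Prop} (h1 : ∀ a b, M (MP_6e3a57_lc.lin a b))
    (h2 : ∀ f, PL (f ∘ cL) → PL (f ∘ cR) → M (f ∘ cL) → M (f ∘ cR) → M f)
    {f : Pt → Λ} (hf : PL f) : M f := by
  unfold PL at hf
  induction hf with
  | lin a b _ => exact h1 a b
  | split f g1 g2 i1 i2 => exact h2 f g1 g2 i1 i2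

lemma PLP.bind {P Q : Λ → Λ → Prop} {f : Pt → Λ} (hf : PLP P f)
    (h : ∀ a b, P a b → PLP Q (MP_6e3a57_lc.lin a b)) : PLP Q f := by
  induction hf with
  | lin a b hab => exact h a b hab
  | split f _ _ i1 i2 => exact PLP.split f i1 i2

lemma PLP.pl {P : Λ → Λ → Prop} {f : Pt → Λ} (hf : PLP P f) : PL f :=
  hf.bind fun a b _ => PL.lin a b

lemma PLP.mono {P Q : Λ → Λ → Prop} {f : Pt → Λ} (hf : PLP P f)
    (h : ∀ a b, P a b → Q a b) : PLP Q f :=
  hf.bind fun a b hab => PLP.lin a b (h a b hab)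

lemma PL.left {f : Pt → Λ} (hf : PL f) : PL (f ∘ cL) := by
  refine PL.ind (M := fun f => PL (f ∘ cL)) ?_ ?_ hf
  · intro a b; rw [lin_cL]; exact PL.lin _ _
  · intro f h _ _ _; exact h

lemma PL.right {f : Pt → Λ} (hf : PL f) : PL (f ∘ cR) := by
  refine PL.ind (M := fun f => PL (f ∘ cR)) ?_ ?_ hf
  · intro a b; rw [lin_cR]; exact PL.lin _ _
  · intro f _ h _ _; exact h

lemma PL.map (φ : Λ →+ Λ') {f : Pt → Λ} (hf : PL f) : PL (φ ∘ f) := by
  refine PL.ind (M := fun f => PL (φ ∘ f)) ?_ ?_ hf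
  · intro a b; rw [map_lin]; exact PL.lin _ _
  · intro f _ _ h1 h2; exact PL.split h1 h2

lemma PL.pair_lin (a b : Λ) {g : Pt → Λ'} (hg : PL g) :
    PL (fun z => (MP_6e3a57_lc.lin a b z, g z)) := by
  refine PL.ind (M := fun g => ∀ a b : Λ, PL (fun z => (MP_6e3a57_lc.lin a b z, g z))) ?_ ?_ hg a b
  · intro c d a b
    have : (fun z => (MP_6e3a57_lc.lin a b z, MP_6e3a57_lc.lin c d z)) =
        MP_6e3a57_lc.lin (a, c) (b, d) := by
      funext z; simp [MP_6e3a57_lc.lin]
    rw [this]; exact PL.lin _ _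
  · intro g _ _ h1 h2 a b
    refine PL.split ?_ ?_
    · have := h1 a (a + b)
      rw [← lin_cL] at this
      exact this
    · have := h2 (a + b) b
      rw [← lin_cR] at this
      exact this

lemma PL.pair {f : Pt → Λ} {g : Pt → Λ'} (hf : PL f) (hg : PL g) :
    PL (fun z => (f z, g z)) := by
  refine PL.ind (M := fun f => ∀ g : Pt → Λ', PL g → PL (fun z => (f z, g z))) ?_ ?_ hf g hg
  · intro a b g hg; exact PL.pair_lin a b hg
  · intro f _ _ h1 h2 g hg
    exact PL.split (h1 _ hg.left) (h2 _ hg.right)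

lemma PL.add {f g : Pt → Λ} (hf : PL f) (hg : PL g) : PL (f + g) :=
  (hf.pair hg).map (AddMonoidHom.fst Λ Λ + AddMonoidHom.snd Λ Λ)

lemma PL.neg {f : Pt → Λ} (hf : PL f) : PL (-f) := hf.map (-AddMonoidHom.id Λ)

lemma PL.zero : PL (0 : Pt → Λ) := by
  have : (0 : Pt → Λ) = MP_6e3a57_lc.lin 0 0 := by funext z; simp [MP_6e3a57_lc.lin]
  rw [this]; exact PL.lin _ _

lemma PL.homog {f : Pt → Λ} (hf : PL f) (n : ℕ) (z : Pt) : f (n * z.1, n * z.2) = n • f z := by
  refine PL.ind (M := fun f => ∀ z : Pt, f (n * z.1, n * z.2) = n • f z) ?_ ?_ hf z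
  · intro a b z
    simp [MP_6e3a57_lc.lin, mul_smul]
  · intro f _ _ h1 h2 z
    rcases cover z with ⟨w, rfl⟩ | ⟨w, rfl⟩
    · have := h1 w
      simpa [cL, mul_add] using this
    · have := h2 w
      simpa [cR, mul_add] using this

/-- A property of cells inherited by the two halves. -/
def Hered (P : Λ → Λ → Prop) : Prop := ∀ a b, P a b → P a (a + b) ∧ P (a + b) b

lemma PLP.and_hered {P Q : Λ → Λ → Prop} (hP : Hered P) {f : Pt → Λ} (hf : PLP Q f) :
    ∀ a b, f = MP_6e3a57_lc.lin a b → P a b → PLP (fun a b => P a b ∧ Q a b) f := by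
  induction hf with
  | lin c d hcd =>
    intro a b h hab
    obtain ⟨rfl, rfl⟩ := lin_inj h
    exact PLP.lin _ _ ⟨hab, hcd⟩
  | split f _ _ i1 i2 =>
    intro a b h hab
    subst h
    exact PLP.split _ (i1 a (a + b) (lin_cL a b) (hP a b hab).1)
      (i2 (a + b) b (lin_cR a b) (hP a b hab).2)

/-- The functional c does not change sign on the cell. -/
def NoCh (c : Λ →+ ℤ) (a b : Λ) : Prop := (0 ≤ c a ∧ 0 ≤ c b) ∨ (c a ≤ 0 ∧ c b ≤ 0)

lemma noCh_hered (c : Λ →+ ℤ) : Hered (NoCh c) := by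
  intro a b h
  simp only [NoCh, map_add] at *
  omega

lemma plp_noCh_lin (c : Λ →+ ℤ) (a b : Λ) : PLP (NoCh c) (lin a b) := by
  obtain ⟨n, hn⟩ : ∃ n, (c a).natAbs + (c b).natAbs = n := ⟨_, rfl⟩
  induction n using Nat.strong_induction_on generalizing a b with
  | _ n ih =>
    by_cases h : NoCh c a b
    · exact PLP.lin a b h
    · refine PLP.split _ ?_ ?_
      · rw [lin_cL]
        by_cases h' : NoCh c a (a + b)
        · exact PLP.lin _ _ h'
        · refine ih _ ?_ a (a + b) rfl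
          simp only [NoCh, map_add] at *
          omega
      · rw [lin_cR]
        by_cases h' : NoCh c (a + b) b
        · exact PLP.lin _ _ h'
        · refine ih _ ?_ (a + b) b rfl
          simp only [NoCh, map_add] at *
          omega

lemma PL.noCh {f : Pt → Λ} (hf : PL f) (c : Λ →+ ℤ) : PLP (NoCh c) f :=
  PLP.bind hf fun a b _ => plp_noCh_lin c a b

lemma PL.noCh_finite {f : Pt → Λ} (hf : PL f) {S : Set (Λ →+ ℤ)} (hS : S.Finite) :
    PLP (fun a b => ∀ c ∈ S, NoCh c a b) f := by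
  induction S, hS using Set.Finite.induction_on with
  | empty => exact PLP.mono hf (by simp)
  | @insert c S _ _ ih =>
    refine ih.bind fun a b hab => ?_
    have hh : Hered (fun a b : Λ => ∀ c ∈ S, NoCh c a b) := fun a b h =>
      ⟨fun c hc => (noCh_hered c a b (h c hc)).1, fun c hc => (noCh_hered c a b (h c hc)).2⟩
    refine ((plp_noCh_lin c a b).and_hered hh a b rfl hab).mono ?_
    intro a b h d hd
    rcases hd with rfl | hd
    · exact h.2
    · exact h.1 d hd

end general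

lemma lin_nonneg {a b : ℤ} (ha : 0 ≤ a) (hb : 0 ≤ b) : 0 ≤ lin a b := by
  intro z
  simp only [lin, Pi.zero_apply]
  positivity

lemma lin_nonpos {a b : ℤ} (ha : a ≤ 0) (hb : b ≤ 0) : lin a b ≤ 0 := by
  intro z
  simp only [lin, Pi.zero_apply, nsmul_eq_mul]
  nlinarith [Int.natCast_nonneg z.1, Int.natCast_nonneg z.2]

lemma PL.pos {f : Pt → ℤ} (hf : PL f) : PL (f ⊔ 0) := by
  have h := hf.noCh (AddMonoidHom.id ℤ)
  clear hf
  induction h with
  | lin a b hab =>
    rcases hab with ⟨ha, hb⟩ | ⟨ha, hb⟩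
    · rw [sup_eq_left.mpr (lin_nonneg (a := a) (b := b) ha hb)]; exact PL.lin _ _
    · rw [sup_eq_right.mpr (lin_nonpos (a := a) (b := b) ha hb)]; exact PL.zero
  | split f _ _ i1 i2 => exact PL.split i1 i2

lemma PL.sup {f g : Pt → ℤ} (hf : PL f) (hg : PL g) : PL (f ⊔ g) := by
  have h := (hf.add hg.neg).pos.add hg
  have e : (f + -g) ⊔ 0 + g = f ⊔ g := by
    rw [sup_add]; simp
  rwa [e] at h

lemma PL.inf {f g : Pt → ℤ} (hf : PL f) (hg : PL g) : PL (f ⊓ g) := by
  have h := (hf.neg.sup hg.neg).neg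
  rwa [neg_sup, neg_neg, neg_neg] at h

/-- The group of integral piecewise linear functions. -/
def PLgrp : AddSubgroup (Pt → ℤ) where
  carrier := {f | PL f}
  add_mem' := PL.add
  zero_mem' := PL.zero
  neg_mem' := PL.neg

abbrev A : Type := ↥PLgrp

instance latticeA : Lattice A :=
  Subtype.lattice (fun _ _ hf hg => PL.sup hf hg) (fun _ _ hf hg => PL.inf hf hg)

@[simp] lemma A.coe_sup (f g : A) : ((f ⊔ g : A) : Pt → ℤ) = (f : Pt → ℤ) ⊔ g := rfl
@[simp] lemma A.coe_inf (f g : A) : ((f ⊓ g : A) : Pt → ℤ) = (f : Pt → ℤ) ⊓ g := rfl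

lemma A.le_def (f g : A) : f ≤ g ↔ ∀ z, f.1 z ≤ g.1 z := Iff.rfl

instance addLeftMonoA : AddLeftMono A :=
  ⟨fun c f g h z => by
    have : f.1 z ≤ g.1 z := h z
    simp only [AddSubgroup.coe_add, Pi.add_apply]
    omega⟩

/-- The first coordinate function. -/
def xA : A := ⟨lin 1 0, PL.lin _ _⟩

/-- The second coordinate function. -/
def yA : A := ⟨lin 0 1, PL.lin _ _⟩

@[simp] lemma xA_apply (z : Pt) : xA.1 z = z.1 := by simp [xA, lin]
@[simp] lemma yA_apply (z : Pt) : yA.1 z = z.2 := by simp [yA, lin]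

lemma PL.bound {f : Pt → ℤ} (hf : PL f) : ∃ C : ℕ, ∀ z : Pt, f z ≤ C * ((z.1 : ℤ) + z.2) := by
  refine PL.ind (M := fun f => ∃ C : ℕ, ∀ z : Pt, f z ≤ C * ((z.1 : ℤ) + z.2)) ?_ ?_ hf
  · intro a b
    refine ⟨a.natAbs + b.natAbs, fun z => ?_⟩
    simp only [MP_6e3a57_lc.lin, nsmul_eq_mul]
    push_cast
    have h1 := le_abs_self a
    have h2 := le_abs_self b
    have h3 := abs_nonneg a
    have h4 := abs_nonneg b
    nlinarith [Int.natCast_nonneg z.1, Int.natCast_nonneg z.2]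
  · rintro f _ _ ⟨C1, h1⟩ ⟨C2, h2⟩
    refine ⟨C1 + C2, fun z => ?_⟩
    rcases cover z with ⟨w, rfl⟩ | ⟨w, rfl⟩
    · have := h1 w
      simp only [Function.comp, cL] at this ⊢
      push_cast
      nlinarith [Int.natCast_nonneg w.1, Int.natCast_nonneg w.2, Int.natCast_nonneg C1,
        Int.natCast_nonneg C2]
    · have := h2 w
      simp only [Function.comp, cR] at this ⊢
      push_cast
      nlinarith [Int.natCast_nonneg w.1, Int.natCast_nonneg w.2, Int.natCast_nonneg C1,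
        Int.natCast_nonneg C2]

lemma PL.div {f : Pt → ℤ} (hf : PL f) (n : ℤ) (h : ∀ z, n ∣ f z) : PL (fun z => f z / n) := by
  refine PL.ind (M := fun f => (∀ z, n ∣ f z) → PL (fun z => f z / n)) ?_ ?_ hf h
  · intro a b h
    obtain ⟨a', rfl⟩ : n ∣ a := by simpa using h (1, 0)
    obtain ⟨b', rfl⟩ : n ∣ b := by simpa using h (0, 1)
    by_cases hn : n = 0
    · subst hn
      simp only [Int.ediv_zero]
      exact PL.zero
    have : (fun z => MP_6e3a57_lc.lin (n * a') (n * b') z / n) = MP_6e3a57_lc.lin a' b' := by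
      funext z
      simp only [MP_6e3a57_lc.lin, nsmul_eq_mul]
      rw [show (z.1 : ℤ) * (n * a') + z.2 * (n * b') = n * (z.1 * a' + z.2 * b') by ring]
      exact Int.mul_ediv_cancel_left _ hn
    rw [this]; exact PL.lin _ _
  · intro f _ _ h1 h2 h
    exact PL.split (h1 fun z => h _) (h2 fun z => h _)

end Pool.Agent.P.MP_6e3a57_lc
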