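import Pool.Agent.P.MP_6e3a57_lc.PL

set_option autoImplicit false

/-!
The universal property of the group of piecewise linear functions on the quadrant among abelian
lattice-ordered groups with two nonnegative elements.
-/

namespace Pool.Agent.P.MP_6e3a57_lc

section

variable {K K' : Type} [AddCommGroup K] [Lattice K] [AddCommGroup K'] [Lattice K']

/-- Evaluation of a piecewise linear function at a pair of elements. -/
inductive Ev : K → K → (Pt → ℤ) → K → Prop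
  | lin (X Y : K) (a b : ℤ) : Ev X Y (lin a b) (a • X + b • Y)
  | split (X Y : K) (f : Pt → ℤ) (k1 k2 : K) :
      Ev (X - X ⊓ Y) (X ⊓ Y) (f ∘ cL) k1 → Ev (X ⊓ Y) (Y - X ⊓ Y) (f ∘ cR) k2 →
      Ev X Y f (k1 + k2 - f (1, 1) • (X ⊓ Y))

lemma Ev.split_inv {X Y : K} {f : Pt → ℤ} {k : K} (h : Ev X Y f k) :
    ∃ k1 k2, Ev (X - X ⊓ Y) (X ⊓ Y) (f ∘ cL) k1 ∧ Ev (X ⊓ Y) (Y - X ⊓ Y) (f ∘ cR) k2 ∧
      k = k1 + k2 - f (1, 1) • (X ⊓ Y) := by
  cases h with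
  | lin _ _ a b =>
    refine ⟨_, _, by rw [lin_cL]; exact Ev.lin _ _ _ _, by rw [lin_cR]; exact Ev.lin _ _ _ _, ?_⟩
    simp only [lin_mid, add_smul, smul_sub]
    abel
  | split _ _ _ k1 k2 h1 h2 => exact ⟨k1, k2, h1, h2, rfl⟩

lemma Ev.lin_unique {X Y : K} {f : Pt → ℤ} {k : K} (h : Ev X Y f k) :
    ∀ a b, f = MP_6e3a57_lc.lin a b → k = a • X + b • Y := by
  induction h with
  | lin X Y c d =>
    intro a b h
    obtain ⟨rfl, rfl⟩ := lin_inj h
    rfl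
  | split X Y f k1 k2 _ _ i1 i2 =>
    intro a b h
    subst h
    rw [i1 a (a + b) (lin_cL a b), i2 (a + b) b (lin_cR a b)]
    simp only [lin_mid, add_smul, smul_sub]
    abel

lemma Ev.unique {X Y : K} {f : Pt → ℤ} {k l : K} (h : Ev X Y f k) (h' : Ev X Y f l) : k = l := by
  induction h generalizing l with
  | lin X Y a b => exact (h'.lin_unique a b rfl).symm
  | split X Y f k1 k2 _ _ i1 i2 =>
    obtain ⟨l1, l2, g1, g2, rfl⟩ := h'.split_inv
    rw [i1 g1, i2 g2]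

lemma Ev.exists {f : Pt → ℤ} (hf : PL f) (X Y : K) : ∃ k, Ev X Y f k := by
  refine PL.ind (M := fun f => ∀ X Y : K, ∃ k, Ev X Y f k) ?_ ?_ hf X Y
  · intro a b X Y
    exact ⟨_, Ev.lin X Y a b⟩
  · intro f _ _ i1 i2 X Y
    obtain ⟨k1, h1⟩ := i1 (X - X ⊓ Y) (X ⊓ Y)
    obtain ⟨k2, h2⟩ := i2 (X ⊓ Y) (Y - X ⊓ Y)
    exact ⟨_, Ev.split X Y f k1 k2 h1 h2⟩

lemma lin_add_lin (a b c d : ℤ) : lin a b + lin c d = lin (a + c) (b + d) := by
  funext z
  simp only [lin, Pi.add_apply, smul_add]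
  abel

lemma Ev.add_lin {X Y : K} {g : Pt → ℤ} {l : K} (h : Ev X Y g l) (a b : ℤ) :
    Ev X Y (MP_6e3a57_lc.lin a b + g) (a • X + b • Y + l) := by
  induction h generalizing a b with
  | lin X Y c d =>
    rw [lin_add_lin]
    convert Ev.lin X Y (a + c) (b + d) using 1
    simp only [add_smul]
    abel
  | split X Y g l1 l2 _ _ i1 i2 =>
    have h1 := i1 a (a + b)
    have h2 := i2 (a + b) b
    rw [← lin_cL] at h1
    rw [← lin_cR] at h2
    convert Ev.split X Y (MP_6e3a57_lc.lin a b + g) _ _ h1 h2 using 1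
    simp only [Pi.add_apply, lin_mid, add_smul, smul_sub]
    abel

lemma Ev.add {X Y : K} {f g : Pt → ℤ} {k l : K} (h : Ev X Y f k) (h' : Ev X Y g l) :
    Ev X Y (f + g) (k + l) := by
  induction h generalizing g l with
  | lin X Y a b => exact h'.add_lin a b
  | split X Y f k1 k2 _ _ i1 i2 =>
    obtain ⟨l1, l2, g1, g2, rfl⟩ := h'.split_inv
    convert Ev.split X Y (f + g) _ _ (i1 g1) (i2 g2) using 1
    simp only [Pi.add_apply, add_smul]
    abel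

lemma Ev.map (η : K →+ K') (hη : ∀ a b, η (a ⊓ b) = η a ⊓ η b) {X Y : K} {f : Pt → ℤ} {k : K}
    (h : Ev X Y f k) : Ev (η X) (η Y) f (η k) := by
  induction h with
  | lin X Y a b =>
    rw [map_add, map_zsmul, map_zsmul]
    exact Ev.lin _ _ _ _
  | split X Y f k1 k2 _ _ i1 i2 =>
    rw [map_sub, hη] at i1 i2
    rw [map_sub, map_add, map_zsmul, hη]
    exact Ev.split _ _ f _ _ i1 i2

lemma Ev.mem (S : AddSubgroup K) (hS : ∀ a ∈ S, ∀ b ∈ S, a ⊓ b ∈ S) {X Y : K} {f : Pt → ℤ}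
    {k : K} (h : Ev X Y f k) (hX : X ∈ S) (hY : Y ∈ S) : k ∈ S := by
  induction h with
  | lin X Y a b => exact S.add_mem (S.zsmul_mem hX a) (S.zsmul_mem hY b)
  | split X Y f k1 k2 _ _ i1 i2 =>
    have hZ := hS X hX Y hY
    exact S.sub_mem (S.add_mem (i1 (S.sub_mem hX hZ) hZ) (i2 hZ (S.sub_mem hY hZ)))
      (S.zsmul_mem hZ _)

variable [AddLeftMono K]

lemma abs_zsmul_le (a : ℤ) {X : K} (hX : 0 ≤ X) : |a • X| ≤ a.natAbs • X := by
  have h0 : ∀ n : ℕ, 0 ≤ n • X := fun n => nsmul_nonneg hX n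
  rcases Int.natAbs_eq a with h | h
  · conv_lhs => rw [h, natCast_zsmul]
    rw [abs_of_nonneg (h0 _)]
  · conv_lhs => rw [h, neg_smul, natCast_zsmul]
    rw [abs_neg, abs_of_nonneg (h0 _)]

lemma nsmul_mono_of_le (n : ℕ) {X Y : K} (h : X ≤ Y) : n • X ≤ n • Y := nsmul_le_nsmul_right h n

lemma Ev.bound {X Y : K} {f : Pt → ℤ} {k : K} (h : Ev X Y f k) (hX : 0 ≤ X) (hY : 0 ≤ Y) :
    (∃ C : ℕ, |k - f (0, 1) • Y| ≤ C • X) ∧ (∃ C : ℕ, |k - f (1, 0) • X| ≤ C • Y) := by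
  induction h with
  | lin X Y a b =>
    constructor
    · refine ⟨a.natAbs, ?_⟩
      rw [lin_e2, add_sub_cancel_right]
      exact abs_zsmul_le a hX
    · refine ⟨b.natAbs, ?_⟩
      rw [lin_e1, add_sub_cancel_left]
      exact abs_zsmul_le b hY
  | split X Y f k1 k2 _ _ i1 i2 =>
    have hZ : 0 ≤ X ⊓ Y := le_inf hX hY
    have hX1 : 0 ≤ X - X ⊓ Y := sub_nonneg.mpr inf_le_left
    have hY1 : 0 ≤ Y - X ⊓ Y := sub_nonneg.mpr inf_le_right
    have hX2 : X - X ⊓ Y ≤ X := sub_le_self _ hZ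
    have hY2 : Y - X ⊓ Y ≤ Y := sub_le_self _ hZ
    obtain ⟨⟨C1, h1⟩, ⟨D1, g1⟩⟩ := i1 hX1 hZ
    obtain ⟨⟨C2, h2⟩, ⟨D2, g2⟩⟩ := i2 hZ hY1
    simp only [Function.comp, cL_e1, cL_e2, cR_e1, cR_e2] at h1 g1 h2 g2
    constructor
    · refine ⟨C1 + C2 + (f (0, 1)).natAbs, ?_⟩
      have e : k1 + k2 - f (1, 1) • (X ⊓ Y) - f (0, 1) • Y =
          (k1 - f (1, 1) • (X ⊓ Y)) + (k2 - f (0, 1) • (Y - X ⊓ Y)) + -(f (0, 1) • (X ⊓ Y)) := by
        simp only [smul_sub]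
        abel
      rw [e, add_nsmul, add_nsmul]
      refine (abs_add_le _ _).trans (add_le_add ((abs_add_le _ _).trans (add_le_add ?_ ?_)) ?_)
      · exact h1.trans (nsmul_mono_of_le _ hX2)
      · exact h2.trans (nsmul_mono_of_le _ inf_le_left)
      · rw [abs_neg]
        exact (abs_zsmul_le _ hZ).trans (nsmul_mono_of_le _ inf_le_left)
    · refine ⟨D1 + D2 + (f (1, 0)).natAbs, ?_⟩
      have e : k1 + k2 - f (1, 1) • (X ⊓ Y) - f (1, 0) • X =
          (k1 - f (1, 0) • (X - X ⊓ Y)) + (k2 - f (1, 1) • (X ⊓ Y)) + -(f (1, 0) • (X ⊓ Y)) := by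
        simp only [smul_sub]
        abel
      rw [e, add_nsmul, add_nsmul]
      refine (abs_add_le _ _).trans (add_le_add ((abs_add_le _ _).trans (add_le_add ?_ ?_)) ?_)
      · exact g1.trans (nsmul_mono_of_le _ inf_le_right)
      · exact g2.trans (nsmul_mono_of_le _ hY2)
      · rw [abs_neg]
        exact (abs_zsmul_le _ hZ).trans (nsmul_mono_of_le _ inf_le_right)

lemma add_inf_le_of_nonneg {a a' b : K} (ha : 0 ≤ a) (ha' : 0 ≤ a') (hb : 0 ≤ b) :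
    (a + a') ⊓ b ≤ a ⊓ b + a' ⊓ b := by
  rw [add_inf, inf_add, inf_add]
  refine le_inf (le_inf inf_le_left ?_) (le_inf ?_ ?_)
  · exact inf_le_right.trans (le_add_of_nonneg_right ha')
  · exact inf_le_right.trans (le_add_of_nonneg_left ha)
  · exact inf_le_right.trans (le_add_of_nonneg_left hb)

lemma nsmul_inf_le_zero {a b : K} (ha : 0 ≤ a) (hb : 0 ≤ b) (h : a ⊓ b ≤ 0) (n : ℕ) :
    (n • a) ⊓ b ≤ 0 := by
  induction n with
  | zero => rw [zero_nsmul]; exact inf_le_left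
  | succ n ih =>
    rw [succ_nsmul]
    refine (add_inf_le_of_nonneg (nsmul_nonneg ha n) ha hb).trans ?_
    exact add_nonpos ih h

lemma nsmul_inf_nsmul_le_zero {a b : K} (ha : 0 ≤ a) (hb : 0 ≤ b) (h : a ⊓ b ≤ 0) (n m : ℕ) :
    (n • a) ⊓ (m • b) ≤ 0 := by
  have h1 := nsmul_inf_le_zero ha hb h n
  rw [inf_comm] at h1 ⊢
  exact nsmul_inf_le_zero hb (nsmul_nonneg ha n) h1 m

lemma pos_add_of_disjoint (w P Q a b : K) (ha : 0 ≤ a) (hb : 0 ≤ b) (hab : a ⊓ b ≤ 0)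
    (hP : |P| ≤ a) (hQ : |Q| ≤ b) :
    (w + P + Q) ⊔ 0 = (w + P) ⊔ 0 + (w + Q) ⊔ 0 - w ⊔ 0 := by
  set δ := (w + P + Q) ⊔ 0 - ((w + P) ⊔ 0 + (w + Q) ⊔ 0 - w ⊔ 0) with hδ
  have h1 : |δ| ≤ 2 • b := by
    have e : δ = ((w + P + Q) ⊔ 0 - (w + P) ⊔ 0) + (w ⊔ 0 - (w + Q) ⊔ 0) := by
      rw [hδ]; abel
    rw [e, two_nsmul]
    refine (abs_add_le _ _).trans (add_le_add ?_ ?_)
    · refine (abs_sup_sub_sup_le_abs _ _ _).trans ?_
      rwa [add_sub_cancel_left]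
    · refine (abs_sup_sub_sup_le_abs _ _ _).trans ?_
      rwa [sub_add_cancel_left, abs_neg]
  have h2 : |δ| ≤ 2 • a := by
    have e : δ = ((w + Q + P) ⊔ 0 - (w + Q) ⊔ 0) + (w ⊔ 0 - (w + P) ⊔ 0) := by
      rw [hδ, add_right_comm w Q P]; abel
    rw [e, two_nsmul]
    refine (abs_add_le _ _).trans (add_le_add ?_ ?_)
    · refine (abs_sup_sub_sup_le_abs _ _ _).trans ?_
      rwa [add_sub_cancel_left]
    · refine (abs_sup_sub_sup_le_abs _ _ _).trans ?_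
      rwa [sub_add_cancel_left, abs_neg]
  have h3 : |δ| ≤ 0 := (le_inf h2 h1).trans (nsmul_inf_nsmul_le_zero ha hb hab 2 2)
  have h4 : δ = 0 := by
    apply le_antisymm ((le_abs_self δ).trans h3)
    have := (neg_le_abs δ).trans h3
    exact neg_nonpos.mp this
  exact sub_eq_zero.mp h4

lemma zsmul_sup_zero (c : ℤ) {Z : K} (hZ : 0 ≤ Z) : (c • Z) ⊔ 0 = (c ⊔ 0) • Z := by
  rcases le_total 0 c with h | h
  · rw [sup_eq_left.mpr h, sup_eq_left]
    exact zsmul_nonneg hZ h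
  · rw [sup_eq_right.mpr h, zero_smul, sup_eq_right]
    have := zsmul_nonneg hZ (neg_nonneg.mpr h)
    rw [neg_smul] at this
    exact neg_nonneg.mp this

lemma Ev.pos {f : Pt → ℤ} (hf : PL f) {X Y k : K} (h : Ev X Y f k) (hX : 0 ≤ X) (hY : 0 ≤ Y) :
    Ev X Y (f ⊔ 0) (k ⊔ 0) := by
  have hf' := hf.noCh (AddMonoidHom.id ℤ)
  clear hf
  induction hf' generalizing X Y k with
  | lin a b hab =>
    have hk := h.lin_unique a b rfl
    rcases hab with ⟨ha, hb⟩ | ⟨ha, hb⟩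
    · rw [sup_eq_left.mpr (lin_nonneg (a := a) (b := b) ha hb), sup_eq_left.mpr]
      · exact h
      · rw [hk]; exact add_nonneg (zsmul_nonneg hX ha) (zsmul_nonneg hY hb)
    · rw [sup_eq_right.mpr (lin_nonpos (a := a) (b := b) ha hb), sup_eq_right.mpr]
      · have : (0 : Pt → ℤ) = MP_6e3a57_lc.lin 0 0 := by funext z; simp [MP_6e3a57_lc.lin]
        rw [this]
        convert Ev.lin X Y 0 0 using 1
        simp
      · rw [hk]
        have h1 := zsmul_nonneg hX (neg_nonneg.mpr (show a ≤ 0 from ha))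
        have h2 := zsmul_nonneg hY (neg_nonneg.mpr (show b ≤ 0 from hb))
        rw [neg_smul, neg_nonneg] at h1 h2
        exact add_nonpos h1 h2
  | split f _ _ i1 i2 =>
    have hZ : 0 ≤ X ⊓ Y := le_inf hX hY
    have hX1 : 0 ≤ X - X ⊓ Y := sub_nonneg.mpr inf_le_left
    have hY1 : 0 ≤ Y - X ⊓ Y := sub_nonneg.mpr inf_le_right
    obtain ⟨k1, k2, g1, g2, rfl⟩ := h.split_inv
    obtain ⟨⟨C1, h1⟩, -⟩ := g1.bound hX1 hZ
    obtain ⟨-, ⟨D2, h2⟩⟩ := g2.bound hZ hY1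
    simp only [Function.comp, cL_e2, cR_e1] at h1 h2
    have hd : (X - X ⊓ Y) ⊓ (Y - X ⊓ Y) ≤ 0 := by
      rw [← inf_sub, sub_self]
    have key := pos_add_of_disjoint (f (1, 1) • (X ⊓ Y)) _ _ _ _ (nsmul_nonneg hX1 C1)
      (nsmul_nonneg hY1 D2) (nsmul_inf_nsmul_le_zero hX1 hY1 hd C1 D2) h1 h2
    have e1 : f (1, 1) • (X ⊓ Y) + (k1 - f (1, 1) • (X ⊓ Y)) = k1 := by abel
    have e2 : f (1, 1) • (X ⊓ Y) + (k2 - f (1, 1) • (X ⊓ Y)) = k2 := by abel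
    rw [e1, e2, zsmul_sup_zero _ hZ] at key
    have e3 : k1 + k2 - f (1, 1) • (X ⊓ Y) = k1 + (k2 - f (1, 1) • (X ⊓ Y)) := by abel
    rw [e3, key]
    exact Ev.split X Y (f ⊔ 0) _ _ (i1 g1 hX1 hZ) (i2 g2 hZ hY1)

theorem exists_hom (X Y : K) (hX : 0 ≤ X) (hY : 0 ≤ Y) :
    ∃ θ : A →+ K, (∀ f g, θ (f ⊔ g) = θ f ⊔ θ g) ∧ θ xA = X ∧ θ yA = Y := by
  choose θ hθ using fun f : A => Ev.exists f.2 X Y
  have hadd : ∀ f g, θ (f + g) = θ f + θ g := fun f g =>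
    (hθ (f + g)).unique ((hθ f).add (hθ g))
  refine ⟨AddMonoidHom.mk' θ hadd, ?_, ?_, ?_⟩
  · intro f g
    have h1 : θ ((f - g) ⊔ 0) = θ (f - g) ⊔ 0 :=
      (hθ ((f - g) ⊔ 0)).unique (Ev.pos (f - g).2 (hθ (f - g)) hX hY)
    have h2 : f ⊔ g = (f - g) ⊔ 0 + g := by rw [sup_add]; simp
    have h3 : θ (f - g) = θ f - θ g := map_sub (AddMonoidHom.mk' θ hadd) f g
    show θ (f ⊔ g) = θ f ⊔ θ g
    rw [h2, hadd, h1, h3, sup_add]
    simp
  · have := (hθ xA).lin_unique 1 0 rfl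
    simpa using this
  · have := (hθ yA).lin_unique 0 1 rfl
    simpa using this

end

lemma ev_int {f : Pt → ℤ} (hf : PL f) (z : Pt) : Ev (z.1 : ℤ) (z.2 : ℤ) f (f z) := by
  refine PL.ind (M := fun f => ∀ z : Pt, Ev (z.1 : ℤ) (z.2 : ℤ) f (f z)) ?_ ?_ hf z
  · intro a b z
    convert Ev.lin (z.1 : ℤ) (z.2 : ℤ) a b using 1
    simp [lin, mul_comm]
  · intro f p1 p2 i1 i2 z
    have hf : PL f := PL.split p1 p2
    rcases cover z with ⟨w, rfl⟩ | ⟨w, rfl⟩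
    · have e : ((cL w).1 : ℤ) ⊓ ((cL w).2 : ℤ) = w.2 := by
        simp [cL]
      have h1 := i1 w
      have h2 := i2 (w.2, 0)
      have h3 := Ev.split ((cL w).1 : ℤ) ((cL w).2 : ℤ) f _ _
        (by rw [e]; convert h1 using 1; simp [cL]) (by rw [e]; convert h2 using 1; simp [cL])
      convert h3 using 1
      have h4 := hf.homog w.2 (1, 1)
      simp only [mul_one] at h4
      rw [e]
      simp [cR, h4, mul_comm]
    · have e : ((cR w).1 : ℤ) ⊓ ((cR w).2 : ℤ) = w.1 := by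
        simp [cR]
      have h1 := i1 (0, w.1)
      have h2 := i2 w
      have h3 := Ev.split ((cR w).1 : ℤ) ((cR w).2 : ℤ) f _ _
        (by rw [e]; convert h1 using 1; simp [cR]) (by rw [e]; convert h2 using 1; simp [cR])
      convert h3 using 1
      have h4 := hf.homog w.1 (1, 1)
      simp only [mul_one] at h4
      rw [e]
      simp [cL, h4, mul_comm]

/-- Evaluation at a point. -/
def evA (z : Pt) : A →+ ℤ where
  toFun f := f.1 z
  map_zero' := rfl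
  map_add' _ _ := rfl

lemma ev_self (f : A) : Ev xA yA f.1 f := by
  obtain ⟨k, hk⟩ := Ev.exists f.2 xA yA
  have : k = f := by
    apply Subtype.ext
    funext z
    have h1 := hk.map (evA z) (fun _ _ => rfl)
    have h2 := ev_int f.2 z
    have e1 : evA z xA = z.1 := xA_apply z
    have e2 : evA z yA = z.2 := yA_apply z
    rw [e1, e2] at h1
    exact h1.unique h2
  rwa [this] at hk

/-- The group A is generated by the coordinates as a lattice-ordered group. -/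
theorem gen_A (S : AddSubgroup A) (hS : ∀ a ∈ S, ∀ b ∈ S, a ⊓ b ∈ S) (hx : xA ∈ S) (hy : yA ∈ S)
    (f : A) : f ∈ S := (ev_self f).mem S hS hx hy

end Pool.Agent.P.MP_6e3a57_lc
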